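import Pool.Agent.Lib.MP_3e612f_nt.LO.R.Words

/-!
Local uniformity of digit systems, uniformly over the linear phases, and of their products with systems with
topologically discrete spectrum (for instance rotations of compact abelian groups).

PROOF of `lusw_prod`. By the theorem of Stone and Weierstrass a continuous function on the product is
uniformly close to a sum of products `g x * χ z`, `χ` an eigenfunction.
-/

set_option autoImplicit false

namespace Pool.Agent.Lib.MP_3e612f_nt.LORT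

open Finset
open Pool.Agent.Lib.MP_3e612f_nt.PI (ee mc)
open Pool.Agent.Lib.MP_3e612f_nt.EM
open Pool.Agent.Lib.MP_3e612f_nt.LOM (sh sh_iter LUS)

/-- local uniformity on the orbits of `X`, for the weights in `Wc` -/
def LUSW (Wc : Set (ℕ → ℕ → ℂ)) {E : Type} [TopologicalSpace E] (T : E → E) (X : Set E) : Prop :=
  ∀ f : E → ℂ, Continuous f → ∀ ε : ℝ, 0 < ε → ∃ h₀ : ℕ, ∀ h ≥ h₀, ∃ N₀ : ℕ, ∀ N ≥ N₀, ∀ c ∈ Wc,
    ∀ y : ℕ → E, (∀ x, y x ∈ X) →
      ∑ x ∈ range N, ‖∑ n ∈ range h, c x n * f (T^[n] (y x))‖ ≤ ε * h * N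

private theorem lus_cyl {A : Type} [AddCommGroup A] [Finite A] [TopologicalSpace A]
    [DiscreteTopology A] {f : (ℕ → A) → ℂ}
    (hf : Continuous f) {ε : ℝ} (hε : 0 < ε) :
    ∃ m : ℕ, ∀ x y : ℕ → A, (∀ i < m, x i = y i) → ‖f x - f y‖ ≤ ε := by
  let : Group A := (inferInstance : Group (Multiplicative A))
  obtain ⟨m, hm⟩ := PS.unif_coord isClosed_univ hf.continuousOn hε
  exact ⟨m, fun x y h => hm x (Set.mem_univ _) y (Set.mem_univ _) h⟩

theorem ux_lusw (q m d : ℕ) (hq : 2 ≤ q) (hd : 1 ≤ d) {Wc : Set (ℕ → ℕ → ℂ)}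
    (hWc : ∀ c ∈ Wc, ∀ x n, ‖c x n‖ ≤ 1) (hmain : LMW Wc q (q * m) d) (A : Type) [AddCommGroup A] [Finite A]
    [TopologicalSpace A] [DiscreteTopology A] : LUSW Wc (sh : (ℕ → A) → ℕ → A) (UXM q m d A) := by
  classical
  intro f hf ε hε
  obtain ⟨C, hC0, hC⟩ : ∃ C : ℝ, 0 < C ∧ ∀ x, ‖f x‖ ≤ C := by
    obtain ⟨C, hC⟩ := (isCompact_univ (X := ℕ → A)).exists_bound_of_continuousOn hf.continuousOn
    exact ⟨max C 1, lt_of_lt_of_le one_pos (le_max_right _ _), fun x => (hC x (Set.mem_univ _)).trans (le_max_left _ _)⟩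
  obtain ⟨k, hk⟩ := lus_cyl hf (half_pos hε)
  obtain ⟨h0, hh0⟩ := words_w q m d k hq hd hWc hmain A (ε := ε / (2 * C)) (by positivity)
  refine ⟨h0, fun h hh => ?_⟩
  obtain ⟨X0, hX0⟩ := hh0 h hh
  refine ⟨X0, fun X hX c hcW y hy => ?_⟩
  have hy2 : ∀ x, ∃ (F : (Fin d → ℕ) → (Fin d → ℕ) → A) (L s : ℕ), ∀ i < h + k, y x i = phm q m d L F (i + s) :=
    fun x => hy x (h + k)
  choose F L s hFL using hy2
  set ext : (Fin k → A) → ℕ → A := fun u i => if hi : i < k then u ⟨i, hi⟩ else 0 with hext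
  have hw1 : ∀ (x : ℕ) (u : Fin k → A), ‖f (ext u) / C‖ ≤ 1 := by
    intro x u
    rw [norm_div, Complex.norm_real, Real.norm_eq_abs, abs_of_pos hC0, div_le_one hC0]
    exact hC _
  have hmain2 := hX0 X hX c hcW L s F (fun _ u => f (ext u) / C) hw1
  have hpt : ∀ x ∈ range X, ‖∑ n ∈ range h, c x n * f (sh^[n] (y x))‖ ≤
      C * ‖∑ n ∈ range h, c x n * (f (ext (fun j : Fin k => phm q m d (L x) (F x) (n + s x + j))) / C)‖ +
        ε / 2 * h := by
    intro x _
    have e1 : ∑ n ∈ range h, c x n * f (sh^[n] (y x)) =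
        C * ∑ n ∈ range h, c x n * (f (ext (fun j : Fin k => phm q m d (L x) (F x) (n + s x + j))) / C) +
          ∑ n ∈ range h, c x n * (f (sh^[n] (y x)) -
            f (ext (fun j : Fin k => phm q m d (L x) (F x) (n + s x + j)))) := by
      rw [Finset.mul_sum, ← Finset.sum_add_distrib]
      refine Finset.sum_congr rfl fun n _ => ?_
      have : (C : ℂ) ≠ 0 := by exact_mod_cast hC0.ne'
      field_simp
      ring
    rw [e1]
    refine (norm_add_le _ _).trans (add_le_add (le_of_eq ?_) ?_)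
    · rw [norm_mul, Complex.norm_real, Real.norm_eq_abs, abs_of_pos hC0]
    · have h2 : ∀ n ∈ range h, ‖c x n * (f (sh^[n] (y x)) -
            f (ext (fun j : Fin k => phm q m d (L x) (F x) (n + s x + j))))‖ ≤ ε / 2 := by
        intro n hn
        rw [mem_range] at hn
        rw [norm_mul]
        refine (mul_le_of_le_one_left (norm_nonneg _) (hWc c hcW _ _)).trans ?_
        apply hk
        intro i hi
        rw [sh_iter, hext]
        simp only [hi, dif_pos]
        rw [hFL x (i + n) (by omega)]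
        congr 1
        omega
      refine (norm_sum_le _ _).trans ((Finset.sum_le_sum h2).trans (le_of_eq ?_))
      rw [Finset.sum_const, card_range, nsmul_eq_mul]; ring
  refine (Finset.sum_le_sum hpt).trans ?_
  rw [Finset.sum_add_distrib, ← Finset.mul_sum, Finset.sum_const, card_range, nsmul_eq_mul]
  have h3 := mul_le_mul_of_nonneg_left hmain2 hC0.le
  have h4 : C * (ε / (2 * C) * h * X) = ε / 2 * h * X := by
    field_simp
  rw [h4] at h3
  linarith

/-- the continuous eigenfunctions separate the points -/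
def Sep {K : Type} [TopologicalSpace K] (R : K → K) : Prop :=
  ∀ z z' : K, z ≠ z' → ∃ (χ : C(K, ℂ)) (c : ℂ), ‖c‖ = 1 ∧ (∀ w, χ (R w) = c * χ w) ∧ χ z ≠ χ z'

theorem unit_ev {c : ℂ} (hc : ‖c‖ = 1) : ∃ β : ℝ, c = ev β := by
  refine ⟨Complex.arg c / (2 * Real.pi), ?_⟩
  have h := Complex.norm_mul_exp_arg_mul_I c
  rw [hc, Complex.ofReal_one, one_mul] at h
  have h1 : (2 * Real.pi * (Complex.arg c / (2 * Real.pi)) : ℝ) = Complex.arg c := by
    have := Real.pi_pos
    field_simp
  unfold ev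
  rw [h1, mul_comm]
  exact h.symm

section
variable {E K : Type} [TopologicalSpace E] [TopologicalSpace K]

/-- the products of a continuous function and an eigenfunction -/
def prodB (E : Type) {K : Type} [TopologicalSpace E] [TopologicalSpace K] (R : K → K) :
    Submonoid C(E × K, ℂ) where
  carrier := {F | ∃ (g : C(E, ℂ)) (χ : C(K, ℂ)) (c : ℂ), ‖c‖ = 1 ∧ (∀ w, χ (R w) = c * χ w) ∧
    ∀ x z, F (x, z) = g x * χ z}
  one_mem' := ⟨1, 1, 1, norm_one, fun _ => by simp, fun _ _ => by simp⟩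
  mul_mem' := by
    rintro F F' ⟨g, χ, c, h1, h2, h3⟩ ⟨g', χ', c', h1', h2', h3'⟩
    refine ⟨g * g', χ * χ', c * c', by rw [norm_mul, h1, h1', mul_one], fun w => ?_, fun x z => ?_⟩
    · rw [ContinuousMap.mul_apply, ContinuousMap.mul_apply, h2, h2']
      ring
    · rw [ContinuousMap.mul_apply, ContinuousMap.mul_apply, ContinuousMap.mul_apply, h3, h3']
      ring

theorem prodB_star {R : K → K} {F : C(E × K, ℂ)} (hF : F ∈ prodB E R) : star F ∈ prodB E R := by
  obtain ⟨g, χ, c, h1, h2, h3⟩ := hF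
  refine ⟨star g, star χ, star c, by rw [norm_star, h1], fun w => ?_, fun x z => ?_⟩
  · rw [ContinuousMap.star_apply, ContinuousMap.star_apply, h2, star_mul']
  · rw [ContinuousMap.star_apply, ContinuousMap.star_apply, ContinuousMap.star_apply, h3, star_mul']

/-- the star algebra of the sums of products -/
noncomputable def prodA (E : Type) {K : Type} [TopologicalSpace E] [TopologicalSpace K]
    (R : K → K) : StarSubalgebra ℂ C(E × K, ℂ) where
  toSubalgebra := Algebra.adjoin ℂ (prodB E R : Set C(E × K, ℂ))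
  star_mem' := by
    intro F hF
    refine Algebra.adjoin_induction (p := fun F _ => star F ∈
      (Algebra.adjoin ℂ (prodB E R : Set C(E × K, ℂ)) : Subalgebra ℂ C(E × K, ℂ)))
      (fun G hG => Algebra.subset_adjoin (prodB_star hG)) (fun r => ?_) (fun G G' _ _ h h' => ?_)
      (fun G G' _ _ h h' => ?_) hF
    · rw [← algebraMap_star_comm]
      exact Subalgebra.algebraMap_mem _ _
    · rw [star_add]
      exact add_mem h h'
    · rw [star_mul]
      exact mul_mem h' h

theorem prodA_dense [CompactSpace E] [CompactSpace K] [T2Space E] {R : K → K} (hR : Sep R)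
    (f : C(E × K, ℂ)) {ε : ℝ} (hε : 0 < ε) :
    ∃ F ∈ Submodule.span ℂ (prodB E R : Set C(E × K, ℂ)), ∀ p, ‖f p - F p‖ ≤ ε := by
  have hsep : (prodA E R).SeparatesPoints := by
    rintro ⟨x, z⟩ ⟨x', z'⟩ hne
    by_cases hx : x = x'
    · have hz : z ≠ z' := fun h => hne (by rw [hx, h])
      obtain ⟨χ, c, h1, h2, h3⟩ := hR z z' hz
      refine ⟨_, ⟨⟨fun p => χ p.2, χ.continuous.comp continuous_snd⟩,
        Algebra.subset_adjoin ⟨1, χ, c, h1, h2, fun x z => ?_⟩, rfl⟩, h3⟩
      simp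
    · obtain ⟨g, hg1, hg2⟩ : ∃ g : C(E, ℂ), g x ≠ g x' ∧ True := by
        obtain ⟨g, h1, h2, -⟩ := exists_continuous_zero_one_of_isClosed (isClosed_singleton (x := x))
          (isClosed_singleton (x := x')) (Set.disjoint_singleton.2 hx)
        refine ⟨⟨fun y => ((g y : ℝ) : ℂ), Complex.continuous_ofReal.comp g.continuous⟩, ?_, trivial⟩
        have h3 := h1 (Set.mem_singleton x)
        have h4 := h2 (Set.mem_singleton x')
        show ((g x : ℝ) : ℂ) ≠ ((g x' : ℝ) : ℂ)
        rw [h3, h4]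
        simp
      refine ⟨_, ⟨⟨fun p => g p.1, g.continuous.comp continuous_fst⟩,
        Algebra.subset_adjoin ⟨g, 1, 1, norm_one, fun _ => by simp, fun x z => ?_⟩, rfl⟩, hg1⟩
      simp
  have htop := ContinuousMap.starSubalgebra_topologicalClosure_eq_top_of_separatesPoints
    (prodA E R) hsep
  have hf : f ∈ (prodA E R).topologicalClosure := by
    rw [htop]
    exact trivial
  have hf2 : f ∈ closure ((prodA E R : StarSubalgebra ℂ C(E × K, ℂ)) : Set C(E × K, ℂ)) := hf
  obtain ⟨F, hF, hFd⟩ := Metric.mem_closure_iff.1 hf2 ε hε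
  refine ⟨F, ?_, fun p => ?_⟩
  · have h1 : F ∈ Subalgebra.toSubmodule (Algebra.adjoin ℂ (prodB E R : Set C(E × K, ℂ))) := hF
    rw [Algebra.adjoin_eq_span, Submonoid.closure_eq] at h1
    exact h1
  · rw [← dist_eq_norm]
    exact (ContinuousMap.dist_apply_le_dist p).trans hFd.le

theorem sep_iter {R : K → K} {χ : C(K, ℂ)} {c : ℂ} (h : ∀ w, χ (R w) = c * χ w) (n : ℕ) (w : K) :
    χ (R^[n] w) = c ^ n * χ w := by
  induction n generalizing w with
  | zero => simp
  | succ n ih => rw [Function.iterate_succ_apply, ih, h, pow_succ, mul_assoc]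

/-- **products with systems with topologically discrete spectrum** -/
theorem lusw_prod [CompactSpace E] [CompactSpace K] [T2Space E] {T : E → E} {X : Set E} {R : K → K}
    (hR : Sep R) (hT : LUSW tw T X) : LUSW tw (Prod.map T R) (X ×ˢ (Set.univ : Set K)) := by
  -- the sums of products
  have hspan : ∀ F ∈ Submodule.span ℂ (prodB E R : Set C(E × K, ℂ)), ∀ ε : ℝ, 0 < ε → ∃ h₀ : ℕ,
      ∀ h ≥ h₀, ∃ N₀ : ℕ, ∀ N ≥ N₀, ∀ c ∈ tw, ∀ y : ℕ → E × K,
      (∀ x, y x ∈ X ×ˢ (Set.univ : Set K)) →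
      ∑ x ∈ range N, ‖∑ n ∈ range h, c x n * F ((Prod.map T R)^[n] (y x))‖ ≤ ε * h * N := by
    intro F hF
    induction hF using Submodule.span_induction with
    | mem F hF =>
      intro ε hε
      obtain ⟨g, χ, c0, h1, h2, h3⟩ := hF
      obtain ⟨β, rfl⟩ := unit_ev h1
      obtain ⟨C, hC0, hC⟩ : ∃ C : ℝ, 0 < C ∧ ∀ z, ‖χ z‖ ≤ C :=
        ⟨‖χ‖ + 1, by positivity, fun z => (χ.norm_coe_le_norm z).trans (by linarith)⟩
      obtain ⟨h₀, H1⟩ := hT g g.continuous (ε / C) (by positivity)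
      refine ⟨h₀, fun h hh => ?_⟩
      obtain ⟨N₀, H2⟩ := H1 h hh
      refine ⟨N₀, fun N hN c hc y hy => ?_⟩
      obtain ⟨α, rfl⟩ := hc
      have h4 := H2 N hN (fun x n => mc (x + n) * ev ((α + β) * n)) ⟨α + β, rfl⟩
        (fun x => (y x).1) fun x => (hy x).1
      have h5 : ∀ x ∈ range N, ‖∑ n ∈ range h, mc (x + n) * ev (α * n) *
          F ((Prod.map T R)^[n] (y x))‖ ≤
          C * ‖∑ n ∈ range h, mc (x + n) * ev ((α + β) * n) * g (T^[n] (y x).1)‖ := by
        intro x _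
        have e : ∑ n ∈ range h, mc (x + n) * ev (α * n) * F ((Prod.map T R)^[n] (y x)) =
            χ (y x).2 * ∑ n ∈ range h, mc (x + n) * ev ((α + β) * n) * g (T^[n] (y x).1) := by
          rw [Finset.mul_sum]
          refine Finset.sum_congr rfl fun n _ => ?_
          rw [Prod.map_iterate]
          show mc (x + n) * ev (α * n) * F (T^[n] (y x).1, R^[n] (y x).2) = _
          rw [h3, sep_iter h2, ev_pow, add_mul, ev_add, mul_comm β]
          ring
        rw [e, norm_mul]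
        exact mul_le_mul_of_nonneg_right (hC _) (norm_nonneg _)
      refine (Finset.sum_le_sum h5).trans ?_
      rw [← Finset.mul_sum]
      refine (mul_le_mul_of_nonneg_left h4 hC0.le).trans (le_of_eq ?_)
      field_simp
    | zero =>
      intro ε hε
      refine ⟨0, fun h _ => ⟨0, fun N _ c _ y _ => ?_⟩⟩
      simp only [ContinuousMap.zero_apply, mul_zero, Finset.sum_const_zero, norm_zero]
      positivity
    | add F G _ _ hF hG =>
      intro ε hε
      obtain ⟨h₀, H1⟩ := hF (ε / 2) (by positivity)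
      obtain ⟨h₀', H1'⟩ := hG (ε / 2) (by positivity)
      refine ⟨max h₀ h₀', fun h hh => ?_⟩
      obtain ⟨N₀, H2⟩ := H1 h ((le_max_left _ _).trans hh)
      obtain ⟨N₀', H2'⟩ := H1' h ((le_max_right _ _).trans hh)
      refine ⟨max N₀ N₀', fun N hN c hc y hy => ?_⟩
      have h3 := H2 N ((le_max_left _ _).trans hN) c hc y hy
      have h3' := H2' N ((le_max_right _ _).trans hN) c hc y hy
      have h4 : ∀ x ∈ range N, ‖∑ n ∈ range h, c x n * (F + G) ((Prod.map T R)^[n] (y x))‖ ≤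
          ‖∑ n ∈ range h, c x n * F ((Prod.map T R)^[n] (y x))‖ +
          ‖∑ n ∈ range h, c x n * G ((Prod.map T R)^[n] (y x))‖ := by
        intro x _
        simp only [ContinuousMap.add_apply, mul_add, Finset.sum_add_distrib]
        exact norm_add_le _ _
      refine (Finset.sum_le_sum h4).trans ?_
      rw [Finset.sum_add_distrib]
      calc _ ≤ ε / 2 * h * N + ε / 2 * h * N := add_le_add h3 h3'
        _ = ε * h * N := by ring
    | smul a F _ hF =>
      intro ε hε
      obtain ⟨h₀, H1⟩ := hF (ε / (‖a‖ + 1)) (by positivity)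
      refine ⟨h₀, fun h hh => ?_⟩
      obtain ⟨N₀, H2⟩ := H1 h hh
      refine ⟨N₀, fun N hN c hc y hy => ?_⟩
      have h3 := H2 N hN c hc y hy
      have h4 : ∀ x ∈ range N, ‖∑ n ∈ range h, c x n * (a • F) ((Prod.map T R)^[n] (y x))‖ =
          ‖a‖ * ‖∑ n ∈ range h, c x n * F ((Prod.map T R)^[n] (y x))‖ := by
        intro x _
        rw [← norm_mul, Finset.mul_sum]
        congr 1
        refine Finset.sum_congr rfl fun n _ => ?_
        rw [ContinuousMap.smul_apply, smul_eq_mul]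
        ring
      rw [Finset.sum_congr rfl h4, ← Finset.mul_sum]
      have h5 : 0 ≤ ∑ x ∈ range N, ‖∑ n ∈ range h, c x n * F ((Prod.map T R)^[n] (y x))‖ :=
        Finset.sum_nonneg fun _ _ => norm_nonneg _
      have h6 : ‖a‖ * ∑ x ∈ range N, ‖∑ n ∈ range h, c x n * F ((Prod.map T R)^[n] (y x))‖ ≤
          (‖a‖ + 1) * (ε / (‖a‖ + 1) * h * N) :=
        mul_le_mul (by linarith) h3 h5 (by positivity)
      refine h6.trans (le_of_eq ?_)
      field_simp
  intro f hf ε hε
  obtain ⟨F, hF, hFd⟩ := prodA_dense hR ⟨f, hf⟩ (ε := ε / 2) (by positivity)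
  obtain ⟨h₀, H1⟩ := hspan F hF (ε / 2) (by positivity)
  refine ⟨h₀, fun h hh => ?_⟩
  obtain ⟨N₀, H2⟩ := H1 h hh
  refine ⟨N₀, fun N hN c hc y hy => ?_⟩
  have h3 := H2 N hN c hc y hy
  have h4 : ∀ x ∈ range N, ‖∑ n ∈ range h, c x n * f ((Prod.map T R)^[n] (y x))‖ ≤
      ‖∑ n ∈ range h, c x n * F ((Prod.map T R)^[n] (y x))‖ + ε / 2 * h := by
    intro x _
    have e : ∑ n ∈ range h, c x n * f ((Prod.map T R)^[n] (y x)) =
        ∑ n ∈ range h, c x n * F ((Prod.map T R)^[n] (y x)) +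
        ∑ n ∈ range h, c x n * (f ((Prod.map T R)^[n] (y x)) - F ((Prod.map T R)^[n] (y x))) := by
      rw [← Finset.sum_add_distrib]
      exact Finset.sum_congr rfl fun n _ => by ring
    rw [e]
    refine (norm_add_le _ _).trans (add_le_add le_rfl ((norm_sum_le _ _).trans
      ((Finset.sum_le_card_nsmul _ _ (ε / 2) fun n _ => ?_).trans ?_)))
    · rw [norm_mul]
      exact (mul_le_of_le_one_left (norm_nonneg _) (tw_norm c hc x n)).trans (hFd _)
    · rw [card_range, nsmul_eq_mul]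
      exact le_of_eq (mul_comm _ _)
  refine (Finset.sum_le_sum h4).trans ?_
  rw [Finset.sum_add_distrib, Finset.sum_const, card_range, nsmul_eq_mul]
  calc _ ≤ ε / 2 * h * N + N * (ε / 2 * h) := add_le_add h3 le_rfl
    _ = ε * h * N := by ring

theorem lus_of_lusw {T : E → E} {X : Set E} (h : LUSW tw T X) : LUS T X := by
  intro f hf ε hε
  obtain ⟨h₀, H1⟩ := h f hf ε hε
  refine ⟨h₀, fun h hh => ?_⟩
  obtain ⟨N₀, H2⟩ := H1 h hh
  refine ⟨N₀, fun N hN y hy => ?_⟩
  have h3 := H2 N hN (fun x n => mc (x + n) * ev (0 * n)) ⟨0, rfl⟩ y hy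
  simp only [zero_mul, ev_zero, mul_one] at h3
  exact h3

end

end Pool.Agent.Lib.MP_3e612f_nt.LORT
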