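import Pool.Agent.Lib.MP_3e612f_nt.LO.R.TwD
import Pool.Agent.Lib.MP_3e612f_nt.LO.R.Lus

/-!
Products of locally uniform systems with affine unipotent maps of compact abelian groups.

PROOF. Along an orbit a character of the group is a polynomial phase; its leading coefficient is of infinite
order or its degree is at most one.
-/

set_option autoImplicit false

namespace Pool.Agent.Lib.MP_3e612f_nt.LORT

open Finset
open Pool.Agent.Lib.MP_3e612f_nt.PI (ee mc)
open Pool.Agent.Lib.MP_3e612f_nt.EM

/-- The map `z ↦ A z + a` of the compact abelian group `K`: `A` is unipotent on every character, and every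
nontrivial `A`-invariant character of the form `χ ∘ A - χ` takes at `a` a value of infinite order. -/
def AffU {K : Type} [AddCommGroup K] [TopologicalSpace K] (A : K →+ K) (a : K) : Prop :=
  ∀ χ : K →+ UnitAddCircle, Continuous χ →
    (∃ D : ℕ, ∀ z, χ ((fun w => A w - w)^[D] z) = 0) ∧
    ((∀ z, χ (A (A z)) - χ (A z) = χ (A z) - χ z) → (∃ z, χ (A z) ≠ χ z) →
      ∀ n : ℕ, 0 < n → n • (χ (A a) - χ a) ≠ 0)

section
variable {K : Type} [AddCommGroup K] [TopologicalSpace K]

/-- the character `χ ∘ A - χ` -/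
def dch (A : K →+ K) (χ : K →+ UnitAddCircle) : K →+ UnitAddCircle := χ.comp A - χ

theorem dch_apply (A : K →+ K) (χ : K →+ UnitAddCircle) (z : K) :
    dch A χ z = χ (A z) - χ z := rfl

theorem dch_cont {A : K →+ K} (hA : Continuous A) {χ : K →+ UnitAddCircle} (hχ : Continuous χ) :
    Continuous (dch A χ) := (hχ.comp hA).sub hχ

theorem dch_iter (A : K →+ K) (χ : K →+ UnitAddCircle) (D : ℕ) (z : K) :
    (dch A)^[D] χ z = χ ((fun w => A w - w)^[D] z) := by
  induction D generalizing χ with
  | zero => rfl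
  | succ D ih =>
    rw [Function.iterate_succ_apply, ih, Function.iterate_succ_apply', dch_apply, map_sub]

/-- along an orbit a character is a polynomial phase -/
theorem dch_phd (A : K →+ K) (a : K) (D : ℕ) {χ : K →+ UnitAddCircle}
    (hD : (dch A)^[D + 1] χ = 0) (z : K) :
    PhD (D + 1) ((dch A)^[D] χ a) fun n => χ ((fun w => A w + a)^[n] z) := by
  induction D generalizing χ with
  | zero =>
    intro n
    show χ ((fun w => A w + a)^[n + 1] z) - χ ((fun w => A w + a)^[n] z) = χ a
    rw [Function.iterate_succ_apply']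
    have h1 : dch A χ ((fun w => A w + a)^[n] z) = 0 := by
      have h2 : dch A χ = 0 := hD
      rw [h2]
      rfl
    rw [dch_apply] at h1
    rw [map_add, add_sub_right_comm, h1, zero_add]
  | succ D ih =>
    have h1 := ih (χ := dch A χ) hD
    have h2 : PhD (D + 1) 0 fun _ : ℕ => χ a := by
      clear h1 ih hD
      induction D with
      | zero => exact phd_up (D := 0) fun _ => rfl
      | succ D ih => exact phd_up ih
    have h3 := phd_add h1 h2
    rw [add_zero] at h3
    show PhD (D + 1) _ fun n => χ ((fun w => A w + a)^[n + 1] z) - χ ((fun w => A w + a)^[n] z)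
    rw [Function.iterate_succ_apply]
    convert h3 using 2 with n
    rw [Function.iterate_succ_apply', dch_apply, map_add]
    abel

/-- the degree: at most one, or the leading coefficient has infinite order -/
theorem aff_deg {A : K →+ K} (hA : Continuous A) {a : K} (h : AffU A a) {χ : K →+ UnitAddCircle}
    (hχ : Continuous χ) :
    (∃ β : UnitAddCircle, ∀ z, PhD 1 β fun n => χ ((fun w => A w + a)^[n] z)) ∨
    ∃ (D : ℕ) (γ : UnitAddCircle), addOrderOf γ = 0 ∧
      ∀ z, PhD (D + 2) γ fun n => χ ((fun w => A w + a)^[n] z) := by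
  classical
  have hex : ∃ D : ℕ, (dch A)^[D] χ = 0 := by
    obtain ⟨D, hD⟩ := (h χ hχ).1
    refine ⟨D, AddMonoidHom.ext fun z => ?_⟩
    rw [dch_iter, hD]
    rfl
  obtain ⟨D, hD⟩ : ∃ D, D = Nat.find hex := ⟨_, rfl⟩
  have hD0 := Nat.find_spec hex
  have hDm : ∀ m < D, (dch A)^[m] χ ≠ 0 := fun m hm => Nat.find_min hex (hD ▸ hm)
  rw [← hD] at hD0
  match D, hD0, hDm with
  | 0, hD0, _ =>
    refine Or.inl ⟨_, fun z => dch_phd A a 0 ?_ z⟩
    have h1 : χ = 0 := hD0
    rw [h1]
    refine AddMonoidHom.ext fun w => ?_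
    rw [dch_iter]
    rfl
  | 1, hD0, _ => exact Or.inl ⟨_, fun z => dch_phd A a 0 hD0 z⟩
  | D + 2, hD0, hDm =>
    refine Or.inr ⟨D, (dch A)^[D + 1] χ a, ?_, fun z => dch_phd A a (D + 1) hD0 z⟩
    have hc : ∀ m, Continuous ((dch A)^[m] χ) := by
      intro m
      induction m with
      | zero => exact hχ
      | succ m ih =>
        rw [Function.iterate_succ_apply']
        exact dch_cont hA ih
    have h1 := (h ((dch A)^[D] χ) (hc D)).2 (fun z => ?_) ?_
    · rw [addOrderOf_eq_zero_iff']
      intro n hn h2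
      refine h1 n hn ?_
      rw [← h2, Function.iterate_succ_apply', dch_apply]
    · have h2 : (dch A)^[D + 2] χ z = 0 := by rw [hD0]; rfl
      rw [Function.iterate_succ_apply', Function.iterate_succ_apply', dch_apply, dch_apply,
        dch_apply, sub_eq_zero] at h2
      exact h2
    · by_contra h2
      push Not at h2
      refine hDm (D + 1) (by omega) (AddMonoidHom.ext fun z => ?_)
      rw [Function.iterate_succ_apply', dch_apply, h2 z, sub_self]
      rfl

end

section
variable {E K : Type} [TopologicalSpace E] [AddCommGroup K] [TopologicalSpace K]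

/-- the products of a continuous function and a character -/
def chB (E K : Type) [TopologicalSpace E] [AddCommGroup K] [TopologicalSpace K] :
    Submonoid C(E × K, ℂ) where
  carrier := {F | ∃ (g : C(E, ℂ)) (χ : K →+ UnitAddCircle), Continuous χ ∧
    ∀ x z, F (x, z) = g x * tc (χ z)}
  one_mem' := ⟨1, 0, continuous_const, fun _ z => by
    rw [AddMonoidHom.zero_apply, tc_zero]
    simp⟩
  mul_mem' := by
    rintro F F' ⟨g, χ, h1, h3⟩ ⟨g', χ', h1', h3'⟩
    refine ⟨g * g', χ + χ', h1.add h1', fun x z => ?_⟩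
    rw [ContinuousMap.mul_apply, ContinuousMap.mul_apply, AddMonoidHom.add_apply, h3, h3', tc_add]
    ring

theorem chB_star {F : C(E × K, ℂ)} (hF : F ∈ chB E K) : star F ∈ chB E K := by
  obtain ⟨g, χ, h1, h3⟩ := hF
  refine ⟨star g, -χ, h1.neg, fun x z => ?_⟩
  rw [ContinuousMap.star_apply, ContinuousMap.star_apply, h3, star_mul', AddMonoidHom.neg_apply,
    ← tc_conj]
  rfl

/-- the star algebra of the sums of products -/
noncomputable def chA (E K : Type) [TopologicalSpace E] [AddCommGroup K] [TopologicalSpace K] :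
    StarSubalgebra ℂ C(E × K, ℂ) where
  toSubalgebra := Algebra.adjoin ℂ (chB E K : Set C(E × K, ℂ))
  star_mem' := by
    intro F hF
    refine Algebra.adjoin_induction (p := fun F _ => star F ∈
      (Algebra.adjoin ℂ (chB E K : Set C(E × K, ℂ)) : Subalgebra ℂ C(E × K, ℂ)))
      (fun G hG => Algebra.subset_adjoin (chB_star hG)) (fun r => ?_) (fun G G' _ _ h h' => ?_)
      (fun G G' _ _ h h' => ?_) hF
    · rw [← algebraMap_star_comm]
      exact Subalgebra.algebraMap_mem _ _
    · rw [star_add]
      exact add_mem h h'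
    · rw [star_mul]
      exact mul_mem h' h

/-- the characters separate the points -/
def CSep (K : Type) [AddCommGroup K] [TopologicalSpace K] : Prop :=
  ∀ z : K, z ≠ 0 → ∃ χ : K →+ UnitAddCircle, Continuous χ ∧ χ z ≠ 0

theorem tc_inj {x y : UnitAddCircle} (h : tc x = tc y) : x = y :=
  AddCircle.injective_toCircle one_ne_zero (Circle.ext h)

theorem chA_dense [CompactSpace E] [CompactSpace K] [T2Space E] (hK : CSep K)
    (f : C(E × K, ℂ)) {ε : ℝ} (hε : 0 < ε) :
    ∃ F ∈ Submodule.span ℂ (chB E K : Set C(E × K, ℂ)), ∀ p, ‖f p - F p‖ ≤ ε := by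
  have hsep : (chA E K).SeparatesPoints := by
    rintro ⟨x, z⟩ ⟨x', z'⟩ hne
    by_cases hx : x = x'
    · have hz : z - z' ≠ 0 := fun h => hne (by rw [hx, sub_eq_zero.1 h])
      obtain ⟨χ, h1, h3⟩ := hK _ hz
      refine ⟨_, ⟨⟨fun p => tc (χ p.2), tc_cont.comp (h1.comp continuous_snd)⟩,
        Algebra.subset_adjoin ⟨1, χ, h1, fun x z => ?_⟩, rfl⟩, ?_⟩
      · simp
      · intro h
        apply h3
        rw [map_sub, sub_eq_zero]
        exact tc_inj h
    · obtain ⟨g, hg1, hg2⟩ : ∃ g : C(E, ℂ), g x ≠ g x' ∧ True := by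
        obtain ⟨g, h1, h2, -⟩ := exists_continuous_zero_one_of_isClosed (isClosed_singleton (x := x))
          (isClosed_singleton (x := x')) (Set.disjoint_singleton.2 hx)
        refine ⟨⟨fun y => ((g y : ℝ) : ℂ), Complex.continuous_ofReal.comp g.continuous⟩, ?_, trivial⟩
        have h3 := h1 (Set.mem_singleton x)
        have h4 := h2 (Set.mem_singleton x')
        show ((g x : ℝ) : ℂ) ≠ ((g x' : ℝ) : ℂ)
        rw [h3, h4]
        simp
      refine ⟨_, ⟨⟨fun p => g p.1, g.continuous.comp continuous_fst⟩,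
        Algebra.subset_adjoin ⟨g, 0, continuous_const, fun x z => ?_⟩, rfl⟩, hg1⟩
      rw [AddMonoidHom.zero_apply, tc_zero]
      simp
  have htop := ContinuousMap.starSubalgebra_topologicalClosure_eq_top_of_separatesPoints
    (chA E K) hsep
  have hf : f ∈ (chA E K).topologicalClosure := by
    rw [htop]
    exact trivial
  have hf2 : f ∈ closure ((chA E K : StarSubalgebra ℂ C(E × K, ℂ)) : Set C(E × K, ℂ)) := hf
  obtain ⟨F, hF, hFd⟩ := Metric.mem_closure_iff.1 hf2 ε hε
  refine ⟨F, ?_, fun p => ?_⟩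
  · have h1 : F ∈ Subalgebra.toSubmodule (Algebra.adjoin ℂ (chB E K : Set C(E × K, ℂ))) := hF
    rw [Algebra.adjoin_eq_span, Submonoid.closure_eq] at h1
    exact h1
  · rw [← dist_eq_norm]
    exact (ContinuousMap.dist_apply_le_dist p).trans hFd.le

/-- **products with affine unipotent maps of compact abelian groups** -/
theorem lusw_aff [CompactSpace E] [CompactSpace K] [T2Space E] (hK : CSep K) {T : E → E} {X : Set E}
    {A : K →+ K} (hA : Continuous A) {a : K} (haff : AffU A a) (hT : LUSW tw T X)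
    (hTD : ∀ (D : ℕ) (γ : UnitAddCircle), addOrderOf γ = 0 → LUSW (twD (D + 1) γ) T X) :
    LUSW tw (Prod.map T fun z => A z + a) (X ×ˢ (Set.univ : Set K)) := by
  -- the sums of products
  have hspan : ∀ F ∈ Submodule.span ℂ (chB E K : Set C(E × K, ℂ)), ∀ ε : ℝ, 0 < ε → ∃ h₀ : ℕ,
      ∀ h ≥ h₀, ∃ N₀ : ℕ, ∀ N ≥ N₀, ∀ c ∈ tw, ∀ y : ℕ → E × K,
      (∀ x, y x ∈ X ×ˢ (Set.univ : Set K)) →
      ∑ x ∈ range N, ‖∑ n ∈ range h, c x n * F ((Prod.map T fun z => A z + a)^[n] (y x))‖ ≤
        ε * h * N := by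
    intro F hF
    induction hF using Submodule.span_induction with
    | mem F hF =>
      intro ε hε
      obtain ⟨g, χ, h1, h3⟩ := hF
      rcases aff_deg hA haff h1 with ⟨β, hβ⟩ | ⟨D, γ, hγ, hβ⟩
      · -- degree at most one
        induction β using QuotientAddGroup.induction_on with
        | H β =>
        obtain ⟨h₀, H1⟩ := hT g g.continuous ε hε
        refine ⟨h₀, fun h hh => ?_⟩
        obtain ⟨N₀, H2⟩ := H1 h hh
        refine ⟨N₀, fun N hN c hc y hy => ?_⟩
        obtain ⟨α, rfl⟩ := hc
        have h4 := H2 N hN (fun x n => mc (x + n) * ev ((α + β) * n)) ⟨α + β, rfl⟩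
          (fun x => (y x).1) fun x => (hy x).1
        refine le_trans (le_of_eq (Finset.sum_congr rfl fun x _ => ?_)) h4
        have e : ∑ n ∈ range h, mc (x + n) * ev (α * n) *
            F ((Prod.map T fun z => A z + a)^[n] (y x)) =
            tc (χ (y x).2) * ∑ n ∈ range h, mc (x + n) * ev ((α + β) * n) * g (T^[n] (y x).1) := by
          rw [Finset.mul_sum]
          refine Finset.sum_congr rfl fun n _ => ?_
          rw [Prod.map_iterate]
          show mc (x + n) * ev (α * n) * F (T^[n] (y x).1, (fun z => A z + a)^[n] (y x).2) = _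
          have h5 := phd_one (hβ (y x).2) n
          simp only [Function.iterate_zero, id_eq] at h5
          rw [h3, h5, tc_add, tc_nsmul]
          have h6 : tc (QuotientAddGroup.mk β) = ev β := tc_coe β
          rw [h6, ev_pow, add_mul, ev_add, mul_comm β]
          ring
        rw [e, norm_mul, tc_norm, one_mul]
      · -- degree at least two
        obtain ⟨h₀, H1⟩ := hTD (D + 1) γ hγ g g.continuous ε hε
        refine ⟨h₀, fun h hh => ?_⟩
        obtain ⟨N₀, H2⟩ := H1 h hh
        refine ⟨N₀, fun N hN c hc y hy => ?_⟩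
        obtain ⟨α, rfl⟩ := hc
        have h4 := H2 N hN (fun x n => mc (x + n) *
          tc (n • (α : UnitAddCircle) + χ ((fun w => A w + a)^[n] (y x).2)))
          ⟨fun x n => n • (α : UnitAddCircle) + χ ((fun w => A w + a)^[n] (y x).2), fun x => by
            have h5 := phd_add (phd_lin2 (α : UnitAddCircle) D) (hβ (y x).2)
            rwa [zero_add] at h5, rfl⟩
          (fun x => (y x).1) fun x => (hy x).1
        refine le_trans (le_of_eq (Finset.sum_congr rfl fun x _ => ?_)) h4
        congr 1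
        refine Finset.sum_congr rfl fun n _ => ?_
        rw [Prod.map_iterate]
        show mc (x + n) * ev (α * n) * F (T^[n] (y x).1, (fun z => A z + a)^[n] (y x).2) = _
        rw [h3, tc_add, tc_nsmul, tc_coe, ev_pow, mul_comm α]
        ring
    | zero =>
      intro ε hε
      refine ⟨0, fun h _ => ⟨0, fun N _ c _ y _ => ?_⟩⟩
      simp only [ContinuousMap.zero_apply, mul_zero, Finset.sum_const_zero, norm_zero]
      positivity
    | add F G _ _ hF hG =>
      intro ε hε
      obtain ⟨h₀, H1⟩ := hF (ε / 2) (by positivity)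
      obtain ⟨h₀', H1'⟩ := hG (ε / 2) (by positivity)
      refine ⟨max h₀ h₀', fun h hh => ?_⟩
      obtain ⟨N₀, H2⟩ := H1 h ((le_max_left _ _).trans hh)
      obtain ⟨N₀', H2'⟩ := H1' h ((le_max_right _ _).trans hh)
      refine ⟨max N₀ N₀', fun N hN c hc y hy => ?_⟩
      have h3 := H2 N ((le_max_left _ _).trans hN) c hc y hy
      have h3' := H2' N ((le_max_right _ _).trans hN) c hc y hy
      have h4 : ∀ x ∈ range N, ‖∑ n ∈ range h, c x n * (F + G)
          ((Prod.map T fun z => A z + a)^[n] (y x))‖ ≤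
          ‖∑ n ∈ range h, c x n * F ((Prod.map T fun z => A z + a)^[n] (y x))‖ +
          ‖∑ n ∈ range h, c x n * G ((Prod.map T fun z => A z + a)^[n] (y x))‖ := by
        intro x _
        simp only [ContinuousMap.add_apply, mul_add, Finset.sum_add_distrib]
        exact norm_add_le _ _
      refine (Finset.sum_le_sum h4).trans ?_
      rw [Finset.sum_add_distrib]
      calc _ ≤ ε / 2 * h * N + ε / 2 * h * N := add_le_add h3 h3'
        _ = ε * h * N := by ring
    | smul b F _ hF =>
      intro ε hε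
      obtain ⟨h₀, H1⟩ := hF (ε / (‖b‖ + 1)) (by positivity)
      refine ⟨h₀, fun h hh => ?_⟩
      obtain ⟨N₀, H2⟩ := H1 h hh
      refine ⟨N₀, fun N hN c hc y hy => ?_⟩
      have h3 := H2 N hN c hc y hy
      have h4 : ∀ x ∈ range N, ‖∑ n ∈ range h, c x n * (b • F)
          ((Prod.map T fun z => A z + a)^[n] (y x))‖ =
          ‖b‖ * ‖∑ n ∈ range h, c x n * F ((Prod.map T fun z => A z + a)^[n] (y x))‖ := by
        intro x _
        rw [← norm_mul, Finset.mul_sum]
        congr 1
        refine Finset.sum_congr rfl fun n _ => ?_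
        rw [ContinuousMap.smul_apply, smul_eq_mul]
        ring
      rw [Finset.sum_congr rfl h4, ← Finset.mul_sum]
      have h5 : 0 ≤ ∑ x ∈ range N, ‖∑ n ∈ range h, c x n * F
          ((Prod.map T fun z => A z + a)^[n] (y x))‖ :=
        Finset.sum_nonneg fun _ _ => norm_nonneg _
      have h6 : ‖b‖ * ∑ x ∈ range N, ‖∑ n ∈ range h, c x n * F
          ((Prod.map T fun z => A z + a)^[n] (y x))‖ ≤
          (‖b‖ + 1) * (ε / (‖b‖ + 1) * h * N) :=
        mul_le_mul (by linarith) h3 h5 (by positivity)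
      refine h6.trans (le_of_eq ?_)
      field_simp
  intro f hf ε hε
  obtain ⟨F, hF, hFd⟩ := chA_dense hK ⟨f, hf⟩ (ε := ε / 2) (by positivity)
  obtain ⟨h₀, H1⟩ := hspan F hF (ε / 2) (by positivity)
  refine ⟨h₀, fun h hh => ?_⟩
  obtain ⟨N₀, H2⟩ := H1 h hh
  refine ⟨N₀, fun N hN c hc y hy => ?_⟩
  have h3 := H2 N hN c hc y hy
  have h4 : ∀ x ∈ range N, ‖∑ n ∈ range h, c x n * f ((Prod.map T fun z => A z + a)^[n] (y x))‖ ≤
      ‖∑ n ∈ range h, c x n * F ((Prod.map T fun z => A z + a)^[n] (y x))‖ + ε / 2 * h := by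
    intro x _
    have e : ∑ n ∈ range h, c x n * f ((Prod.map T fun z => A z + a)^[n] (y x)) =
        ∑ n ∈ range h, c x n * F ((Prod.map T fun z => A z + a)^[n] (y x)) +
        ∑ n ∈ range h, c x n * (f ((Prod.map T fun z => A z + a)^[n] (y x)) -
          F ((Prod.map T fun z => A z + a)^[n] (y x))) := by
      rw [← Finset.sum_add_distrib]
      exact Finset.sum_congr rfl fun n _ => by ring
    rw [e]
    refine (norm_add_le _ _).trans (add_le_add le_rfl ((norm_sum_le _ _).trans
      ((Finset.sum_le_card_nsmul _ _ (ε / 2) fun n _ => ?_).trans ?_)))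
    · rw [norm_mul]
      exact (mul_le_of_le_one_left (norm_nonneg _) (tw_norm c hc x n)).trans (hFd _)
    · rw [card_range, nsmul_eq_mul]
      exact le_of_eq (mul_comm _ _)
  refine (Finset.sum_le_sum h4).trans ?_
  rw [Finset.sum_add_distrib, Finset.sum_const, card_range, nsmul_eq_mul]
  calc _ ≤ ε / 2 * h * N + N * (ε / 2 * h) := add_le_add h3 le_rfl
    _ = ε * h * N := by ring

end

end Pool.Agent.Lib.MP_3e612f_nt.LORT
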