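import Pool.Agent.Lib.MP_3e612f_nt.LO.M.Unif
import Pool.Agent.Lib.MP_3e612f_nt.LO.R.Lus

/-!
The uniform models theorem for general weights, in particular uniformly over the linear phases; adapted
from `LO/M/Unif.lean`.
-/

set_option autoImplicit false

namespace Pool.Agent.Lib.MP_3e612f_nt.LORT

open Finset MeasureTheory Filter Topology
open Pool.Agent.Lib.MP_3e612f_nt.PI (mc)
open Pool.Agent.Lib.MP_3e612f_nt.LOM (avm avmP avm_apply avm_integral open_set close_meas win_in DLim)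

/-- a shift of the window changes the weights by a unimodular constant -/
def WShift (Wc : Set (ℕ → ℕ → ℂ)) : Prop :=
  ∀ c ∈ Wc, ∀ n : ℕ, ∃ u : ℂ, ‖u‖ ≤ 1 ∧ ∀ x i, c x (n + i) = u * c (n + x) i

theorem tw_shift : WShift tw := by
  rintro c ⟨α, rfl⟩ n
  refine ⟨ev (α * n), (norm_ev _).le, fun x i => ?_⟩
  simp only
  rw [show x + (n + i) = n + x + i by ring]
  push_cast
  rw [mul_add, ev_add]
  ring

section
variable {Y : Type} [MetricSpace Y] [CompactSpace Y] [MeasurableSpace Y] [BorelSpace Y]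

theorem lusw_shift {Wc : Set (ℕ → ℕ → ℂ)} (hWs : WShift Wc) {E : Type} [TopologicalSpace E] (T : E → E)
    (X : Set E) (f : E → ℂ) (x0 : E) (hx0 : x0 ∈ X) (ε : ℝ) (h' N₀ : ℕ)
    (H : ∀ N ≥ N₀, ∀ c ∈ Wc, ∀ y : ℕ → E, (∀ x, y x ∈ X) →
      ∑ x ∈ range N, ‖∑ n ∈ range h', c x n * f (T^[n] (y x))‖ ≤ ε * h' * N)
    (N n : ℕ) (hN : N₀ ≤ N) (c : ℕ → ℕ → ℂ) (hcW : c ∈ Wc) (z : ℕ → E) (hz : ∀ x, z x ∈ X) :
    ∑ x ∈ range N, ‖∑ i ∈ range h', c x (n + i) * f (T^[i] (z x))‖ ≤ ε * h' * (N + n) := by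
  have h1 := H (n + N) (by omega) c hcW (fun x => if n ≤ x then z (x - n) else x0) (fun x => by
    by_cases h : n ≤ x
    · simp only [h, if_true]; exact hz _
    · simp only [h, if_false]; exact hx0)
  rw [Finset.sum_range_add] at h1
  have h2 : ∑ x ∈ range N, ‖∑ i ∈ range h', c x (n + i) * f (T^[i] (z x))‖ ≤
      ∑ x ∈ range n, ‖∑ i ∈ range h', c x i * f (T^[i] ((fun x => if n ≤ x then z (x - n) else x0) x))‖ +
      ∑ x ∈ range N, ‖∑ i ∈ range h', c (n + x) i *
        f (T^[i] ((fun x => if n ≤ x then z (x - n) else x0) (n + x)))‖ := by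
    refine le_trans ?_ (le_add_of_nonneg_left (Finset.sum_nonneg fun _ _ => norm_nonneg _))
    refine Finset.sum_le_sum fun x _ => ?_
    have e1 : n ≤ n + x := Nat.le_add_right _ _
    have e2 : n + x - n = x := by omega
    obtain ⟨u, hu, hc⟩ := hWs c hcW n
    have e3 : ∑ i ∈ range h', c x (n + i) * f (T^[i] (z x)) =
        u * ∑ i ∈ range h', c (n + x) i * f (T^[i] (z x)) := by
      rw [Finset.mul_sum]
      refine Finset.sum_congr rfl fun i _ => ?_
      rw [hc]
      ring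
    simp only [e1, if_true, e2]
    rw [e3, norm_mul]
    exact mul_le_of_le_one_left (norm_nonneg _) hu
  refine h2.trans (h1.trans (le_of_eq ?_))
  push_cast
  ring

open Classical in
theorem ukeyw {Wc : Set (ℕ → ℕ → ℂ)}
    (hWc : ∀ c ∈ Wc, ∀ x n, ‖c x n‖ ≤ 1) (hWs : WShift Wc) (S : Y → Y) (hS : Continuous S) (g : Y → ℂ) (hg : Continuous g) {E : Type} [TopologicalSpace E]
    [MeasurableSpace E] [OpensMeasurableSpace E] (T : E → E) (X : Set E) (hLU : LUSW Wc T X) (lam : Measure (E × Y))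
    [IsProbabilityMeasure lam]
    (hinv : MeasurePreserving (Prod.map T S) lam lam) (hX : ∀ᵐ p ∂lam, p.1 ∈ X) (f : E → ℂ) (hf : Continuous f)
    (C : ℝ) (hC : ∀ x, ‖f x‖ ≤ C) (G : ℝ) (hG : ∀ y, ‖g y‖ ≤ G) (ε : ℝ) (hε : 0 < ε)
    (hclose : ∫ p, ‖g p.2 - f p.1‖ ∂lam ≤ ε ^ 2) (ν : ProbabilityMeasure Y) (hν : lam.map Prod.snd = (ν : Measure Y))
    (N h : ℕ → ℕ) (y : ℕ → ℕ → Y) (hh : Tendsto h atTop atTop) (hNh : ∀ k, h k + 1 ≤ N k + 1)
    (P : ℕ → ProbabilityMeasure Y)
    (hP : ∀ k, (P k : Measure Y) = avm (range (N k + 1) ×ˢ range (h k + 1)) (fun p => S^[p.2] (y k p.1)))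
    (hconv : Tendsto P atTop (𝓝 ν)) :
    ∀ᶠ k in atTop, ∀ c ∈ Wc, ∑ x ∈ range (N k + 1), ‖∑ n ∈ range (h k + 1), c x n * g (S^[n] (y k x))‖ ≤
      (5 + G) * ε * ((h k + 1 : ℕ) : ℝ) * ((N k + 1 : ℕ) : ℝ) := by
  have hG0 : 0 ≤ G := (norm_nonneg _).trans (hG (y 0 0))
  obtain ⟨h₀, H⟩ := hLU f hf ε hε
  set h' : ℕ := max h₀ 1 with hh'
  have hh1 : 1 ≤ h' := le_max_right _ _
  have hh0 : (0 : ℝ) < h' := by exact_mod_cast hh1
  obtain ⟨N₀, H⟩ := H h' (le_max_left _ _)
  set V : Set Y := {y : Y | ∃ x ∈ X, ∑ n ∈ range h', ‖g (S^[n] y) - f (T^[n] x)‖ < 2 * ε * h'} with hV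
  have hVo : IsOpen V := open_set S hS g hg T X f h' _
  have hmeas := close_meas S hS g hg T X lam hinv hX f hf C hC G hG ε hε hclose h' hh1
  rw [hν] at hmeas
  have hport := ProbabilityMeasure.le_liminf_measure_open_of_tendsto hconv hVo
  have hev : ∀ᶠ k in atTop, 1 - ε ≤ ((P k : Measure Y) V).toReal := by
    by_cases hε1 : 1 - ε ≤ 0
    · exact Eventually.of_forall fun k => hε1.trans ENNReal.toReal_nonneg
    · rw [not_le] at hε1
      have hlt : ENNReal.ofReal (1 - ε) < (ν : Measure Y) V := by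
        rw [← ENNReal.ofReal_toReal (measure_ne_top (ν : Measure Y) V)]
        exact (ENNReal.ofReal_lt_ofReal_iff_of_nonneg hε1.le).2 (by linarith)
      filter_upwards [Filter.eventually_lt_of_lt_liminf (lt_of_lt_of_le hlt hport)] with k hk
      exact (ENNReal.ofReal_le_iff_le_toReal (measure_ne_top _ _)).1 hk.le
  have hXne : X.Nonempty := by
    by_contra hne
    rw [Set.not_nonempty_iff_eq_empty] at hne
    rw [hne] at hX
    have h1 : ∀ᵐ p ∂lam, False := by
      filter_upwards [hX] with p hp using hp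
    rw [ae_iff] at h1
    simp at h1
  obtain ⟨x0, hx0⟩ := hXne
  filter_upwards [hev, hh.eventually_ge_atTop N₀, hh.eventually_ge_atTop ⌈2 * h' * G / ε⌉₊] with k hk1 hk2 hk3
  set M : ℕ := N k + 1 with hM
  set R : ℕ := h k + 1 with hR
  have hM0 : (0 : ℝ) < M := by exact_mod_cast Nat.succ_pos _
  have hR0 : (0 : ℝ) < R := by exact_mod_cast Nat.succ_pos _
  have hRM : (R : ℝ) ≤ M := by exact_mod_cast hNh k
  rw [hP k, avm_apply _ _ V hVo.measurableSet, Finset.card_product, card_range, card_range, Nat.cast_mul,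
    le_div_iff₀ (mul_pos hM0 hR0)] at hk1
  have hbig : 2 * h' * G ≤ ε * R := by
    have h1 : 2 * h' * G / ε ≤ (h k : ℝ) := (Nat.le_ceil _).trans (by exact_mod_cast hk3)
    rw [div_le_iff₀ hε] at h1
    have h2 : (h k : ℝ) ≤ R := by rw [hR]; push_cast; linarith
    nlinarith
  have hyex : ∀ n x : ℕ, ∃ z ∈ X, S^[n] (y k x) ∈ V →
      ∑ i ∈ range h', ‖g (S^[i] (S^[n] (y k x))) - f (T^[i] z)‖ < 2 * ε * h' := by
    intro n x
    by_cases hx : S^[n] (y k x) ∈ V
    · obtain ⟨z, hz, hz2⟩ := hx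
      exact ⟨z, hz, fun _ => hz2⟩
    · exact ⟨x0, hx0, fun h => absurd h hx⟩
  choose z hzX hzV using hyex
  intro c hcW
  have hwin := win_in (fun x n => c x n * g (S^[n] (y k x))) G (fun x n => by
    rw [norm_mul]
    exact (mul_le_of_le_one_left (norm_nonneg _) (hWc c hcW _ _)).trans (hG _)) M R h'
  have hpt : ∀ n ∈ range R, ∀ x ∈ range M, ‖∑ i ∈ range h', c x (n + i) * g (S^[n + i] (y k x))‖ ≤
      ‖∑ i ∈ range h', c x (n + i) * f (T^[i] (z n x))‖ + 2 * ε * h' +
        (if S^[n] (y k x) ∈ V then 0 else h' * G) := by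
    intro n _ x _
    have e : ∀ i, S^[n + i] (y k x) = S^[i] (S^[n] (y k x)) := fun i => by
      rw [add_comm, Function.iterate_add_apply]
    by_cases hx : S^[n] (y k x) ∈ V
    · rw [if_pos hx, add_zero]
      have e1 : ∑ i ∈ range h', c x (n + i) * g (S^[n + i] (y k x)) =
          ∑ i ∈ range h', c x (n + i) * f (T^[i] (z n x)) +
            ∑ i ∈ range h', c x (n + i) * (g (S^[i] (S^[n] (y k x))) - f (T^[i] (z n x))) := by
        rw [← Finset.sum_add_distrib]
        refine Finset.sum_congr rfl fun i _ => ?_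
        rw [e i]; ring
      rw [e1]
      refine (norm_add_le _ _).trans (add_le_add le_rfl ?_)
      refine (norm_sum_le _ _).trans (le_trans (Finset.sum_le_sum fun i _ => ?_) (hzV n x hx).le)
      rw [norm_mul]
      exact mul_le_of_le_one_left (norm_nonneg _) (hWc c hcW _ _)
    · rw [if_neg hx]
      have h1 : ‖∑ i ∈ range h', c x (n + i) * g (S^[n + i] (y k x))‖ ≤ h' * G := by
        have h2 : ∀ i ∈ range h', ‖c x (n + i) * g (S^[n + i] (y k x))‖ ≤ G := fun i _ => by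
          rw [norm_mul]
          exact (mul_le_of_le_one_left (norm_nonneg _) (hWc c hcW _ _)).trans (hG _)
        refine (norm_sum_le _ _).trans ((Finset.sum_le_sum h2).trans (le_of_eq ?_))
        rw [Finset.sum_const, card_range, nsmul_eq_mul]
      have h2 : 0 ≤ ‖∑ i ∈ range h', c x (n + i) * f (T^[i] (z n x))‖ := norm_nonneg _
      have h3 : 0 ≤ 2 * ε * h' := by positivity
      linarith
  have hmain : ∀ n ∈ range R, ∑ x ∈ range M, ‖∑ i ∈ range h', c x (n + i) * f (T^[i] (z n x))‖ ≤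
      2 * (ε * h' * M) := by
    intro n hn
    have h1 := lusw_shift hWs T X f x0 hx0 ε h' N₀ H M n (by have := hNh k; omega) c hcW (z n) (hzX n)
    refine h1.trans ?_
    have h2 : (n : ℝ) ≤ M := by
      have : (n : ℝ) ≤ R := by exact_mod_cast (Finset.mem_range.1 hn).le
      linarith
    have h3 : 0 ≤ ε * h' := by positivity
    nlinarith
  have hcount : ∑ n ∈ range R, ∑ x ∈ range M, (if S^[n] (y k x) ∈ V then (0 : ℝ) else h' * G) ≤
      h' * G * (ε * (M * R)) := by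
    have e1 : ∑ n ∈ range R, ∑ x ∈ range M, (if S^[n] (y k x) ∈ V then (0 : ℝ) else h' * G) =
        h' * G * (M * R - (((range M ×ˢ range R).filter (fun p => S^[p.2] (y k p.1) ∈ V)).card : ℝ)) := by
      rw [Finset.sum_comm, ← Finset.sum_product' (range M) (range R)
        (fun x n => if S^[n] (y k x) ∈ V then (0 : ℝ) else h' * G)]
      have e2 : ∀ p : ℕ × ℕ, (if S^[p.2] (y k p.1) ∈ V then (0 : ℝ) else h' * G) =
          h' * G - (if S^[p.2] (y k p.1) ∈ V then h' * G else 0) := by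
        intro p; by_cases hx : S^[p.2] (y k p.1) ∈ V <;> simp [hx]
      rw [Finset.sum_congr rfl (fun p _ => e2 p), Finset.sum_sub_distrib, Finset.sum_const, Finset.card_product,
        card_range, card_range, nsmul_eq_mul, ← Finset.sum_filter, Finset.sum_const, nsmul_eq_mul]
      push_cast
      ring
    rw [e1]
    exact mul_le_mul_of_nonneg_left (by linarith) (by positivity)
  have hsum : ∑ n ∈ range R, ∑ x ∈ range M, ‖∑ i ∈ range h', c x (n + i) * g (S^[n + i] (y k x))‖ ≤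
      R * (2 * (ε * h' * M)) + R * (M * (2 * ε * h')) + h' * G * (ε * (M * R)) := by
    calc ∑ n ∈ range R, ∑ x ∈ range M, ‖∑ i ∈ range h', c x (n + i) * g (S^[n + i] (y k x))‖
        ≤ ∑ n ∈ range R, (∑ x ∈ range M, ‖∑ i ∈ range h', c x (n + i) * f (T^[i] (z n x))‖ +
            M * (2 * ε * h') + ∑ x ∈ range M, (if S^[n] (y k x) ∈ V then 0 else h' * G)) := by
          refine Finset.sum_le_sum fun n hn => ?_
          refine (Finset.sum_le_sum fun x hx => hpt n hn x hx).trans (le_of_eq ?_)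
          rw [Finset.sum_add_distrib, Finset.sum_add_distrib, Finset.sum_const, card_range, nsmul_eq_mul]
      _ ≤ R * (2 * (ε * h' * M)) + R * (M * (2 * ε * h')) + h' * G * (ε * (M * R)) := by
          rw [Finset.sum_add_distrib, Finset.sum_add_distrib]
          refine add_le_add (add_le_add ?_ ?_) hcount
          · refine (Finset.sum_le_sum hmain).trans (le_of_eq ?_)
            rw [Finset.sum_const, card_range, nsmul_eq_mul]
          · rw [Finset.sum_const, card_range, nsmul_eq_mul]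
  have hfin : (h' : ℝ) * ∑ x ∈ range M, ‖∑ n ∈ range R, c x n * g (S^[n] (y k x))‖ ≤
      h' * ((5 + G) * ε * R * M) := by
    refine hwin.trans ((add_le_add hsum le_rfl).trans ?_)
    have h1 : 2 * h' * h' * G * M ≤ h' * M * (ε * R) := by
      have := mul_le_mul_of_nonneg_left hbig (mul_nonneg hh0.le hM0.le)
      nlinarith
    have h2 : 0 ≤ ε * h' * M * R := by positivity
    nlinarith
  exact le_of_mul_le_mul_left hfin hh0

/-- **Uniform form.** If every limit measure of the sequences in `F` has, for every `ε`, a joining with a locally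
uniform system such that `g` is `ε`-close in `L¹` to a continuous function of the first coordinate, then the Moebius function is
locally orthogonal to `g (S^n y_x)`, uniformly in the sequence `y ∈ F`. -/
theorem unif_modelsw {Wc : Set (ℕ → ℕ → ℂ)}
    (hWc : ∀ c ∈ Wc, ∀ x n, ‖c x n‖ ≤ 1) (hWs : WShift Wc) (S : Y → Y) (hS : Continuous S) (g : Y → ℂ) (hg : Continuous g) (F : Set (ℕ → Y))
    (H : ∀ ν : Measure Y, IsProbabilityMeasure ν → DLim S F ν →
      ∀ ε : ℝ, 0 < ε → ∃ (E : Type) (_ : TopologicalSpace E) (_ : MeasurableSpace E) (_ : OpensMeasurableSpace E)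
        (T : E → E) (X : Set E), LUSW Wc T X ∧ ∃ lam : Measure (E × Y), IsProbabilityMeasure lam ∧
          MeasurePreserving (Prod.map T S) lam lam ∧ lam.map Prod.snd = ν ∧ (∀ᵐ p ∂lam, p.1 ∈ X) ∧
          ∃ f : E → ℂ, Continuous f ∧ (∃ C : ℝ, ∀ x, ‖f x‖ ≤ C) ∧ ∫ p, ‖g p.2 - f p.1‖ ∂lam ≤ ε) :
    ∀ ε : ℝ, 0 < ε → ∃ h₀ : ℕ, ∀ h ≥ h₀, ∃ N₀ : ℕ, ∀ N ≥ N₀, ∀ c ∈ Wc, ∀ y ∈ F,
      ∑ x ∈ range N, ‖∑ n ∈ range h, c x n * g (S^[n] (y x))‖ ≤ ε * h * N := by
  intro ε hε
  by_contra hcon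
  push Not at hcon
  obtain ⟨G, hG⟩ : ∃ G : ℝ, ∀ y, ‖g y‖ ≤ G := by
    obtain ⟨G, hG⟩ := (isCompact_univ (X := Y)).exists_bound_of_continuousOn hg.continuousOn
    exact ⟨G, fun y => hG y (Set.mem_univ y)⟩
  have hex : ∀ k : ℕ, ∃ h N : ℕ, k + 1 ≤ h ∧ (k + 1) * h ≤ N ∧ ∃ c ∈ Wc, ∃ y ∈ F,
      ε * h * N < ∑ x ∈ range N, ‖∑ n ∈ range h, c x n * g (S^[n] (y x))‖ := by
    intro k
    obtain ⟨h, hh, hN⟩ := hcon (k + 1)
    obtain ⟨N, hN, c, hc, y, hy, hlt⟩ := hN ((k + 1) * h)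
    exact ⟨h, N, hh, hN, c, hc, y, hy, hlt⟩
  choose h N hk1 hk2 c hcW y hyF hbad using hex
  have hh1 : ∀ k, h k - 1 + 1 = h k := fun k => by have := hk1 k; omega
  have hNh : ∀ k, h k ≤ N k := fun k => (Nat.le_mul_of_pos_left _ (Nat.succ_pos k)).trans (hk2 k)
  have hN1 : ∀ k, N k - 1 + 1 = N k := fun k => by have := hk1 k; have := hNh k; omega
  obtain ⟨ν, ms, hms, hconv⟩ := CompactSpace.tendsto_subseq (fun k : ℕ =>
    avmP (range (N k - 1 + 1) ×ˢ range (h k - 1 + 1)) (by simp) (fun p : ℕ × ℕ => S^[p.2] (y k p.1)))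
  have hh : Tendsto h atTop atTop := tendsto_atTop_mono (fun k => (Nat.le_succ k).trans (hk1 k)) tendsto_id
  have hD : DLim S F (ν : Measure Y) := by
    refine ⟨fun k => N (ms k), fun k => h (ms k), fun k => y (ms k), fun k => hyF _, hh.comp hms.tendsto_atTop, ?_, ?_⟩
    · have h1 : Tendsto (fun k => (N k : ℝ) / (h k : ℝ)) atTop atTop := by
        refine tendsto_atTop_mono (fun k => ?_) tendsto_natCast_atTop_atTop
        have h2 : (0 : ℝ) < h k := by exact_mod_cast lt_of_lt_of_le (Nat.succ_pos k) (hk1 k)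
        rw [le_div_iff₀ h2]
        have h3 : (((k + 1) * h k : ℕ) : ℝ) ≤ N k := by exact_mod_cast hk2 k
        push_cast at h3
        nlinarith
      exact h1.comp hms.tendsto_atTop
    · intro φ
      have h1 := (ProbabilityMeasure.tendsto_iff_forall_integral_tendsto.1 hconv) (BoundedContinuousFunction.mkOfCompact φ)
      refine h1.congr fun k => ?_
      have h2 := avm_integral (range (N (ms k) - 1 + 1) ×ˢ range (h (ms k) - 1 + 1))
        (fun p => S^[p.2] (y (ms k) p.1)) φ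
      refine h2.trans ?_
      rw [hh1, hN1, Finset.sum_product, Finset.card_product, card_range, card_range, Nat.cast_mul]
  set δ : ℝ := ε / (2 * (5 + G)) with hδ
  have hG0 : 0 ≤ G := (norm_nonneg _).trans (hG (y 0 0))
  have hδ0 : 0 < δ := by positivity
  obtain ⟨E, _, _, _, T, X, hLU, lam, hl1, hinv, hmarg, hX, f, hf, ⟨C, hC⟩, hclose⟩ :=
    H ν inferInstance hD (δ ^ 2) (by positivity)
  have hk := ukeyw hWc hWs S hS g hg T X hLU lam hinv hX f hf C hC G hG δ hδ0 hclose ν hmarg (fun k => N (ms k) - 1)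
    (fun k => h (ms k) - 1) (fun k => y (ms k)) ((tendsto_sub_atTop_nat 1).comp (hh.comp hms.tendsto_atTop))
    (fun k => by have := hNh (ms k); omega) _ (fun k => rfl) hconv
  obtain ⟨k, hk⟩ := hk.exists
  have hk := hk (c (ms k)) (hcW (ms k))
  simp only [hh1, hN1] at hk
  have h1 := hbad (ms k)
  have h2 : (0 : ℝ) < h (ms k) := by exact_mod_cast lt_of_lt_of_le (Nat.succ_pos _) (hk1 (ms k))
  have h3 : (0 : ℝ) < N (ms k) := lt_of_lt_of_le h2 (by exact_mod_cast hNh (ms k))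
  have h4 : (5 + G) * δ = ε / 2 := by rw [hδ]; field_simp
  rw [h4] at hk
  have h5 : 0 < ε * h (ms k) * N (ms k) := by positivity
  nlinarith

end

end Pool.Agent.Lib.MP_3e612f_nt.LORT
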