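import Pool.Agent.Lib.MP_3e612f_nt.LO.M.Cor
import Pool.Agent.Lib.MP_3e612f_nt.LO.R.Unif
import Pool.Agent.Lib.MP_3e612f_nt.LO.R.Aff

/-!
Systems all of whose limit measures come from digit systems and affine unipotent maps of compact abelian
groups.
-/

set_option autoImplicit false

namespace Pool.Agent.Lib.MP_3e612f_nt.LORT

open Finset MeasureTheory Filter Topology
open Pool.Agent.Lib.MP_3e612f_nt.PI (mc)
open Pool.Agent.Lib.MP_3e612f_nt.EM
open Pool.Agent.Lib.MP_3e612f_nt.LOM (sh DigX digX_eq DLim)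

/-- there are a joining of `ν` with a `T`-invariant measure concentrated on `D` and a continuous
function of the first coordinate which is `ε`-close to `g` in `L¹` -/
def Near {X Y : Type} [TopologicalSpace X] [MeasurableSpace X] [MeasurableSpace Y] (T : X → X)
    (D : Set X) (S : Y → Y) (ν : Measure Y) (g : Y → ℂ) (ε : ℝ) : Prop :=
  ∃ (lam : Measure (X × Y)) (f : X → ℂ), IsProbabilityMeasure lam ∧
    MeasurePreserving (Prod.map T S) lam lam ∧ lam.map Prod.snd = ν ∧ (∀ᵐ p ∂lam, p.1 ∈ D) ∧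
    Continuous f ∧ ∫ p, ‖g p.2 - f p.1‖ ∂lam ≤ ε

/-- a character of `K` -/
def IsChar {K : Type} [AddCommGroup K] [TopologicalSpace K] (χ : K → ℂ) : Prop :=
  Continuous χ ∧ (∀ z, ‖χ z‖ = 1) ∧ ∀ z w, χ (z + w) = χ z * χ w

/-- The map `z ↦ U z + a` of the compact abelian group `K` is unipotent. -/
def UniA {K : Type} [AddCommGroup K] [TopologicalSpace K] (U : K → K) (a : K) : Prop :=
  Continuous U ∧ (∀ z w, U (z + w) = U z + U w) ∧ (∀ z : K, z ≠ 0 → ∃ χ, IsChar χ ∧ χ z ≠ 1) ∧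
  ∀ χ : K → ℂ, IsChar χ → (∃ D : ℕ, ∀ z, χ ((fun w => U w - w)^[D] z) = 1) ∧
    ((∀ z, χ (U (U z)) * χ z = χ (U z) ^ 2) → (∃ z, χ (U z) ≠ χ z) →
      ∀ n : ℕ, 0 < n → χ (U a) ^ n ≠ χ a ^ n)

theorem isChar_tc {K : Type} [AddCommGroup K] [TopologicalSpace K] {χ : K →+ UnitAddCircle}
    (hχ : Continuous χ) : IsChar fun z => tc (χ z) :=
  ⟨tc_cont.comp hχ, fun _ => tc_norm _, fun z w => by
    show tc (χ (z + w)) = tc (χ z) * tc (χ w)
    rw [map_add, tc_add]⟩

theorem isChar_lift {K : Type} [AddCommGroup K] [TopologicalSpace K] {χ : K → ℂ} (hχ : IsChar χ) :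
    ∃ χ' : K →+ UnitAddCircle, Continuous χ' ∧ ∀ z, χ z = tc (χ' z) := by
  obtain ⟨h1, h2, h3⟩ := hχ
  have hm : ∀ z, χ z ∈ Submonoid.unitSphere ℂ := fun z => mem_sphere_zero_iff_norm.2 (h2 z)
  set e := AddCircle.homeomorphCircle (T := 1) one_ne_zero with he
  have he2 : ∀ c : Circle, AddCircle.toCircle (e.symm c) = c := fun c => by
    have := e.apply_symm_apply c
    rwa [he, AddCircle.homeomorphCircle_apply] at this
  have hinj : Function.Injective (AddCircle.toCircle : UnitAddCircle → Circle) :=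
    AddCircle.injective_toCircle one_ne_zero
  refine ⟨AddMonoidHom.mk' (fun z => e.symm ⟨χ z, hm z⟩) fun z w => hinj ?_,
    e.symm.continuous.comp (h1.subtype_mk hm), fun z => ?_⟩
  · rw [he2, AddCircle.toCircle_add, he2, he2]
    exact Subtype.ext (h3 z w)
  · show χ z = (AddCircle.toCircle (e.symm ⟨χ z, hm z⟩) : ℂ)
    rw [he2]

theorem uniA_aff {K : Type} [AddCommGroup K] [TopologicalSpace K] {U : K → K} {a : K}
    (h : UniA U a) : ∃ U' : K →+ K, (∀ z, U' z = U z) ∧ Continuous U' ∧ CSep K ∧ AffU U' a := by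
  obtain ⟨h1, h2, h3, h4⟩ := h
  refine ⟨AddMonoidHom.mk' U h2, fun _ => rfl, h1, fun z hz => ?_, fun χ hχ => ?_⟩
  · obtain ⟨χ, h5, h6⟩ := h3 z hz
    obtain ⟨χ', h7, h8⟩ := isChar_lift h5
    refine ⟨χ', h7, fun h9 => h6 ?_⟩
    rw [h8, h9, tc_zero]
  · obtain ⟨h5, h6⟩ := h4 _ (isChar_tc hχ)
    refine ⟨?_, fun h7 h8 n hn h9 => ?_⟩
    · obtain ⟨D, hD⟩ := h5
      refine ⟨D, fun z => tc_inj ?_⟩
      rw [tc_zero]
      exact hD z
    · refine h6 (fun z => ?_) ?_ n hn ?_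
      · have h10 : χ (U (U z)) + χ z = χ (U z) + χ (U z) := by
          have h11 : χ (U (U z)) - χ (U z) = χ (U z) - χ z := h7 z
          rw [sub_eq_iff_eq_add] at h11
          rw [h11]
          abel
        show tc (χ (U (U z))) * tc (χ z) = tc (χ (U z)) ^ 2
        rw [← tc_add, h10, tc_add, sq]
      · obtain ⟨z, hz⟩ := h8
        exact ⟨z, fun h10 => hz (tc_inj h10)⟩
      · have h10 : n • χ (U a) = n • χ a := by
          have h11 : n • (χ (U a) - χ a) = 0 := h9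
          rwa [smul_sub, sub_eq_zero] at h11
        show tc (χ (U a)) ^ n = tc (χ a) ^ n
        rw [← tc_nsmul, ← tc_nsmul, h10]

/-- For every `ε` there is a joining of `ν` with an invariant measure of the product of a digit system
and an affine unipotent map of a compact abelian group such that `g` is `ε`-close in `L¹` to a
continuous function on the product. -/
def DigAff {Y : Type} [MeasurableSpace Y] (S : Y → Y) (ν : Measure Y) (g : Y → ℂ) : Prop :=
  ∀ ε : ℝ, 0 < ε → ∃ (q m d : ℕ) (A : Type) (_ : AddCommGroup A) (_ : Finite A)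
    (_ : TopologicalSpace A) (_ : DiscreteTopology A) (_ : MeasurableSpace A) (_ : BorelSpace A)
    (K : Type) (_ : AddCommGroup K) (_ : TopologicalSpace K) (_ : IsTopologicalAddGroup K)
    (_ : CompactSpace K) (_ : MeasurableSpace K) (_ : BorelSpace K) (U : K → K) (a : K),
    2 ≤ q ∧ 1 ≤ m ∧ 1 ≤ d ∧ UniA U a ∧
      Near (Prod.map sh fun z => U z + a) (DigX q m d A ×ˢ (Set.univ : Set K)) S ν g ε

/-- digit systems times affine unipotent maps are locally uniform -/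
theorem digaff_lus {q m d : ℕ} (hq : 2 ≤ q) (hm : 1 ≤ m) (hd : 1 ≤ d) (hMR : LOD.MRp) (A : Type)
    [AddCommGroup A] [Finite A] [TopologicalSpace A] [DiscreteTopology A]
    {K : Type} [AddCommGroup K] [TopologicalSpace K] [CompactSpace K] (hK : CSep K)
    {U : K →+ K} (hU : Continuous U) {a : K} (h : AffU U a) :
    LUSW tw (Prod.map (sh : (ℕ → A) → ℕ → A) fun z : K => U z + a)
      (UXM q m d A ×ˢ (Set.univ : Set K)) :=
  lusw_aff hK hU h (ux_lusw q m d hq hd tw_norm (lmw_tw hq hm hMR) A) fun D _ hγ =>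
    ux_lusw q m d hq hd twD_norm (lmw_twD hq hm D hγ) A

section
variable {Y : Type} [MetricSpace Y] [CompactSpace Y] [MeasurableSpace Y] [BorelSpace Y]

/-- **the general form**: digit systems, affine unipotent maps, uniformly over the linear phases -/
theorem digaff_unif (hMR : LOD.MRp) (S : Y → Y) (hS : Continuous S) (g : Y → ℂ)
    (hg : Continuous g) (F : Set (ℕ → Y))
    (H : ∀ ν : Measure Y, IsProbabilityMeasure ν → DLim S F ν → DigAff S ν g) :
    ∀ ε : ℝ, 0 < ε → ∃ h₀ : ℕ, ∀ h ≥ h₀, ∃ N₀ : ℕ, ∀ N ≥ N₀, ∀ α : ℝ, ∀ y ∈ F,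
      ∑ x ∈ range N, ‖∑ n ∈ range h, mc (x + n) * ev (α * n) * g (S^[n] (y x))‖ ≤ ε * h * N := by
  intro ε hε
  obtain ⟨h₀, H1⟩ := unif_modelsw tw_norm tw_shift S hS g hg F (fun ν hν hD ε hε => by
    obtain ⟨q, m, d, A, _, _, _, _, _, _, K, _, _, _, _, _, _, U, a, h1, h2, h3, hUa, lam, f, h4, h5,
      h6, h7, h8, h9⟩ := H ν hν hD ε hε
    obtain ⟨U', hUU, hU, hK, hUb⟩ := uniA_aff hUa
    have hUU' : U = U' := funext fun z => (hUU z).symm
    subst hUU'
    refine ⟨(ℕ → A) × K, inferInstance, inferInstance, inferInstance,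
      Prod.map sh fun z => U' z + a, UXM q m d A ×ˢ Set.univ,
      digaff_lus h1 h2 h3 hMR A hK hU hUb, lam, h4, h5, h6, ?_, f, h8, ?_, h9⟩
    · rw [← digX_eq]
      exact h7
    · obtain ⟨C, hC⟩ := (isCompact_univ (X := (ℕ → A) × K)).exists_bound_of_continuousOn
        h8.continuousOn
      exact ⟨C, fun x => hC x (Set.mem_univ _)⟩) ε hε
  refine ⟨h₀, fun h hh => ?_⟩
  obtain ⟨N₀, H2⟩ := H1 h hh
  exact ⟨N₀, fun N hN α y hy => H2 N hN (fun x n => mc (x + n) * ev (α * n)) ⟨α, rfl⟩ y hy⟩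

end

end Pool.Agent.Lib.MP_3e612f_nt.LORT
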