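import Pool.Agent.Lib.MP_3e612f_nt.PI.Kat

/-! The character `x ↦ exp (2 π i x)`. -/

set_option autoImplicit false

namespace Pool.Agent.Lib.MP_3e612f_nt.LORT

open Finset
open Pool.Agent.Lib.MP_3e612f_nt.PI (ee mc)

/-- `exp (2 π i x)` -/
noncomputable def ev (x : ℝ) : ℂ := Complex.exp (Complex.I * (2 * Real.pi * x : ℝ))

theorem ev_zero : ev 0 = 1 := by
  unfold ev
  simp

theorem ev_add (x y : ℝ) : ev (x + y) = ev x * ev y := by
  unfold ev
  rw [← Complex.exp_add]
  congr 1
  push_cast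
  ring

theorem ev_sum {κ : Type} (s : Finset κ) (f : κ → ℝ) : ev (∑ j ∈ s, f j) = ∏ j ∈ s, ev (f j) := by
  classical
  induction s using Finset.induction_on with
  | empty => rw [Finset.sum_empty, Finset.prod_empty, ev_zero]
  | insert a s ha ih => rw [Finset.sum_insert ha, Finset.prod_insert ha, ev_add, ih]

theorem norm_ev (x : ℝ) : ‖ev x‖ = 1 := by
  unfold ev
  rw [mul_comm, Complex.norm_exp_ofReal_mul_I]

theorem ev_int (k : ℤ) : ev k = 1 := by
  unfold ev
  have h : Complex.I * (2 * Real.pi * (k : ℝ) : ℝ) = k * (2 * Real.pi * Complex.I) := by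
    push_cast
    ring
  rw [h, Complex.exp_int_mul_two_pi_mul_I]

theorem ev_add_int (x : ℝ) (k : ℤ) : ev (x + k) = ev x := by
  rw [ev_add, ev_int, mul_one]

theorem ev_pow (x : ℝ) (n : ℕ) : ev x ^ n = ev (n * x) := by
  unfold ev
  rw [← Complex.exp_nat_mul]
  congr 1
  push_cast
  ring

theorem conj_ev (x : ℝ) : (starRingEnd ℂ) (ev x) = ev (-x) := by
  unfold ev
  rw [← Complex.exp_conj, map_mul, Complex.conj_I, Complex.conj_ofReal]
  congr 1
  push_cast
  ring

theorem ev_sub_one (x : ℝ) : ‖ev x - 1‖ ≤ 2 * Real.pi * |x| := by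
  unfold ev
  refine Real.norm_exp_I_mul_ofReal_sub_one_le.trans ?_
  rw [Real.norm_eq_abs, abs_mul, abs_of_pos Real.two_pi_pos]

theorem ev_sub (x y : ℝ) : ‖ev x - ev y‖ ≤ 2 * Real.pi * |x - y| := by
  have h : ev x - ev y = ev y * (ev (x - y) - 1) := by
    rw [mul_sub, ← ev_add, mul_one]
    congr 2
    ring
  rw [h, norm_mul, norm_ev, one_mul]
  exact ev_sub_one _

/-- far from the integers -/
theorem ev_far {c θ : ℝ} (hc0 : 0 ≤ c) (h : c ≤ |θ - round θ|) :
    ‖ev θ + 1‖ ≤ 2 * Real.cos (Real.pi * c) := by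
  obtain ⟨x, hx⟩ : ∃ x : ℝ, x = θ - round θ := ⟨_, rfl⟩
  rw [← hx] at h
  have hx2 : |x| ≤ 1 / 2 := by
    rw [hx]
    exact abs_sub_round θ
  have e1 : ev θ = ev x := by
    have : θ = x + (round θ : ℤ) := by
      rw [hx]
      ring
    conv_lhs => rw [this]
    exact ev_add_int _ _
  have e2 : ev x + 1 = Complex.exp ((Real.pi * x : ℝ) * Complex.I) * (2 * Real.cos (Real.pi * x) : ℝ) := by
    have h1 : ev x = Complex.exp ((Real.pi * x : ℝ) * Complex.I) *
        Complex.exp ((Real.pi * x : ℝ) * Complex.I) := by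
      unfold ev
      rw [← Complex.exp_add]
      congr 1
      push_cast
      ring
    have h2 : Complex.exp ((Real.pi * x : ℝ) * Complex.I) *
        Complex.exp (-(Real.pi * x : ℝ) * Complex.I) = 1 := by
      rw [← Complex.exp_add]
      simp
    have h3 : ((2 * Real.cos (Real.pi * x) : ℝ) : ℂ) =
        Complex.exp ((Real.pi * x : ℝ) * Complex.I) +
          Complex.exp (-(Real.pi * x : ℝ) * Complex.I) := by
      push_cast
      rw [Complex.cos]
      ring
    rw [h3, mul_add, ← h1, h2]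
  rw [e1, e2, norm_mul, Complex.norm_exp_ofReal_mul_I, one_mul, Complex.norm_real, Real.norm_eq_abs,
    abs_mul, abs_two]
  have hpi := Real.pi_pos
  have h4 : |Real.cos (Real.pi * x)| = Real.cos (Real.pi * |x|) := by
    have h5 : Real.cos (Real.pi * |x|) = Real.cos (Real.pi * x) := by
      rcases abs_cases x with h6 | h6
      · rw [h6.1]
      · rw [h6.1, mul_neg, Real.cos_neg]
    rw [← h5, abs_of_nonneg]
    refine Real.cos_nonneg_of_mem_Icc ⟨?_, ?_⟩
    · have := abs_nonneg x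
      nlinarith
    · nlinarith
  rw [h4]
  refine mul_le_mul_of_nonneg_left ?_ zero_le_two
  refine Real.cos_le_cos_of_nonneg_of_le_pi (by positivity) ?_ (by nlinarith)
  nlinarith

theorem cos_lt {c : ℝ} (hc0 : 0 < c) (hc : c ≤ 1 / 2) :
    0 ≤ Real.cos (Real.pi * c) ∧ Real.cos (Real.pi * c) < 1 := by
  have hpi := Real.pi_pos
  constructor
  · refine Real.cos_nonneg_of_mem_Icc ⟨?_, ?_⟩
    · nlinarith
    · nlinarith
  · rw [← Real.cos_zero]
    refine Real.cos_lt_cos_of_nonneg_of_le_pi le_rfl ?_ (by positivity)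
    nlinarith

theorem ee_eq_ev {M : ℕ} [NeZero M] (k : ℤ) : ee (k : ZMod M) = ev (k / M) := by
  unfold ee ev
  rw [ZMod.stdAddChar_coe]
  congr 1
  push_cast
  ring

end Pool.Agent.Lib.MP_3e612f_nt.LORT
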