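import Pool.Agent.Lib.MP_3e612f_nt.PI.Kat

/-!
Exponential sums on the cube: phases of bounded degree with values in `ZMod M`, times a product of
unimodular weights which are far from being characters of small order (Bourgain; Green, Roy, Straubing).

PROOF of `bg`. Induction on the degree. The `M`-th power of the sum is a sum over `X : ι → Fin M → Bool`; for
every `u : ι → Bool` the map `flp u`, which flips the constant coordinates `X b` with `u b = true`, is an
involution. For fixed `X`, as a function of `u` the phase is a sum of functions of at most `d - 1` coordinates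
`b` with `X b` constant: the terms for a set `S` of coordinates at which `X` is constant occur `M` times.
-/

set_option autoImplicit false

namespace Pool.Agent.Lib.MP_3e612f_nt.LORT

open Finset
open Pool.Agent.Lib.MP_3e612f_nt.PI (ee mc)

/-- sums of functions of at most `d` coordinates of `J` -/
def Dg {ι : Type} {G : Type} [AddCommGroup G] (J : Finset ι) (d : ℕ) (φ : (ι → Bool) → G) : Prop :=
  φ ∈ AddSubgroup.closure {ψ : (ι → Bool) → G | ∃ S ⊆ J, S.card ≤ d ∧
    ∀ x y, (∀ i ∈ S, x i = y i) → ψ x = ψ y}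

/-- all entries are equal -/
def cst {M : ℕ} (v : Fin M → Bool) : Prop := ∀ j j', v j = v j'

instance {M : ℕ} (v : Fin M → Bool) : Decidable (cst v) := by
  unfold cst
  infer_instance

/-- flipping the constant coordinates -/
def flp {ι : Type} {M : ℕ} (u : ι → Bool) (X : ι → Fin M → Bool) : ι → Fin M → Bool :=
  fun b j => if cst (X b) then xor (X b j) (u b) else X b j

theorem cst_flp {ι : Type} {M : ℕ} (u : ι → Bool) (X : ι → Fin M → Bool) (b : ι) :
    cst (flp u X b) ↔ cst (X b) := by
  by_cases h : cst (X b)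
  · refine iff_of_true (fun j j' => ?_) h
    unfold flp
    rw [if_pos h, if_pos h, h j j']
  · refine iff_of_false (fun h' => h fun j j' => ?_) h
    have h1 := h' j j'
    unfold flp at h1
    rwa [if_neg h, if_neg h] at h1

theorem flp_flp {ι : Type} {M : ℕ} (u : ι → Bool) (X : ι → Fin M → Bool) :
    flp u (flp u X) = X := by
  funext b j
  show (if cst (flp u X b) then xor (flp u X b j) (u b) else flp u X b j) = X b j
  by_cases h : cst (X b)
  · rw [if_pos ((cst_flp u X b).2 h)]
    unfold flp
    rw [if_pos h, Bool.xor_assoc, Bool.xor_self, Bool.xor_false]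
  · rw [if_neg (fun h' => h ((cst_flp u X b).1 h'))]
    unfold flp
    rw [if_neg h]

theorem dg_zero {ι G : Type} [AddCommGroup G] {J : Finset ι} {φ : (ι → Bool) → G} (h : Dg J 0 φ)
    (x y : ι → Bool) : φ x = φ y := by
  unfold Dg at h
  induction h using AddSubgroup.closure_induction with
  | mem ψ hψ =>
    obtain ⟨S, -, h1, h2⟩ := hψ
    have h3 : S = ∅ := Finset.card_eq_zero.1 (Nat.le_zero.1 h1)
    exact h2 x y fun i hi => by
      rw [h3] at hi
      exact absurd hi (notMem_empty i)
  | zero => rfl
  | add f g _ _ hf hg => rw [Pi.add_apply, Pi.add_apply, hf, hg]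
  | neg f _ hf => rw [Pi.neg_apply, Pi.neg_apply, hf]

/-- the phase after averaging over the flips -/
theorem dg_flp {ι : Type} [DecidableEq ι] {M : ℕ} [NeZero M] {J : Finset ι} {d : ℕ}
    {φ : (ι → Bool) → ZMod M} (h : Dg J (d + 1) φ) (X : ι → Fin M → Bool) :
    Dg (J.filter fun b => cst (X b)) d fun u => ∑ j, φ fun b => flp u X b j := by
  unfold Dg at h ⊢
  induction h using AddSubgroup.closure_induction with
  | mem ψ hψ =>
    obtain ⟨S, hS, h1, h2⟩ := hψ
    by_cases h3 : S ⊆ J.filter fun b => cst (X b)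
    · have e : (fun u : ι → Bool => ∑ j, ψ fun b => flp u X b j) = 0 := by
        funext u
        have h4 : ∀ j : Fin M, (ψ fun b => flp u X b j) = ψ fun b => flp u X b 0 := by
          intro j
          refine h2 _ _ fun b hb => ?_
          have h5 := (mem_filter.1 (h3 hb)).2
          exact (cst_flp u X b).2 h5 j 0
        rw [Finset.sum_congr rfl fun j _ => h4 j, Finset.sum_const, card_univ, Fintype.card_fin,
          nsmul_eq_mul, ZMod.natCast_self, zero_mul]
        rfl
      rw [e]
      exact zero_mem _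
    · refine AddSubgroup.subset_closure ⟨S ∩ J.filter fun b => cst (X b), inter_subset_right, ?_, ?_⟩
      · have h4 : (S ∩ J.filter fun b => cst (X b)) ⊂ S := by
          refine Finset.ssubset_iff_subset_ne.2 ⟨inter_subset_left, fun h5 => h3 ?_⟩
          rw [← h5]
          exact inter_subset_right
        have := Finset.card_lt_card h4
        omega
      · intro u u' huu
        refine Finset.sum_congr rfl fun j _ => h2 _ _ fun b hb => ?_
        unfold flp
        by_cases h5 : cst (X b)
        · rw [if_pos h5, if_pos h5, huu b (mem_inter.2 ⟨hb, mem_filter.2 ⟨hS hb, h5⟩⟩)]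
        · rw [if_neg h5, if_neg h5]
  | zero =>
    have e : (fun u : ι → Bool => ∑ j : Fin M, (0 : (ι → Bool) → ZMod M) fun b => flp u X b j) = 0 := by
      funext u
      simp
    rw [e]
    exact zero_mem _
  | add f g _ _ hf hg =>
    have e : (fun u : ι → Bool => ∑ j, (f + g) fun b => flp u X b j) =
        (fun u => ∑ j, f fun b => flp u X b j) + fun u => ∑ j, g fun b => flp u X b j := by
      funext u
      simp [Finset.sum_add_distrib]
    rw [e]
    exact add_mem hf hg
  | neg f _ hf =>
    have e : (fun u : ι → Bool => ∑ j, (-f) fun b => flp u X b j) =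
        - fun u => ∑ j, f fun b => flp u X b j := by
      funext u
      simp
    rw [e]
    exact neg_mem hf

theorem bg_ee_add {M : ℕ} [NeZero M] (x y : ZMod M) : ee (x + y) = ee x * ee y := by
  unfold ee
  exact AddChar.map_add_eq_mul _ _ _

theorem bg_ee_sum {M : ℕ} [NeZero M] {κ : Type} (s : Finset κ) (f : κ → ZMod M) :
    ee (∑ j ∈ s, f j) = ∏ j ∈ s, ee (f j) := by
  classical
  induction s using Finset.induction_on with
  | empty =>
    rw [Finset.sum_empty, Finset.prod_empty]
    unfold ee
    exact AddChar.map_zero_eq_one _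
  | insert a s ha ih => rw [Finset.sum_insert ha, Finset.prod_insert ha, bg_ee_add, ih]

theorem bg_norm_ee {M : ℕ} [NeZero M] (x : ZMod M) : ‖ee x‖ = 1 := PI.Kat_norm_ee x

/-- the number of constant vectors -/
theorem bg_count {M : ℕ} {ρ : ℝ} (hρ : ρ ≤ 1) :
    ∑ v : Fin M → Bool, (if cst v then ρ else 1) ≤ 2 ^ M - 1 + ρ := by
  have h1 : ∑ v : Fin M → Bool, (1 - if cst v then ρ else 1) ≥ 1 - ρ := by
    have h2 := Finset.single_le_sum (f := fun v : Fin M → Bool => (1 - if cst v then ρ else 1))
      (s := univ) (fun v _ => by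
        show 0 ≤ 1 - if cst v then ρ else 1
        split_ifs <;> linarith) (mem_univ fun _ => false)
    have h3 : cst (fun _ : Fin M => false) := fun _ _ => rfl
    simp only [if_pos h3] at h2
    exact h2
  rw [Finset.sum_sub_distrib, Finset.sum_const, card_univ, Fintype.card_fun, Fintype.card_bool,
    Fintype.card_fin, nsmul_eq_mul, mul_one] at h1
  push_cast at h1
  linarith

theorem bg_prod {ι : Type} [Fintype ι] [DecidableEq ι] (J : Finset ι) (c τ : ℝ) :
    ∏ b : ι, (c * if b ∈ J then τ else 1) = c ^ Fintype.card ι * τ ^ J.card := by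
  rw [Finset.prod_mul_distrib, Finset.prod_const, card_univ, Finset.prod_ite_mem, univ_inter,
    Finset.prod_const]

/-- **exponential sums on the cube** -/
theorem bg (M : ℕ) [NeZero M] {κ : ℝ} (hκ0 : 0 ≤ κ) (hκ : κ < 1) (d : ℕ) :
    ∃ ρ : ℝ, 0 ≤ ρ ∧ ρ < 1 ∧ ∀ (ι : Type) [Fintype ι] [DecidableEq ι] (J : Finset ι)
      (φ : (ι → Bool) → ZMod M) (w : ι → Bool → ℂ), Dg J d φ → (∀ b x, ‖w b x‖ ≤ 1) →
      (∀ b ∈ J, ‖w b true ^ M ^ d + w b false ^ M ^ d‖ ≤ 2 * κ) →
      ‖∑ x : ι → Bool, ee (φ x) * ∏ b, w b (x b)‖ ≤ 2 ^ Fintype.card ι * ρ ^ J.card := by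
  induction d with
  | zero =>
    refine ⟨κ, hκ0, hκ, fun ι _ _ J φ w hφ hw hJ => ?_⟩
    have e1 : ∑ x : ι → Bool, ee (φ x) * ∏ b, w b (x b) =
        ee (φ fun _ => false) * ∏ b, ∑ t : Bool, w b t := by
      rw [Finset.prod_univ_sum, Fintype.piFinset_univ, Finset.mul_sum]
      exact Finset.sum_congr rfl fun x _ => by rw [dg_zero hφ x fun _ => false]
    rw [e1, norm_mul, bg_norm_ee, one_mul, norm_prod, ← bg_prod J 2 κ]
    refine Finset.prod_le_prod (fun _ _ => norm_nonneg _) fun b _ => ?_
    rw [Fintype.sum_bool]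
    by_cases hb : b ∈ J
    · have h1 := hJ b hb
      rw [pow_zero, pow_one, pow_one] at h1
      rw [if_pos hb]
      exact h1
    · rw [if_neg hb]
      refine (norm_add_le _ _).trans ?_
      linarith [hw b true, hw b false]
  | succ d ih =>
    obtain ⟨ρ, hρ0, hρ1, H⟩ := ih
    have hM0 : 0 < M := Nat.pos_of_ne_zero (NeZero.ne M)
    have hMr : (0 : ℝ) < M := by exact_mod_cast hM0
    have hMr1 : (1 : ℝ) ≤ M := by exact_mod_cast hM0
    have h2M : (0 : ℝ) < 2 ^ M := by positivity
    have h2M1 : (1 : ℝ) ≤ 2 ^ M := one_le_pow₀ (by norm_num)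
    obtain ⟨τ, hτ⟩ : ∃ τ : ℝ, τ = (2 ^ M - 1 + ρ) / 2 ^ M := ⟨_, rfl⟩
    have hτ0 : 0 ≤ τ := by
      rw [hτ]
      exact div_nonneg (by linarith) h2M.le
    have hτ1 : τ < 1 := by
      rw [hτ, div_lt_one h2M]
      linarith
    have hτM : 2 ^ M * τ = 2 ^ M - 1 + ρ := by
      rw [hτ]
      field_simp
    obtain ⟨σ, hσ⟩ : ∃ σ : ℝ, σ = 1 - (1 - τ) / M := ⟨_, rfl⟩
    have hd1 : (1 - τ) / M ≤ 1 := by
      rw [div_le_one hMr]
      linarith
    have hσ0 : 0 ≤ σ := by
      rw [hσ]
      linarith
    have hσ1 : σ < 1 := by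
      have : 0 < (1 - τ) / M := div_pos (by linarith) hMr
      rw [hσ]
      linarith
    have hτσ : τ ≤ σ ^ M := by
      have h1 := one_add_mul_le_pow (a := -((1 - τ) / M)) (by linarith) M
      have h2 : (1 : ℝ) + M * -((1 - τ) / M) = τ := by
        field_simp
        ring
      rw [h2] at h1
      rw [hσ, sub_eq_add_neg]
      exact h1
    refine ⟨σ, hσ0, hσ1, fun ι _ _ J φ w hφ hw hJ => ?_⟩
    obtain ⟨A, hA⟩ : ∃ A : ℂ, A = ∑ x : ι → Bool, ee (φ x) * ∏ b, w b (x b) := ⟨_, rfl⟩
    rw [← hA]
    set G : (ι → Fin M → Bool) → ℂ := fun X =>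
      ∏ j, (ee (φ fun b => X b j) * ∏ b, w b (X b j)) with hG
    have hpow : A ^ M = ∑ X, G X := by
      rw [hA, Fintype.sum_pow]
      exact Fintype.sum_equiv (Equiv.piComm fun _ _ => Bool) _ _ fun Y => rfl
    have hpow2 : (2 : ℂ) ^ Fintype.card ι * A ^ M = ∑ X, ∑ u : ι → Bool, G (flp u X) := by
      rw [Finset.sum_comm]
      have h1 : ∀ u : ι → Bool, ∑ X, G (flp u X) = A ^ M := by
        intro u
        rw [hpow]
        exact Equiv.sum_comp (Function.Involutive.toPerm (flp u) (flp_flp u)) G
      rw [Finset.sum_congr rfl fun u _ => h1 u, Finset.sum_const, card_univ, Fintype.card_fun,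
        Fintype.card_bool, nsmul_eq_mul]
      push_cast
      rfl
    have hX : ∀ X : ι → Fin M → Bool, ‖∑ u : ι → Bool, G (flp u X)‖ ≤
        2 ^ Fintype.card ι * ρ ^ (J.filter fun b => cst (X b)).card := by
      intro X
      have h1 := H ι (J.filter fun b => cst (X b)) (fun u => ∑ j, φ fun b => flp u X b j)
        (fun b t => ∏ j, w b (if cst (X b) then xor (X b j) t else X b j)) (dg_flp hφ X)
        (fun b t => by
          rw [norm_prod]
          exact Finset.prod_le_one (fun _ _ => norm_nonneg _) fun j _ => hw b _)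
        (by
          intro b hb
          obtain ⟨hbJ, hbc⟩ := mem_filter.1 hb
          have h2 : ∀ t, ∏ j, w b (if cst (X b) then xor (X b j) t else X b j) =
              w b (xor (X b 0) t) ^ M := by
            intro t
            have h3 : ∀ j, w b (if cst (X b) then xor (X b j) t else X b j) =
                w b (xor (X b 0) t) := fun j => by rw [if_pos hbc, hbc j 0]
            rw [Finset.prod_congr rfl fun j _ => h3 j, Finset.prod_const, card_univ,
              Fintype.card_fin]
          simp only [h2]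
          rw [← pow_mul, ← pow_mul, ← pow_succ' M d]
          have h4 := hJ b hbJ
          cases X b 0
          · simpa using h4
          · rw [add_comm] at h4
            simpa using h4)
      refine le_trans (le_of_eq ?_) h1
      congr 1
      refine Finset.sum_congr rfl fun u _ => ?_
      rw [hG]
      simp only
      rw [Finset.prod_mul_distrib, bg_ee_sum, Finset.prod_comm (f := fun j b => w b (flp u X b j))]
      rfl
    have hI : ∀ X : ι → Fin M → Bool, ρ ^ (J.filter fun b => cst (X b)).card =
        ∏ b, if b ∈ J ∧ cst (X b) then ρ else 1 := by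
      intro X
      rw [← Finset.prod_filter, Finset.prod_const]
      congr 2
      ext b
      simp
    have hsum : ‖A‖ ^ M ≤ (2 ^ M) ^ Fintype.card ι * τ ^ J.card := by
      have h1 : (2 : ℝ) ^ Fintype.card ι * ‖A‖ ^ M ≤
          ∑ X : ι → Fin M → Bool, 2 ^ Fintype.card ι * ρ ^ (J.filter fun b => cst (X b)).card := by
        have h2 : (2 : ℝ) ^ Fintype.card ι * ‖A‖ ^ M = ‖(2 : ℂ) ^ Fintype.card ι * A ^ M‖ := by
          rw [norm_mul, norm_pow, norm_pow, Complex.norm_ofNat]
        rw [h2, hpow2]
        exact (norm_sum_le _ _).trans (Finset.sum_le_sum fun X _ => hX X)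
      rw [← Finset.mul_sum] at h1
      have h3 := le_of_mul_le_mul_left h1 (by positivity)
      refine h3.trans ?_
      rw [Finset.sum_congr rfl fun X _ => hI X, ← bg_prod J (2 ^ M) τ]
      have h4 : ∑ X : ι → Fin M → Bool, ∏ b, (if b ∈ J ∧ cst (X b) then ρ else 1) =
          ∏ b : ι, ∑ v : Fin M → Bool, (if b ∈ J ∧ cst v then ρ else 1) := by
        rw [Finset.prod_univ_sum, Fintype.piFinset_univ]
      rw [h4]
      refine Finset.prod_le_prod (fun b _ => Finset.sum_nonneg fun v _ => ?_) fun b _ => ?_
      · split_ifs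
        · exact hρ0
        · exact zero_le_one
      · by_cases hb : b ∈ J
        · simp only [hb, true_and, if_true]
          rw [hτM]
          exact bg_count hρ1.le
        · simp only [hb, false_and, if_false, mul_one]
          rw [Finset.sum_const, card_univ, Fintype.card_fun, Fintype.card_bool, Fintype.card_fin,
            nsmul_eq_mul, mul_one]
          push_cast
          exact le_rfl
    have h5 : (2 ^ M) ^ Fintype.card ι * τ ^ J.card ≤ (2 ^ Fintype.card ι * σ ^ J.card) ^ M := by
      rw [mul_pow, ← pow_mul, ← pow_mul, ← pow_mul, mul_comm M, mul_comm J.card, pow_mul σ]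
      exact mul_le_mul_of_nonneg_left (pow_le_pow_left₀ hτ0 hτσ _) (by positivity)
    exact le_of_pow_le_pow_left₀ hM0.ne' (by positivity) (hsum.trans h5)

end Pool.Agent.Lib.MP_3e612f_nt.LORT
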