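import Pool.Agent.Lib.MP_3e612f_nt.EM.Ph
import Pool.Agent.Lib.MP_3e612f_nt.LO.R.BG

/-!
Windows under shifts at several cells: `m ↦ m + t ∑_{x_b} T q ^ (a b)`. If there is no carry out of the cells
`[a b, a b + l)` then the window modulo `q T` at the position `i` only depends on the `x_b` with `i` in the
cell of `b`; so a phase of degree `≤ d` is a sum of functions of at most `d` of the `x_b`.
-/

set_option autoImplicit false

namespace Pool.Agent.Lib.MP_3e612f_nt.LORT

open Finset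
open Pool.Agent.Lib.MP_3e612f_nt.PI (ee mc)
open Pool.Agent.Lib.MP_3e612f_nt.EM

theorem step_high {q m a l u i : ℕ} (hq : 2 ≤ q) (h : m / q ^ a % q ^ l + u < q ^ l)
    (hi : a + l ≤ i) : (m + u * q ^ a) / q ^ i = m / q ^ i := by
  obtain ⟨e, rfl⟩ := Nat.exists_eq_add_of_le hi
  have hq0 : 0 < q := by omega
  have ha : 0 < q ^ a := Nat.pow_pos hq0
  have hl : 0 < q ^ l := Nat.pow_pos hq0
  have e1 : (m + u * q ^ a) / q ^ a = m / q ^ a + u := by
    rw [mul_comm u, Nat.add_mul_div_left _ _ ha]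
  have e2 : (m / q ^ a + u) / q ^ l = m / q ^ a / q ^ l := by
    have h1 := Nat.div_add_mod (m / q ^ a) (q ^ l)
    have h2 : m / q ^ a + u = q ^ l * (m / q ^ a / q ^ l) + (m / q ^ a % q ^ l + u) := by omega
    rw [h2, Nat.mul_add_div hl, Nat.div_eq_of_lt h, add_zero]
  rw [pow_add, pow_add, ← Nat.div_div_eq_div_mul, ← Nat.div_div_eq_div_mul, e1, e2,
    ← Nat.div_div_eq_div_mul, ← Nat.div_div_eq_div_mul]

theorem step_low {q T m a u i : ℕ} (hq : 2 ≤ q) (hu : T ∣ u) (hi : i < a) :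
    (m + u * q ^ a) / q ^ i % (q * T) = m / q ^ i % (q * T) := by
  obtain ⟨e, rfl⟩ := Nat.exists_eq_add_of_lt hi
  obtain ⟨v, rfl⟩ := hu
  have hq0 : 0 < q := by omega
  have e1 : m + T * v * q ^ (i + e + 1) = m + q ^ i * (q * T * (v * q ^ e)) := by
    rw [pow_add, pow_add, pow_one]
    ring
  rw [e1, Nat.add_mul_div_left _ _ (Nat.pow_pos hq0), Nat.add_mul_mod_self_left]

theorem step_cont {q m a l u a' : ℕ} (hq : 2 ≤ q) (h : m / q ^ a % q ^ l + u < q ^ l)
    (hs : a' + l ≤ a ∨ a + l ≤ a') :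
    (m + u * q ^ a) / q ^ a' % q ^ l = m / q ^ a' % q ^ l := by
  rcases hs with hs | hs
  · obtain ⟨e, rfl⟩ := Nat.exists_eq_add_of_le hs
    have hq0 : 0 < q := by omega
    have e1 : m + u * q ^ (a' + l + e) = m + q ^ a' * (q ^ l * (u * q ^ e)) := by
      rw [pow_add, pow_add]
      ring
    rw [e1, Nat.add_mul_div_left _ _ (Nat.pow_pos hq0), Nat.add_mul_mod_self_left]
  · rw [step_high hq h hs]

section
variable {ι : Type} [DecidableEq ι]

/-- `m` after switching on the cells of `A` -/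
def sw (q T t : ℕ) (a : ι → ℕ) (m : ℕ) (A : Finset ι) : ℕ := m + t * ∑ i ∈ A, T * q ^ a i

theorem sw_insert {q T t : ℕ} {a : ι → ℕ} {m : ℕ} {A : Finset ι} {j : ι} (hj : j ∉ A) :
    sw q T t a m (insert j A) = sw q T t a m A + t * T * q ^ a j := by
  unfold sw
  rw [Finset.sum_insert hj]
  ring

variable {q T t l : ℕ} {a : ι → ℕ} {m : ℕ}

theorem sw_cont (hq : 2 ≤ q) (hsep : ∀ i j, i ≠ j → a i + l ≤ a j ∨ a j + l ≤ a i)
    (hm : ∀ i, m / q ^ a i % q ^ l + t * T < q ^ l) (A : Finset ι) {b : ι} (hb : b ∉ A) :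
    sw q T t a m A / q ^ a b % q ^ l = m / q ^ a b % q ^ l := by
  induction A using Finset.induction_on generalizing b with
  | empty =>
    unfold sw
    simp
  | insert j A hj ih =>
    rw [mem_insert, not_or] at hb
    rw [sw_insert hj, step_cont hq (by rw [ih hj]; exact hm j) (by
      rcases hsep b j hb.1 with h | h
      · exact Or.inl h
      · exact Or.inr h)]
    exact ih hb.2

theorem sw_one (hq : 2 ≤ q) (hsep : ∀ i j, i ≠ j → a i + l ≤ a j ∨ a j + l ≤ a i)
    (hm : ∀ i, m / q ^ a i % q ^ l + t * T < q ^ l) (A : Finset ι) {j : ι} (hj : j ∉ A) {i : ℕ}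
    (hi : ¬ (a j ≤ i ∧ i < a j + l)) :
    sw q T t a m (insert j A) / q ^ i % (q * T) = sw q T t a m A / q ^ i % (q * T) := by
  rw [sw_insert hj]
  rcases Nat.lt_or_ge i (a j) with h | h
  · exact step_low hq (Dvd.intro_left _ rfl) h
  · rw [step_high hq (l := l) (by rw [sw_cont hq hsep hm A hj]; exact hm j) (by omega)]

theorem sw_union (hq : 2 ≤ q) (hsep : ∀ i j, i ≠ j → a i + l ≤ a j ∨ a j + l ≤ a i)
    (hm : ∀ i, m / q ^ a i % q ^ l + t * T < q ^ l) (C : Finset ι) {i : ℕ} (R : Finset ι)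
    (hR : ∀ j ∈ R, ¬ (a j ≤ i ∧ i < a j + l)) (hd : Disjoint C R) :
    sw q T t a m (C ∪ R) / q ^ i % (q * T) = sw q T t a m C / q ^ i % (q * T) := by
  induction R using Finset.induction_on with
  | empty => rw [union_empty]
  | insert j R hj ih =>
    rw [Finset.disjoint_insert_right] at hd
    rw [union_insert, sw_one hq hsep hm (C ∪ R) (by
      rw [mem_union, not_or]
      exact ⟨hd.1, hj⟩) (hR j (mem_insert_self j R))]
    exact ih (fun j' hj' => hR j' (mem_insert_of_mem hj')) hd.2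

/-- the window at `i` only depends on the cells which contain `i` -/
theorem sw_dep (hq : 2 ≤ q) (hsep : ∀ i j, i ≠ j → a i + l ≤ a j ∨ a j + l ≤ a i)
    (hm : ∀ i, m / q ^ a i % q ^ l + t * T < q ^ l) {i : ℕ} (A A' : Finset ι)
    (h : ∀ j, a j ≤ i → i < a j + l → (j ∈ A ↔ j ∈ A')) :
    sw q T t a m A / q ^ i % (q * T) = sw q T t a m A' / q ^ i % (q * T) := by
  classical
  have key : ∀ A : Finset ι, sw q T t a m A / q ^ i % (q * T) =
      sw q T t a m (A.filter fun j => a j ≤ i ∧ i < a j + l) / q ^ i % (q * T) := by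
    intro A
    have h1 := sw_union hq hsep hm (A.filter fun j => a j ≤ i ∧ i < a j + l) (i := i)
      (A.filter fun j => ¬ (a j ≤ i ∧ i < a j + l)) (fun j hj => (mem_filter.1 hj).2)
      (Finset.disjoint_filter_filter_not _ _ _)
    rwa [Finset.filter_union_filter_not_eq] at h1
  rw [key A, key A']
  congr 3
  ext j
  rw [mem_filter, mem_filter]
  constructor
  · rintro ⟨h1, h2⟩
    exact ⟨(h j h2.1 h2.2).1 h1, h2⟩
  · rintro ⟨h1, h2⟩
    exact ⟨(h j h2.1 h2.2).2 h1, h2⟩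

end

section
variable {ι : Type} [Fintype ι] [DecidableEq ι]

/-- the shift -/
def dx (q T : ℕ) (a : ι → ℕ) (x : ι → Bool) : ℕ := ∑ i ∈ univ.filter (fun i => x i = true), T * q ^ a i

variable {q T t l : ℕ} {a : ι → ℕ} {m : ℕ}

theorem dx_win (hq : 2 ≤ q) (hsep : ∀ i j, i ≠ j → a i + l ≤ a j ∨ a j + l ≤ a i)
    (hm : ∀ i, m / q ^ a i % q ^ l + t * T < q ^ l) {i : ℕ} (x x' : ι → Bool)
    (h : ∀ j, a j ≤ i → i < a j + l → x j = x' j) :
    (m + t * dx q T a x) / q ^ i % (q * T) = (m + t * dx q T a x') / q ^ i % (q * T) := by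
  refine sw_dep hq hsep hm (univ.filter fun i => x i = true) (univ.filter fun i => x' i = true) ?_
  intro j h1 h2
  rw [mem_filter, mem_filter, h j h1 h2]

/-- frozen factors away from the cells -/
theorem dx_dep (hq : 2 ≤ q) (hsep : ∀ i j, i ≠ j → a i + l ≤ a j ∨ a j + l ≤ a i)
    (hm : ∀ i, m / q ^ a i % q ^ l + t * T < q ^ l) {I : Finset ℕ} {E : Type} {β : ℕ → E}
    (hβ : DepL q (q * T) I β) (hI : ∀ i ∈ I, ∀ j, ¬ (a j ≤ i ∧ i < a j + l)) (x : ι → Bool) :
    β (m + t * dx q T a x) = β m := by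
  have e : m = m + t * dx q T a (fun _ => false) := by
    unfold dx
    simp
  conv_rhs => rw [e]
  refine hβ _ _ fun i hi => dx_win hq hsep hm x _ fun j h1 h2 => ?_
  exact absurd ⟨h1, h2⟩ (hI i hi j)

/-- phases of degree `≤ d` -/
theorem dx_dg {d L : ℕ} (hq : 2 ≤ q)
    (hsep : ∀ i j, i ≠ j → a i + l ≤ a j ∨ a j + l ≤ a i)
    (hm : ∀ i, m / q ^ a i % q ^ l + t * T < q ^ l) {G : Type} [AddCommGroup G] {f : ℕ → G}
    (hf : IsPL q (q * T) d L f) :
    Dg univ d fun x : ι → Bool => f (m + t * dx q T a x) := by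
  classical
  obtain ⟨τ, hτ, hft⟩ := hf
  have e : (fun x : ι → Bool => f (m + t * dx q T a x)) = ∑ S : Finset (Lt (q * T) L),
      fun x : ι → Bool => if S ⊆ ltr q (q * T) L (m + t * dx q T a x) then τ S else 0 := by
    funext x
    rw [hft, FP_eq, Finset.sum_apply]
  unfold Dg
  rw [e]
  refine sum_mem fun S _ => ?_
  by_cases hS : d < S.card
  · have e2 : (fun x : ι → Bool => if S ⊆ ltr q (q * T) L (m + t * dx q T a x) then τ S else 0) =
        0 := by
      funext x
      rw [hτ S hS, ite_self]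
      rfl
    rw [e2]
    exact zero_mem _
  · refine AddSubgroup.subset_closure ⟨univ.filter fun b => ∃ y ∈ S, a b ≤ (y.1 : ℕ) ∧
      (y.1 : ℕ) < a b + l, subset_univ _, ?_, ?_⟩
    · have h1 : (univ.filter fun b => ∃ y ∈ S, a b ≤ (y.1 : ℕ) ∧ (y.1 : ℕ) < a b + l) ⊆
          S.biUnion fun y => univ.filter fun b => a b ≤ (y.1 : ℕ) ∧ (y.1 : ℕ) < a b + l := by
        intro b hb
        obtain ⟨y, hy, h2⟩ := (mem_filter.1 hb).2
        exact mem_biUnion.2 ⟨y, hy, mem_filter.2 ⟨mem_univ _, h2⟩⟩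
      refine (card_le_card h1).trans ((card_biUnion_le_card_mul _ _ 1 fun y _ => ?_).trans ?_)
      · refine Finset.card_le_one.2 fun b hb b' hb' => ?_
        by_contra hne
        have h2 := (mem_filter.1 hb).2
        have h3 := (mem_filter.1 hb').2
        have h4 := hsep b b' hne
        omega
      · omega
    · intro x x' hxx
      have h2 : S ⊆ ltr q (q * T) L (m + t * dx q T a x) ↔
          S ⊆ ltr q (q * T) L (m + t * dx q T a x') := by
        have h3 : ∀ y ∈ S, (y ∈ ltr q (q * T) L (m + t * dx q T a x) ↔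
            y ∈ ltr q (q * T) L (m + t * dx q T a x')) := by
          intro y hy
          rw [mem_ltr, mem_ltr, dx_win hq hsep hm x x' fun j h4 h5 =>
            hxx j (mem_filter.2 ⟨mem_univ _, y, hy, h4, h5⟩)]
        exact ⟨fun h y hy => (h3 y hy).1 (h hy), fun h y hy => (h3 y hy).2 (h hy)⟩
      simp only [h2]

end

end Pool.Agent.Lib.MP_3e612f_nt.LORT
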