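import Pool.Agent.Lib.MP_3e612f_nt.PI.Words
import Pool.Agent.Lib.MP_3e612f_nt.LO.R.Win
import Pool.Agent.Lib.MP_3e612f_nt.LO.R.Ev
import Pool.Agent.Lib.MP_3e612f_nt.LO.D.Defs

/-!
A linear phase with few very bad positions is, on an interval of length `q ^ K1`, close to a phase of degree
one with values in `ZMod Q` times a frozen factor.

PROOF. `x_i = Q α q ^ i`. As long as the distance `di x_i` to the integers is less than `1 / (2 q)` it is
multiplied by `q` at every step; so the sum of the `di x_i` over the positions `i < K1` without very bad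
positions (and `K1`) in `[i, i + W]` is at most `(number of very bad positions + 1) q ^ (-W) / 2`.
-/

set_option autoImplicit false

namespace Pool.Agent.Lib.MP_3e612f_nt.LORT

open Finset
open Pool.Agent.Lib.MP_3e612f_nt.PI (ee mc Words_hom)
open Pool.Agent.Lib.MP_3e612f_nt.EM

/-- the distance to the integers -/
noncomputable def di (x : ℝ) : ℝ := |x - round x|

theorem di_half (x : ℝ) : di x ≤ 1 / 2 := abs_sub_round x

theorem di_nonneg (x : ℝ) : 0 ≤ di x := abs_nonneg _

theorem di_mul {q : ℕ} (hq : 2 ≤ q) {x : ℝ} (h : di x < 1 / (2 * q)) : di (q * x) = q * di x := by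
  have hq0 : (0 : ℝ) < q := by exact_mod_cast (by omega : 0 < q)
  have h1 : |(q : ℝ) * x - ((q * round x : ℤ) : ℝ)| = q * di x := by
    push_cast
    rw [← mul_sub, abs_mul, abs_of_pos hq0]
    rfl
  have h2 : q * di x < 1 / 2 := by
    rw [lt_div_iff₀ (by positivity)] at h
    linarith
  have h3 : |(q : ℝ) * x - round ((q : ℝ) * x)| ≤ 1 / 2 := abs_sub_round _
  have h4 : round ((q : ℝ) * x) = q * round x := by
    have h5 : |((round ((q : ℝ) * x) - q * round x : ℤ) : ℝ)| < 1 := by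
      have h6 : ((round ((q : ℝ) * x) - q * round x : ℤ) : ℝ) =
          ((q : ℝ) * x - ((q * round x : ℤ) : ℝ)) - ((q : ℝ) * x - round ((q : ℝ) * x)) := by
        push_cast
        ring
      rw [h6]
      refine lt_of_le_of_lt (abs_sub _ _) ?_
      rw [h1]
      linarith
    have h7 : |round ((q : ℝ) * x) - q * round x| < 1 := by exact_mod_cast h5
    rw [Int.abs_lt_one_iff] at h7
    linarith
  unfold di at h1 ⊢
  rw [h4]
  exact h1

theorem di_run {q : ℕ} (hq : 2 ≤ q) {x : ℝ} (k : ℕ)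
    (h : ∀ j < k, di (q ^ j * x) < 1 / (2 * q)) : di (q ^ k * x) = q ^ k * di x := by
  induction k with
  | zero => simp
  | succ k ih =>
    have h1 := ih fun j hj => h j (by omega)
    have h2 := di_mul hq (h k (Nat.lt_succ_self k))
    rw [pow_succ', mul_assoc, h2, h1]
    ring

theorem apx_geo {q : ℕ} (hq : 2 ≤ q) (n : ℕ) : ∑ i ∈ range n, ((1 : ℝ) / q) ^ (n - i) ≤ 1 := by
  have hq0 : (2 : ℝ) ≤ q := by exact_mod_cast hq
  induction n with
  | zero => simp
  | succ n ih =>
    have h1 : ∑ i ∈ range (n + 1), ((1 : ℝ) / q) ^ (n + 1 - i) =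
        (1 / q) * (∑ i ∈ range n, ((1 : ℝ) / q) ^ (n - i) + 1) := by
      rw [Finset.sum_range_succ, mul_add, Finset.mul_sum, mul_one]
      congr 1
      · refine Finset.sum_congr rfl fun i hi => ?_
        rw [← pow_succ']
        congr 1
        have := mem_range.1 hi
        omega
      · rw [Nat.add_sub_cancel_left, pow_one]
    rw [h1]
    have h2 : (1 : ℝ) / q ≤ 1 / 2 := one_div_le_one_div_of_le (by norm_num) hq0
    have h3 : (0 : ℝ) ≤ 1 / q := by positivity
    nlinarith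

/-- the very bad positions -/
noncomputable def vb (q K1 : ℕ) (y : ℝ) : Finset ℕ :=
  (range K1).filter fun i => 1 / (2 * (q : ℝ)) ≤ di (y * q ^ i)

/-- the frozen positions -/
noncomputable def fz (q K1 W : ℕ) (y : ℝ) : Finset ℕ :=
  (range K1).filter fun i => ∃ j ∈ insert K1 (vb q K1 y), i ≤ j ∧ j ≤ i + W

theorem fz_card (q K1 W : ℕ) (y : ℝ) : (fz q K1 W y).card ≤ ((vb q K1 y).card + 1) * (W + 1) := by
  have h1 : fz q K1 W y ⊆ (insert K1 (vb q K1 y)).biUnion fun j => Icc (j - W) j := by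
    intro i hi
    obtain ⟨-, j, hj, h2, h3⟩ := mem_filter.1 hi
    exact mem_biUnion.2 ⟨j, hj, mem_Icc.2 ⟨by omega, h2⟩⟩
  refine (card_le_card h1).trans ((card_biUnion_le_card_mul _ _ (W + 1) fun j _ => ?_).trans ?_)
  · rw [Nat.card_Icc]
    omega
  · exact Nat.mul_le_mul_right _ (card_insert_le _ _)

theorem di_single {q K1 W : ℕ} (hq : 2 ≤ q) {y : ℝ} {i : ℕ}
    (hi : i ∈ (range K1).filter fun i => i ∉ fz q K1 W y) :
    di (y * q ^ i) ≤ ∑ j ∈ (insert K1 (vb q K1 y)).filter fun j => i + W < j,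
      1 / 2 * ((1 : ℝ) / q) ^ (j - i) := by
  classical
  have hq0 : (0 : ℝ) < q := by exact_mod_cast (by omega : 0 < q)
  obtain ⟨h1, h2⟩ := mem_filter.1 hi
  rw [mem_range] at h1
  have hne : ((insert K1 (vb q K1 y)).filter fun j => i ≤ j).Nonempty :=
    ⟨K1, mem_filter.2 ⟨mem_insert_self _ _, h1.le⟩⟩
  obtain ⟨j, hj⟩ : ∃ j, j = ((insert K1 (vb q K1 y)).filter fun j => i ≤ j).min' hne := ⟨_, rfl⟩
  have hjm := Finset.min'_mem _ hne
  rw [← hj] at hjm
  obtain ⟨hjU, hij⟩ := mem_filter.1 hjm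
  have hjK : j ≤ K1 := by
    rcases mem_insert.1 hjU with h3 | h3
    · exact h3.le
    · exact (mem_range.1 (mem_filter.1 h3).1).le
  have hjW : i + W < j := by
    by_contra h3
    exact h2 (mem_filter.2 ⟨mem_range.2 h1, j, hjU, hij, by omega⟩)
  have hgood : ∀ t < j - i, di ((q : ℝ) ^ t * (y * q ^ i)) < 1 / (2 * q) := by
    intro t ht
    by_contra h3
    rw [not_lt] at h3
    have e : (q : ℝ) ^ t * (y * q ^ i) = y * q ^ (i + t) := by
      rw [pow_add]
      ring
    rw [e] at h3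
    have h4 : i + t ∈ (insert K1 (vb q K1 y)).filter fun j => i ≤ j :=
      mem_filter.2 ⟨mem_insert_of_mem (mem_filter.2 ⟨mem_range.2 (by omega), h3⟩), by omega⟩
    have h5 := Finset.min'_le _ _ h4
    rw [← hj] at h5
    omega
  have h3 := di_run hq (j - i) hgood
  have h4 := di_half ((q : ℝ) ^ (j - i) * (y * q ^ i))
  rw [h3] at h4
  have h5 : di (y * q ^ i) ≤ 1 / 2 * ((1 : ℝ) / q) ^ (j - i) := by
    rw [one_div_pow, mul_one_div, le_div_iff₀ (by positivity), mul_comm]
    exact h4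
  refine h5.trans (Finset.single_le_sum (f := fun j => 1 / 2 * ((1 : ℝ) / q) ^ (j - i))
    (fun j _ => by positivity) (mem_filter.2 ⟨hjU, hjW⟩))

/-- the sum of the errors -/
theorem di_sum {q K1 W : ℕ} (hq : 2 ≤ q) (y : ℝ) :
    ∑ i ∈ (range K1).filter (fun i => i ∉ fz q K1 W y), di (y * q ^ i) ≤
      ((vb q K1 y).card + 1) * (1 / 2 * ((1 : ℝ) / q) ^ W) := by
  classical
  refine (Finset.sum_le_sum fun i hi => di_single hq hi).trans ?_
  have e1 : ∀ i, ∑ j ∈ (insert K1 (vb q K1 y)).filter (fun j => i + W < j),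
      1 / 2 * ((1 : ℝ) / q) ^ (j - i) = ∑ j ∈ insert K1 (vb q K1 y),
        if i + W < j then 1 / 2 * ((1 : ℝ) / q) ^ (j - i) else 0 := fun i => Finset.sum_filter _ _
  rw [Finset.sum_congr rfl fun i _ => e1 i, Finset.sum_comm]
  have h1 : ∀ j ∈ insert K1 (vb q K1 y),
      ∑ i ∈ (range K1).filter (fun i => i ∉ fz q K1 W y),
        (if i + W < j then 1 / 2 * ((1 : ℝ) / q) ^ (j - i) else 0) ≤
        1 / 2 * ((1 : ℝ) / q) ^ W := by
    intro j _
    rw [← Finset.sum_filter]
    have h2 : ((range K1).filter (fun i => i ∉ fz q K1 W y)).filter (fun i => i + W < j) ⊆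
        range (j - W) := by
      intro i hi
      have := (mem_filter.1 hi).2
      rw [mem_range]
      omega
    refine (Finset.sum_le_sum_of_subset_of_nonneg h2 fun i _ _ => by positivity).trans ?_
    have h3 : ∀ i ∈ range (j - W), 1 / 2 * ((1 : ℝ) / q) ^ (j - i) =
        (1 / 2 * ((1 : ℝ) / q) ^ W) * ((1 : ℝ) / q) ^ (j - W - i) := by
      intro i hi
      rw [mul_assoc, ← pow_add]
      congr 2
      have := mem_range.1 hi
      omega
    rw [Finset.sum_congr rfl h3, ← Finset.mul_sum]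
    exact mul_le_of_le_one_right (by positivity) (apx_geo hq _)
  refine (Finset.sum_le_card_nsmul _ _ _ h1).trans ?_
  rw [nsmul_eq_mul]
  refine mul_le_mul_of_nonneg_right ?_ (by positivity)
  exact_mod_cast card_insert_le _ _

/-- the digits -/
theorem digits_sum (q K m : ℕ) :
    m = ∑ i ∈ range K, m / q ^ i % q * q ^ i + m / q ^ K * q ^ K := by
  induction K with
  | zero => simp
  | succ K ih =>
    have h1 : m / q ^ K = m / q ^ (K + 1) * q + m / q ^ K % q := by
      have h2 := Nat.div_add_mod (m / q ^ K) q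
      rw [Nat.div_div_eq_div_mul, ← pow_succ] at h2
      rw [mul_comm (m / q ^ (K + 1))]
      exact h2.symm
    rw [Finset.sum_range_succ]
    conv_lhs => rw [ih]
    conv_lhs =>
      enter [2]
      rw [h1]
    ring

/-- **the approximation** -/
theorem apx {q T : ℕ} (hq : 2 ≤ q) (hT : 0 < T) (Q : ℕ) [NeZero Q] {B1 : ℕ} (W K1 : ℕ) (α : ℝ)
    (hV : (vb q K1 (Q * α)).card ≤ B1) (s : ℕ) :
    ∃ G : ℕ → ℂ, Cls q 1 T Q ((B1 + 1) * (W + 1) + 1) K1 G ∧
      ∀ m, s ≤ m → m ≤ s + q ^ K1 →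
        ‖ev (α * m) - G m‖ ≤ Real.pi * (q * ((B1 + 1) * ((1 : ℝ) / q) ^ W)) := by
  classical
  have hq0 : 0 < q := by omega
  have hq0r : (0 : ℝ) < q := by exact_mod_cast hq0
  have hQ0 : (0 : ℝ) < Q := by exact_mod_cast Nat.pos_of_ne_zero (NeZero.ne Q)
  have hQ1 : (1 : ℝ) ≤ Q := by exact_mod_cast Nat.pos_of_ne_zero (NeZero.ne Q)
  have hm0 : 0 < q * T := Nat.mul_pos hq0 hT
  obtain ⟨y, hy⟩ : ∃ y : ℝ, y = Q * α := ⟨_, rfl⟩
  rw [← hy] at hV
  have hyα : ∀ i : ℕ, α * q ^ i = y * q ^ i / Q := by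
    intro i
    rw [hy]
    field_simp
  set I0 := fz q K1 W y with hI0
  set R := (range K1).filter fun i => i ∉ I0 with hR
  have hI0K : I0 ⊆ range K1 := filter_subset _ _
  set f : ℕ → ZMod Q := fun m => ∑ i ∈ R, ((round (y * q ^ i) * (m / q ^ i % q : ℕ) : ℤ) : ZMod Q)
    with hf
  set b : ℕ → ℂ := fun m => if m / q ^ K1 % (q * T) = s / q ^ K1 % (q * T) then
    ev (α * ((s / q ^ K1 : ℕ) * q ^ K1)) else ev (α * ((s / q ^ K1 + 1 : ℕ) * q ^ K1)) with hb
  set β : ℕ → ℂ := fun m => (∏ i ∈ I0, ev (α * ((m / q ^ i % q : ℕ) * q ^ i))) * b m with hβ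
  have hwin : ∀ {n n' i : ℕ}, n / q ^ i % (q * T) = n' / q ^ i % (q * T) →
      n / q ^ i % q = n' / q ^ i % q := by
    intro n n' i h
    rw [← Nat.mod_mod_of_dvd (n / q ^ i) (Dvd.intro T rfl : q ∣ q * T), h,
      Nat.mod_mod_of_dvd _ (Dvd.intro T rfl : q ∣ q * T)]
  have hbn : ∀ m, ‖b m‖ = 1 := by
    intro m
    rw [hb]
    simp only
    split_ifs
    · exact norm_ev _
    · exact norm_ev _
  refine ⟨fun m => β m * ee (f m), ⟨insert K1 I0, β, f, ?_, ?_, ?_, ?_, fun _ => rfl⟩, ?_⟩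
  · have h1 := fz_card q K1 W y
    rw [← hI0] at h1
    have h2 := Nat.mul_le_mul_right (W + 1) (Nat.add_le_add_right hV 1)
    have h3 := card_insert_le K1 I0
    omega
  · intro m
    rw [hβ]
    simp only
    rw [norm_mul, norm_prod, hbn, mul_one, Finset.prod_congr rfl fun i _ => norm_ev _,
      Finset.prod_const_one]
  · intro n n' h
    rw [hβ]
    simp only
    have h1 : b n = b n' := by
      rw [hb]
      simp only
      rw [h K1 (mem_insert_self _ _)]
    rw [h1]
    congr 1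
    refine Finset.prod_congr rfl fun i hi => ?_
    rw [hwin (h i (mem_insert_of_mem hi))]
  · refine IsPL.sum R fun i hi => ?_
    refine isPL_of_dep (P := {i}) (by simp) (fun j hj => ?_) hm0 fun n n' h => ?_
    · rw [mem_singleton.1 hj]
      exact mem_range.1 (mem_filter.1 hi).1
    · rw [hwin (h i (mem_singleton_self i))]
  · intro m hm1 hm2
    -- the top part
    have hbm : b m = ev (α * ((m / q ^ K1 : ℕ) * q ^ K1)) := by
      have hK : 0 < q ^ K1 := Nat.pow_pos hq0
      have h1 : s / q ^ K1 ≤ m / q ^ K1 := Nat.div_le_div_right hm1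
      have h2 : m / q ^ K1 ≤ s / q ^ K1 + 1 := by
        refine (Nat.div_le_div_right hm2).trans (le_of_eq ?_)
        rw [Nat.add_div_right _ hK]
      rw [hb]
      simp only
      rcases Nat.lt_or_ge (s / q ^ K1) (m / q ^ K1) with h3 | h3
      · have h4 : m / q ^ K1 = s / q ^ K1 + 1 := by omega
        rw [if_neg, h4]
        rw [h4]
        intro h5
        have h6 : s / q ^ K1 + 1 ≡ s / q ^ K1 + 0 [MOD q * T] := h5
        have h7 := Nat.ModEq.add_left_cancel' _ h6
        have h8 : 2 ≤ q * T := le_trans hq (Nat.le_mul_of_pos_right q hT)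
        have h9 : 1 % (q * T) = 0 % (q * T) := h7
        rw [Nat.mod_eq_of_lt (by omega), Nat.zero_mod] at h9
        exact one_ne_zero h9
      · have h4 : m / q ^ K1 = s / q ^ K1 := by omega
        rw [if_pos (by rw [h4]), h4]
    have hexp : ev (α * m) = (∏ i ∈ R, ev (α * ((m / q ^ i % q : ℕ) * q ^ i))) *
        ((∏ i ∈ I0, ev (α * ((m / q ^ i % q : ℕ) * q ^ i))) * b m) := by
      have h1 : (m : ℝ) = ∑ i ∈ range K1, ((m / q ^ i % q : ℕ) : ℝ) * q ^ i +
          ((m / q ^ K1 : ℕ) : ℝ) * q ^ K1 := by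
        have := digits_sum q K1 m
        exact_mod_cast this
      have h2 : (range K1).filter (fun i => i ∈ I0) = I0 := by
        ext i
        rw [mem_filter]
        exact ⟨fun h => h.2, fun h => ⟨hI0K h, h⟩⟩
      have h3 := Finset.prod_filter_mul_prod_filter_not (range K1) (fun i => i ∈ I0)
        (fun i => ev (α * ((m / q ^ i % q : ℕ) * q ^ i)))
      rw [h2] at h3
      conv_lhs => rw [h1]
      rw [mul_add, Finset.mul_sum, ev_add, ev_sum, ← h3, hbm]
      ring
    have hee : ee (f m) = ev ((∑ i ∈ R, round (y * q ^ i) * (m / q ^ i % q : ℕ) : ℤ) / Q) := by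
      rw [← ee_eq_ev]
      congr 1
      rw [hf]
      push_cast
      rfl
    have hprod : ∏ i ∈ R, ev (α * ((m / q ^ i % q : ℕ) * q ^ i)) =
        ev (∑ i ∈ R, α * ((m / q ^ i % q : ℕ) * q ^ i)) := (ev_sum _ _).symm
    have e1 : ev (α * m) - β m * ee (f m) = (β m) *
        (ev (∑ i ∈ R, α * ((m / q ^ i % q : ℕ) * q ^ i)) -
          ev ((∑ i ∈ R, round (y * q ^ i) * (m / q ^ i % q : ℕ) : ℤ) / Q)) := by
      rw [hexp, hee, hprod, hβ]
      ring
    have hβn : ‖β m‖ = 1 := by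
      rw [hβ]
      simp only
      rw [norm_mul, norm_prod, hbn, mul_one, Finset.prod_congr rfl fun i _ => norm_ev _,
        Finset.prod_const_one]
    show ‖ev (α * m) - β m * ee (f m)‖ ≤ _
    rw [e1, norm_mul, hβn, one_mul]
    refine (ev_sub _ _).trans ?_
    have e2 : ∑ i ∈ R, α * (((m / q ^ i % q : ℕ) : ℝ) * q ^ i) -
        ((∑ i ∈ R, round (y * q ^ i) * (m / q ^ i % q : ℕ) : ℤ) : ℝ) / Q =
        ∑ i ∈ R, (y * q ^ i - round (y * q ^ i)) * ((m / q ^ i % q : ℕ) / Q) := by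
      simp only [Int.cast_sum, Int.cast_mul, Int.cast_natCast]
      rw [Finset.sum_div, ← Finset.sum_sub_distrib]
      refine Finset.sum_congr rfl fun i _ => ?_
      have : α * (((m / q ^ i % q : ℕ) : ℝ) * q ^ i) = (α * q ^ i) * ((m / q ^ i % q : ℕ) : ℝ) := by
        ring
      rw [this, hyα i]
      ring
    rw [e2]
    have h3 : |∑ i ∈ R, (y * q ^ i - round (y * q ^ i)) * (((m / q ^ i % q : ℕ) : ℝ) / Q)| ≤
        q * ((B1 + 1) * (1 / 2 * ((1 : ℝ) / q) ^ W)) := by
      refine (Finset.abs_sum_le_sum_abs _ _).trans ?_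
      have h4 : ∀ i ∈ R, |(y * q ^ i - round (y * q ^ i)) * (((m / q ^ i % q : ℕ) : ℝ) / Q)| ≤
          q * di (y * q ^ i) := by
        intro i _
        rw [abs_mul]
        have h5 : |((m / q ^ i % q : ℕ) : ℝ) / Q| ≤ q := by
          rw [abs_of_nonneg (by positivity), div_le_iff₀ hQ0]
          have h6 : ((m / q ^ i % q : ℕ) : ℝ) ≤ q := by
            exact_mod_cast (Nat.mod_lt _ hq0).le
          nlinarith
        rw [mul_comm]
        exact mul_le_mul h5 le_rfl (abs_nonneg _) hq0r.le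
      refine (Finset.sum_le_sum h4).trans ?_
      rw [← Finset.mul_sum]
      refine mul_le_mul_of_nonneg_left ((di_sum (W := W) (K1 := K1) hq y).trans ?_) hq0r.le
      refine mul_le_mul_of_nonneg_right ?_ (by positivity)
      have : ((vb q K1 y).card : ℝ) ≤ B1 := by exact_mod_cast hV
      linarith
    calc 2 * Real.pi * _ ≤ 2 * Real.pi * (q * ((B1 + 1) * (1 / 2 * ((1 : ℝ) / q) ^ W))) :=
          mul_le_mul_of_nonneg_left h3 (by positivity)
      _ = _ := by ring

/-- products of functions of the classes -/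
theorem cls_mul {q d T M Q B B' L L' : ℕ} [NeZero M] [NeZero Q] [NeZero (M * Q)] {F G : ℕ → ℂ}
    (hF : Cls q d T M B L F) (hG : Cls q 1 T Q B' L' G) :
    Cls q (max d 1) T (M * Q) (B + B') (max L L') fun n => F n * G n := by
  classical
  obtain ⟨I, β, f, h1, h2, h3, h4, h5⟩ := hF
  obtain ⟨I', β', f', h1', h2', h3', h4', h5'⟩ := hG
  obtain ⟨ψ, hψ⟩ := Words_hom M Q (M * Q) rfl
  obtain ⟨χ, hχ⟩ := Words_hom Q M (M * Q) (mul_comm _ _)
  refine ⟨I ∪ I', fun n => β n * β' n, fun n => ψ (f n) + χ (f' n),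
    (card_union_le _ _).trans (add_le_add h1 h1'), fun n => ?_, fun n n' h => ?_, ?_, fun n => ?_⟩
  · rw [norm_mul]
    calc _ ≤ (1 : ℝ) * 1 := mul_le_mul (h2 n) (h2' n) (norm_nonneg _) zero_le_one
      _ = 1 := one_mul _
  · simp only
    rw [h3 n n' fun i hi => h i (mem_union_left _ hi), h3' n n' fun i hi => h i (mem_union_right _ hi)]
  · exact ((h4.map ψ).mono_L (le_max_left _ _)).mono_d (le_max_left _ _) |>.add
      (((h4'.map χ).mono_L (le_max_right _ _)).mono_d (le_max_right _ _))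
  · simp only
    rw [h5, h5', bg_ee_add, hψ, hχ]
    ring

end Pool.Agent.Lib.MP_3e612f_nt.LORT
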