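import Pool.Agent.Lib.MP_3e612f_nt.LO.R.Win
import Pool.Agent.Lib.MP_3e612f_nt.LO.R.Ev

/-!
Pair correlations twisted by a linear phase with many very bad positions are small, for all functions of
the class: average over the shifts of `k` cells, and `bg`.
-/

set_option autoImplicit false

namespace Pool.Agent.Lib.MP_3e612f_nt.LORT

open Finset
open Pool.Agent.Lib.MP_3e612f_nt.PI (ee mc)
open Pool.Agent.Lib.MP_3e612f_nt.EM

/-- separated elements of a finite set -/
theorem space {l : ℕ} (hl : 0 < l) (k : ℕ) (V : Finset ℕ) (hV : k * l ≤ V.card) :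
    ∃ a : Fin k → ℕ, (∀ i, a i ∈ V) ∧ ∀ i j, i ≠ j → a i + l ≤ a j ∨ a j + l ≤ a i := by
  induction k generalizing V with
  | zero => exact ⟨fun i => i.elim0, fun i => i.elim0, fun i => i.elim0⟩
  | succ k ih =>
    have hne : V.Nonempty := by
      rw [← Finset.card_pos]
      have : 0 < (k + 1) * l := Nat.mul_pos (Nat.succ_pos k) hl
      omega
    set a0 := V.min' hne with ha0
    have h1 : V.card ≤ (V.filter fun v => a0 + l ≤ v).card + l := by
      rw [← Finset.card_filter_add_card_filter_not (s := V) (fun v => a0 + l ≤ v)]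
      have h2 : (V.filter fun v => ¬ a0 + l ≤ v) ⊆ Ico a0 (a0 + l) := by
        intro v hv
        obtain ⟨h3, h4⟩ := mem_filter.1 hv
        have h5 : a0 ≤ v := Finset.min'_le V v h3
        rw [mem_Ico]
        omega
      have h3 := card_le_card h2
      rw [Nat.card_Ico] at h3
      omega
    obtain ⟨a', h2, h3⟩ := ih (V.filter fun v => a0 + l ≤ v) (by
      have : (k + 1) * l = k * l + l := by ring
      omega)
    refine ⟨Fin.cons a0 a', fun i => ?_, fun i j hij => ?_⟩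
    · refine Fin.cases ?_ (fun i => ?_) i
      · rw [Fin.cons_zero]
        exact Finset.min'_mem V hne
      · rw [Fin.cons_succ]
        exact (mem_filter.1 (h2 i)).1
    · revert hij
      refine Fin.cases ?_ (fun i => ?_) i
      · refine Fin.cases (fun h => absurd rfl h) (fun j _ => ?_) j
        rw [Fin.cons_zero, Fin.cons_succ]
        exact Or.inl (mem_filter.1 (h2 j)).2
      · refine Fin.cases (fun _ => ?_) (fun j hij => ?_) j
        · rw [Fin.cons_zero, Fin.cons_succ]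
          exact Or.inr (mem_filter.1 (h2 i)).2
        · rw [Fin.cons_succ, Fin.cons_succ]
          exact h3 i j fun h => hij (congrArg Fin.succ h)

/-- the numbers with a carry out of a cell -/
theorem cnt_bad {p Q : ℕ} (hp : p.Coprime Q) (hQ : 0 < Q) (s u N : ℕ) :
    ((Icc 1 N).filter fun n => Q ≤ (p * n + s) % Q + u).card ≤ (N / Q + 1) * u := by
  classical
  have h1 : ((Icc 1 N).filter fun n => Q ≤ (p * n + s) % Q + u) ⊆
      (Ico (Q - u) Q).biUnion fun r => (Icc 1 N).filter fun n => (p * n + s) % Q = r := by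
    intro n hn
    obtain ⟨h2, h3⟩ := mem_filter.1 hn
    have h4 : (p * n + s) % Q < Q := Nat.mod_lt _ hQ
    exact mem_biUnion.2 ⟨(p * n + s) % Q, mem_Ico.2 ⟨by omega, h4⟩, mem_filter.2 ⟨h2, rfl⟩⟩
  refine (card_le_card h1).trans ((card_biUnion_le_card_mul _ _ (N / Q + 1) fun r _ => ?_).trans ?_)
  · have h2 : ((Icc 1 N).filter fun n => (p * n + s) % Q = r).card ≤ (range (N / Q + 1)).card := by
      refine Finset.card_le_card_of_injOn (fun n => n / Q) ?_ ?_
      · intro n hn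
        rw [mem_coe, mem_filter, mem_Icc] at hn
        rw [mem_coe, mem_range]
        exact Nat.lt_succ_of_le (Nat.div_le_div_right hn.1.2)
      · intro n hn n' hn' hnn
        rw [mem_coe, mem_filter] at hn hn'
        have h3 : p * n + s ≡ p * n' + s [MOD Q] := by
          show (p * n + s) % Q = (p * n' + s) % Q
          rw [hn.2, hn'.2]
        have h4 : n ≡ n' [MOD Q] := Nat.ModEq.cancel_left_of_coprime
          (Nat.Coprime.symm hp) (Nat.ModEq.add_right_cancel' s h3)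
        have h5 : n / Q = n' / Q := hnn
        rw [← Nat.div_add_mod n Q, ← Nat.div_add_mod n' Q, h5, show n % Q = n' % Q from h4]
    rwa [card_range] at h2
  · rw [Nat.card_Ico, mul_comm]
    exact Nat.mul_le_mul_left _ (by omega)

theorem cont_bad {q m a l u : ℕ} (h : ¬ (m / q ^ a % q ^ l + u < q ^ l)) :
    q ^ (a + l) ≤ m % q ^ (a + l) + u * q ^ a := by
  have h1 : m / q ^ a % q ^ l = m % q ^ (a + l) / q ^ a := by
    rw [pow_add, Nat.mod_mul_right_div_self]
  have h2 : q ^ a * (m % q ^ (a + l) / q ^ a) ≤ m % q ^ (a + l) := Nat.mul_div_le _ _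
  rw [h1, not_lt] at h
  have h3 := Nat.mul_le_mul_left (q ^ a) h
  rw [← pow_add, mul_add] at h3
  have h4 : u * q ^ a = q ^ a * u := mul_comm _ _
  omega

theorem shift_diff (Ψ : ℕ → ℂ) (hΨ : ∀ n, ‖Ψ n‖ ≤ 1) (N D : ℕ) :
    ‖∑ n ∈ Icc 1 N, Ψ n - ∑ n ∈ Icc 1 N, Ψ (n + D)‖ ≤ 2 * D := by
  have e : ∀ g : ℕ → ℂ, ∑ n ∈ Icc 1 N, g n = ∑ n ∈ range N, g (n + 1) := by
    intro g
    rw [Finset.range_eq_Ico, Finset.sum_Ico_add' g 0 N 1, zero_add]
    rfl
  have hk : ∀ u : ℕ → ℂ, (∀ n, ‖u n‖ ≤ 1) → ‖∑ n ∈ range D, u n‖ ≤ D := by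
    intro u hu
    refine (norm_sum_le _ _).trans ((Finset.sum_le_card_nsmul _ _ 1 fun n _ => hu n).trans ?_)
    rw [card_range, nsmul_eq_mul, mul_one]
  rw [e, e]
  have e1 : ∑ n ∈ range (N + D), Ψ (n + 1) = ∑ n ∈ range N, Ψ (n + 1) +
      ∑ i ∈ range D, Ψ (N + i + 1) := Finset.sum_range_add _ _ _
  have e2 : ∑ n ∈ range (D + N), Ψ (n + 1) = ∑ n ∈ range D, Ψ (n + 1) +
      ∑ i ∈ range N, Ψ (D + i + 1) := Finset.sum_range_add _ _ _
  have e3 : ∑ i ∈ range N, Ψ (D + i + 1) = ∑ n ∈ range N, Ψ (n + 1 + D) :=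
    Finset.sum_congr rfl fun n _ => by
      congr 1
      omega
  rw [add_comm D N, e1, e3] at e2
  have e4 : ∑ n ∈ range N, Ψ (n + 1) - ∑ n ∈ range N, Ψ (n + 1 + D) =
      ∑ n ∈ range D, Ψ (n + 1) - ∑ i ∈ range D, Ψ (N + i + 1) := by
    linear_combination e2
  rw [e4]
  refine (norm_sub_le _ _).trans ?_
  linarith [hk (fun n => Ψ (n + 1)) fun n => hΨ _, hk (fun i => Ψ (N + i + 1)) fun n => hΨ _]

/-- the correlation sum, given the cells -/
theorem corr_cells {q d T M L L' k l : ℕ} [NeZero M] (hq : 2 ≤ q) {p r : ℕ} (hp : p.Coprime q)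
    (hr : r.Coprime q) {κ ρ : ℝ} (hρ0 : 0 ≤ ρ)
    (hbg : ∀ (φ : (Fin k → Bool) → ZMod M) (w : Fin k → Bool → ℂ), Dg univ d φ →
      (∀ b x, ‖w b x‖ ≤ 1) → (∀ b, ‖w b true ^ M ^ d + w b false ^ M ^ d‖ ≤ 2 * κ) →
      ‖∑ x : Fin k → Bool, ee (φ x) * ∏ b, w b (x b)‖ ≤ 2 ^ k * ρ ^ k)
    (a : Fin k → ℕ) (hsep : ∀ i j, i ≠ j → a i + l ≤ a j ∨ a j + l ≤ a i) (γ : ℝ)
    (hγ : ∀ b, ‖ev (γ * T * q ^ a b) ^ M ^ d + 1‖ ≤ 2 * κ)
    {I I' : Finset ℕ} {β β' : ℕ → ℂ} {f f' : ℕ → ZMod M} (hβ1 : ∀ n, ‖β n‖ ≤ 1)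
    (hβ1' : ∀ n, ‖β' n‖ ≤ 1) (hβ : DepL q (q * T) I β) (hβ' : DepL q (q * T) I' β')
    (hI : ∀ i ∈ I, ∀ j, ¬ (a j ≤ i ∧ i < a j + l)) (hI' : ∀ i ∈ I', ∀ j, ¬ (a j ≤ i ∧ i < a j + l))
    (hf : IsPL q (q * T) d L f) (hf' : IsPL q (q * T) d L' f') (s s' N : ℕ) :
    ‖∑ n ∈ Icc 1 N, β (p * n + s) * ee (f (p * n + s)) * (β' (r * n + s') * ee (f' (r * n + s'))) *
      ev (γ * n)‖ ≤ ρ ^ k * N + ∑ b, (((N / q ^ (a b + l) + 1) * (p * T * q ^ a b) +
        (N / q ^ (a b + l) + 1) * (r * T * q ^ a b) : ℕ) : ℝ) + 2 * ∑ b, (T * q ^ a b : ℝ) := by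
  classical
  have hq0 : 0 < q := by omega
  set Ψ : ℕ → ℂ := fun n => β (p * n + s) * ee (f (p * n + s)) *
    (β' (r * n + s') * ee (f' (r * n + s'))) * ev (γ * n) with hΨ
  have hΨ1 : ∀ n, ‖Ψ n‖ ≤ 1 := by
    intro n
    rw [hΨ]
    simp only [norm_mul, bg_norm_ee, norm_ev, mul_one]
    calc _ ≤ (1 : ℝ) * 1 := mul_le_mul (hβ1 _) (hβ1' _) (norm_nonneg _) zero_le_one
      _ = 1 := one_mul _
  set D : ℕ := ∑ b, T * q ^ a b with hD
  have hdx : ∀ x : Fin k → Bool, dx q T a x ≤ D := fun x =>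
    Finset.sum_le_sum_of_subset (filter_subset _ _)
  -- the good numbers
  set good : ℕ → Prop := fun n => (∀ b, (p * n + s) / q ^ a b % q ^ l + p * T < q ^ l) ∧
    ∀ b, (r * n + s') / q ^ a b % q ^ l + r * T < q ^ l with hgood
  have hgoodb : ∀ n, good n → ‖∑ x : Fin k → Bool, Ψ (n + dx q T a x)‖ ≤ 2 ^ k * ρ ^ k := by
    intro n hn
    have h1 := dx_dg hq hsep hn.1 hf
    have h2 := dx_dg hq hsep hn.2 hf'
    have h3 := hbg ((fun x => f (p * n + s + p * dx q T a x)) +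
      fun x => f' (r * n + s' + r * dx q T a x)) (fun b t => if t = true then
        ev (γ * T * q ^ a b) else 1) (add_mem h1 h2)
      (fun b t => by
        split_ifs
        · exact (norm_ev _).le
        · exact norm_one.le)
      (fun b => by
        simpa using hγ b)
    have e1 : ∑ x : Fin k → Bool, Ψ (n + dx q T a x) =
        (β (p * n + s) * β' (r * n + s') * ev (γ * n)) *
        ∑ x : Fin k → Bool, ee (((fun x => f (p * n + s + p * dx q T a x)) +
          fun x => f' (r * n + s' + r * dx q T a x)) x) *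
          ∏ b, (if x b = true then ev (γ * T * q ^ a b) else 1) := by
      rw [Finset.mul_sum]
      refine Finset.sum_congr rfl fun x _ => ?_
      rw [hΨ]
      simp only
      have e2 : p * (n + dx q T a x) + s = p * n + s + p * dx q T a x := by ring
      have e3 : r * (n + dx q T a x) + s' = r * n + s' + r * dx q T a x := by ring
      have e4 : ev (γ * ((n + dx q T a x : ℕ) : ℝ)) = ev (γ * n) *
          ∏ b, (if x b = true then ev (γ * T * q ^ a b) else 1) := by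
        rw [← Finset.prod_filter, ← ev_sum, ← ev_add]
        congr 1
        unfold dx
        push_cast
        rw [mul_add, Finset.mul_sum]
        congr 1
        exact Finset.sum_congr rfl fun b _ => by ring
      rw [e2, e3, e4, dx_dep hq hsep hn.1 hβ hI x, dx_dep hq hsep hn.2 hβ' hI' x, Pi.add_apply,
        bg_ee_add]
      ring
    rw [e1, norm_mul]
    refine le_trans (mul_le_of_le_one_left (norm_nonneg _) ?_) h3
    rw [norm_mul, norm_mul, norm_ev, mul_one]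
    calc _ ≤ (1 : ℝ) * 1 := mul_le_mul (hβ1 _) (hβ1' _) (norm_nonneg _) zero_le_one
      _ = 1 := one_mul _
  have hallb : ∀ n, ‖∑ x : Fin k → Bool, Ψ (n + dx q T a x)‖ ≤ 2 ^ k := by
    intro n
    refine (norm_sum_le _ _).trans ((Finset.sum_le_card_nsmul _ _ 1 fun x _ => hΨ1 _).trans ?_)
    rw [card_univ, Fintype.card_fun, Fintype.card_bool, Fintype.card_fin, nsmul_eq_mul, mul_one]
    push_cast
    exact le_rfl
  -- the number of bad numbers
  have hbad : ((Icc 1 N).filter fun n => ¬ good n).card ≤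
      ∑ b, ((N / q ^ (a b + l) + 1) * (p * T * q ^ a b) +
        (N / q ^ (a b + l) + 1) * (r * T * q ^ a b)) := by
    have h1 : ((Icc 1 N).filter fun n => ¬ good n) ⊆ (univ : Finset (Fin k)).biUnion fun b =>
        ((Icc 1 N).filter fun n => q ^ (a b + l) ≤ (p * n + s) % q ^ (a b + l) + p * T * q ^ a b) ∪
        (Icc 1 N).filter fun n => q ^ (a b + l) ≤ (r * n + s') % q ^ (a b + l) + r * T * q ^ a b := by
      intro n hn
      obtain ⟨h2, h3⟩ := mem_filter.1 hn
      rw [hgood] at h3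
      simp only at h3
      rw [not_and_or, not_forall, not_forall] at h3
      rcases h3 with ⟨b, h3⟩ | ⟨b, h3⟩
      · exact mem_biUnion.2 ⟨b, mem_univ _, mem_union_left _ (mem_filter.2 ⟨h2, cont_bad h3⟩)⟩
      · exact mem_biUnion.2 ⟨b, mem_univ _, mem_union_right _ (mem_filter.2 ⟨h2, cont_bad h3⟩)⟩
    refine (card_le_card h1).trans (card_biUnion_le.trans (Finset.sum_le_sum fun b _ => ?_))
    refine (card_union_le _ _).trans (add_le_add ?_ ?_)
    · exact cnt_bad (hp.pow_right _) (Nat.pow_pos hq0) _ _ _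
    · exact cnt_bad (hr.pow_right _) (Nat.pow_pos hq0) _ _ _
  have hmain : (2 : ℝ) ^ k * ‖∑ n ∈ Icc 1 N, Ψ n‖ ≤ 2 ^ k * (ρ ^ k * N +
      (∑ b, ((N / q ^ (a b + l) + 1) * (p * T * q ^ a b) +
        (N / q ^ (a b + l) + 1) * (r * T * q ^ a b)) : ℕ) + 2 * D) := by
    have h1 : ‖∑ x : Fin k → Bool, ∑ n ∈ Icc 1 N, Ψ (n + dx q T a x)‖ ≤
        2 ^ k * (ρ ^ k * N + (∑ b, ((N / q ^ (a b + l) + 1) * (p * T * q ^ a b) +
        (N / q ^ (a b + l) + 1) * (r * T * q ^ a b)) : ℕ)) := by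
      rw [Finset.sum_comm]
      refine (norm_sum_le _ _).trans ?_
      have h2 : ∀ n ∈ Icc 1 N, ‖∑ x : Fin k → Bool, Ψ (n + dx q T a x)‖ ≤
          2 ^ k * ρ ^ k + if ¬ good n then 2 ^ k else 0 := by
        intro n _
        by_cases hn : good n
        · rw [if_neg (not_not.2 hn), add_zero]
          exact hgoodb n hn
        · rw [if_pos hn]
          have := hallb n
          have : 0 ≤ 2 ^ k * ρ ^ k := by positivity
          linarith
      refine (Finset.sum_le_sum h2).trans ?_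
      rw [Finset.sum_add_distrib, Finset.sum_const, Nat.card_Icc, Nat.add_sub_cancel, nsmul_eq_mul,
        ← Finset.sum_filter, Finset.sum_const, nsmul_eq_mul, mul_add]
      refine add_le_add (le_of_eq (by ring)) ?_
      rw [mul_comm]
      exact mul_le_mul_of_nonneg_left (by exact_mod_cast hbad) (by positivity)
    have h3 : (2 : ℝ) ^ k * ‖∑ n ∈ Icc 1 N, Ψ n‖ ≤
        ‖∑ x : Fin k → Bool, ∑ n ∈ Icc 1 N, Ψ (n + dx q T a x)‖ + 2 ^ k * (2 * D) := by
      have h4 : (2 : ℂ) ^ k * ∑ n ∈ Icc 1 N, Ψ n =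
          ∑ x : Fin k → Bool, ∑ n ∈ Icc 1 N, Ψ (n + dx q T a x) +
          ∑ x : Fin k → Bool, (∑ n ∈ Icc 1 N, Ψ n - ∑ n ∈ Icc 1 N, Ψ (n + dx q T a x)) := by
        rw [Finset.sum_sub_distrib, Finset.sum_const, card_univ, Fintype.card_fun,
          Fintype.card_bool, Fintype.card_fin, nsmul_eq_mul]
        push_cast
        ring
      have h5 : (2 : ℝ) ^ k * ‖∑ n ∈ Icc 1 N, Ψ n‖ = ‖(2 : ℂ) ^ k * ∑ n ∈ Icc 1 N, Ψ n‖ := by
        rw [norm_mul, norm_pow, Complex.norm_ofNat]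
      rw [h5, h4]
      refine (norm_add_le _ _).trans (add_le_add le_rfl ((norm_sum_le _ _).trans ?_))
      have h6 : ∀ x ∈ (univ : Finset (Fin k → Bool)),
          ‖∑ n ∈ Icc 1 N, Ψ n - ∑ n ∈ Icc 1 N, Ψ (n + dx q T a x)‖ ≤ 2 * D := by
        intro x _
        refine (shift_diff Ψ hΨ1 N (dx q T a x)).trans ?_
        have : ((dx q T a x : ℕ) : ℝ) ≤ (D : ℕ) := by exact_mod_cast hdx x
        linarith
      refine (Finset.sum_le_card_nsmul _ _ _ h6).trans ?_
      rw [card_univ, Fintype.card_fun, Fintype.card_bool, Fintype.card_fin, nsmul_eq_mul]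
      push_cast
      exact le_rfl
    calc _ ≤ _ := h3
      _ ≤ _ := add_le_add h1 le_rfl
      _ = _ := by ring
  have h7 := le_of_mul_le_mul_left hmain (by positivity)
  refine h7.trans (le_of_eq ?_)
  rw [hD]
  push_cast
  ring

end Pool.Agent.Lib.MP_3e612f_nt.LORT
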