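import Pool.Agent.Lib.MP_3e612f_nt.LO.R.CorrT

/-!
Correlations of a finite family of functions of the class at different shifts, twisted by a linear phase
with many very bad positions; family version of `Corr.lean` and `CorrT.lean`.
-/

set_option autoImplicit false

namespace Pool.Agent.Lib.MP_3e612f_nt.LORT

open Finset
open Pool.Agent.Lib.MP_3e612f_nt.PI (ee mc)
open Pool.Agent.Lib.MP_3e612f_nt.EM

theorem prod_le_one' {κ : Type} [Fintype κ] (z : κ → ℂ) (h : ∀ i, ‖z i‖ ≤ 1) : ‖∏ i, z i‖ ≤ 1 := by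
  rw [norm_prod]
  exact Finset.prod_le_one (fun _ _ => norm_nonneg _) fun i _ => h i

/-- the correlation sum, given the cells -/
theorem corr_cellsF {κ' : Type} [Fintype κ'] {q d T M k l : ℕ} {L : κ' → ℕ} [NeZero M] (hq : 2 ≤ q)
    {p : κ' → ℕ} (hp : ∀ i, (p i).Coprime q) {κ ρ : ℝ} (hρ0 : 0 ≤ ρ)
    (hbg : ∀ (φ : (Fin k → Bool) → ZMod M) (w : Fin k → Bool → ℂ), Dg univ d φ →
      (∀ b x, ‖w b x‖ ≤ 1) → (∀ b, ‖w b true ^ M ^ d + w b false ^ M ^ d‖ ≤ 2 * κ) →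
      ‖∑ x : Fin k → Bool, ee (φ x) * ∏ b, w b (x b)‖ ≤ 2 ^ k * ρ ^ k)
    (a : Fin k → ℕ) (hsep : ∀ i j, i ≠ j → a i + l ≤ a j ∨ a j + l ≤ a i) (γ : ℝ)
    (hγ : ∀ b, ‖ev (γ * T * q ^ a b) ^ M ^ d + 1‖ ≤ 2 * κ)
    {I : κ' → Finset ℕ} {β : κ' → ℕ → ℂ} {f : κ' → ℕ → ZMod M} (hβ1 : ∀ i n, ‖β i n‖ ≤ 1)
    (hβ : ∀ i, DepL q (q * T) (I i) (β i))
    (hI : ∀ i, ∀ u ∈ I i, ∀ j, ¬ (a j ≤ u ∧ u < a j + l))
    (hf : ∀ i, IsPL q (q * T) d (L i) (f i)) (s : κ' → ℕ) (N : ℕ) :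
    ‖∑ n ∈ Icc 1 N, (∏ i, (β i (p i * n + s i) * ee (f i (p i * n + s i)))) * ev (γ * n)‖ ≤
      ρ ^ k * N + ∑ b, ((∑ i, (N / q ^ (a b + l) + 1) * (p i * T * q ^ a b) : ℕ) : ℝ) +
        2 * ∑ b, (T * q ^ a b : ℝ) := by
  classical
  have hq0 : 0 < q := by omega
  set Ψ : ℕ → ℂ := fun n => (∏ i, (β i (p i * n + s i) * ee (f i (p i * n + s i)))) *
    ev (γ * n) with hΨ
  have hΨ1 : ∀ n, ‖Ψ n‖ ≤ 1 := by
    intro n
    rw [hΨ]
    simp only
    rw [norm_mul, norm_ev, mul_one]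
    refine prod_le_one' _ fun i => ?_
    rw [norm_mul, bg_norm_ee, mul_one]
    exact hβ1 i _
  set D : ℕ := ∑ b, T * q ^ a b with hD
  have hdx : ∀ x : Fin k → Bool, dx q T a x ≤ D := fun x =>
    Finset.sum_le_sum_of_subset (filter_subset _ _)
  -- the good numbers
  set good : ℕ → Prop := fun n => ∀ i b, (p i * n + s i) / q ^ a b % q ^ l + p i * T < q ^ l
    with hgood
  have hgoodb : ∀ n, good n → ‖∑ x : Fin k → Bool, Ψ (n + dx q T a x)‖ ≤ 2 ^ k * ρ ^ k := by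
    intro n hn
    have h1 : ∀ i, Dg univ d fun x : Fin k → Bool => f i (p i * n + s i + p i * dx q T a x) :=
      fun i => dx_dg hq hsep (hn i) (hf i)
    have h3 := hbg (∑ i, fun x : Fin k → Bool => f i (p i * n + s i + p i * dx q T a x))
      (fun b t => if t = true then ev (γ * T * q ^ a b) else 1) (sum_mem fun i _ => h1 i)
      (fun b t => by
        split_ifs
        · exact (norm_ev _).le
        · exact norm_one.le)
      (fun b => by
        simpa using hγ b)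
    have e1 : ∑ x : Fin k → Bool, Ψ (n + dx q T a x) =
        ((∏ i, β i (p i * n + s i)) * ev (γ * n)) *
        ∑ x : Fin k → Bool, ee ((∑ i, fun x : Fin k → Bool =>
          f i (p i * n + s i + p i * dx q T a x)) x) *
          ∏ b, (if x b = true then ev (γ * T * q ^ a b) else 1) := by
      rw [Finset.mul_sum]
      refine Finset.sum_congr rfl fun x _ => ?_
      rw [hΨ]
      simp only
      have e4 : ev (γ * ((n + dx q T a x : ℕ) : ℝ)) = ev (γ * n) *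
          ∏ b, (if x b = true then ev (γ * T * q ^ a b) else 1) := by
        rw [← Finset.prod_filter, ← ev_sum, ← ev_add]
        congr 1
        unfold dx
        push_cast
        rw [mul_add, Finset.mul_sum]
        congr 1
        exact Finset.sum_congr rfl fun b _ => by ring
      have e5 : ∏ i, (β i (p i * (n + dx q T a x) + s i) *
          ee (f i (p i * (n + dx q T a x) + s i))) =
          (∏ i, β i (p i * n + s i)) * ee ((∑ i, fun x : Fin k → Bool =>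
          f i (p i * n + s i + p i * dx q T a x)) x) := by
        rw [Finset.prod_mul_distrib, Finset.sum_apply, bg_ee_sum]
        congr 1
        · refine Finset.prod_congr rfl fun i _ => ?_
          have e2 : p i * (n + dx q T a x) + s i = p i * n + s i + p i * dx q T a x := by ring
          rw [e2, dx_dep hq hsep (hn i) (hβ i) (hI i) x]
        · refine Finset.prod_congr rfl fun i _ => ?_
          have e2 : p i * (n + dx q T a x) + s i = p i * n + s i + p i * dx q T a x := by ring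
          rw [e2]
      rw [e4, e5]
      ring
    rw [e1, norm_mul]
    refine le_trans (mul_le_of_le_one_left (norm_nonneg _) ?_) h3
    rw [norm_mul, norm_ev, mul_one]
    exact prod_le_one' _ fun i => hβ1 i _
  have hallb : ∀ n, ‖∑ x : Fin k → Bool, Ψ (n + dx q T a x)‖ ≤ 2 ^ k := by
    intro n
    refine (norm_sum_le _ _).trans ((Finset.sum_le_card_nsmul _ _ 1 fun x _ => hΨ1 _).trans ?_)
    rw [card_univ, Fintype.card_fun, Fintype.card_bool, Fintype.card_fin, nsmul_eq_mul, mul_one]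
    push_cast
    exact le_rfl
  -- the number of bad numbers
  have hbad : ((Icc 1 N).filter fun n => ¬ good n).card ≤
      ∑ b, ∑ i, (N / q ^ (a b + l) + 1) * (p i * T * q ^ a b) := by
    have h1 : ((Icc 1 N).filter fun n => ¬ good n) ⊆ (univ : Finset (Fin k)).biUnion fun b =>
        (univ : Finset κ').biUnion fun i => (Icc 1 N).filter fun n =>
          q ^ (a b + l) ≤ (p i * n + s i) % q ^ (a b + l) + p i * T * q ^ a b := by
      intro n hn
      obtain ⟨h2, h3⟩ := mem_filter.1 hn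
      rw [hgood] at h3
      simp only at h3
      rw [not_forall] at h3
      obtain ⟨i, h3⟩ := h3
      rw [not_forall] at h3
      obtain ⟨b, h3⟩ := h3
      exact mem_biUnion.2 ⟨b, mem_univ _, mem_biUnion.2 ⟨i, mem_univ _,
        mem_filter.2 ⟨h2, cont_bad h3⟩⟩⟩
    refine (card_le_card h1).trans (card_biUnion_le.trans (Finset.sum_le_sum fun b _ => ?_))
    refine card_biUnion_le.trans (Finset.sum_le_sum fun i _ => ?_)
    exact cnt_bad ((hp i).pow_right _) (Nat.pow_pos hq0) _ _ _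
  have hmain : (2 : ℝ) ^ k * ‖∑ n ∈ Icc 1 N, Ψ n‖ ≤ 2 ^ k * (ρ ^ k * N +
      (∑ b, ∑ i, (N / q ^ (a b + l) + 1) * (p i * T * q ^ a b) : ℕ) + 2 * D) := by
    have h1 : ‖∑ x : Fin k → Bool, ∑ n ∈ Icc 1 N, Ψ (n + dx q T a x)‖ ≤
        2 ^ k * (ρ ^ k * N + (∑ b, ∑ i, (N / q ^ (a b + l) + 1) * (p i * T * q ^ a b) : ℕ)) := by
      rw [Finset.sum_comm]
      refine (norm_sum_le _ _).trans ?_
      have h2 : ∀ n ∈ Icc 1 N, ‖∑ x : Fin k → Bool, Ψ (n + dx q T a x)‖ ≤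
          2 ^ k * ρ ^ k + if ¬ good n then 2 ^ k else 0 := by
        intro n _
        by_cases hn : good n
        · rw [if_neg (not_not.2 hn), add_zero]
          exact hgoodb n hn
        · rw [if_pos hn]
          have := hallb n
          have : 0 ≤ 2 ^ k * ρ ^ k := by positivity
          linarith
      refine (Finset.sum_le_sum h2).trans ?_
      rw [Finset.sum_add_distrib, Finset.sum_const, Nat.card_Icc, Nat.add_sub_cancel, nsmul_eq_mul,
        ← Finset.sum_filter, Finset.sum_const, nsmul_eq_mul, mul_add]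
      refine add_le_add (le_of_eq (by ring)) ?_
      rw [mul_comm]
      exact mul_le_mul_of_nonneg_left (by exact_mod_cast hbad) (by positivity)
    have h3 : (2 : ℝ) ^ k * ‖∑ n ∈ Icc 1 N, Ψ n‖ ≤
        ‖∑ x : Fin k → Bool, ∑ n ∈ Icc 1 N, Ψ (n + dx q T a x)‖ + 2 ^ k * (2 * D) := by
      have h4 : (2 : ℂ) ^ k * ∑ n ∈ Icc 1 N, Ψ n =
          ∑ x : Fin k → Bool, ∑ n ∈ Icc 1 N, Ψ (n + dx q T a x) +
          ∑ x : Fin k → Bool, (∑ n ∈ Icc 1 N, Ψ n - ∑ n ∈ Icc 1 N, Ψ (n + dx q T a x)) := by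
        rw [Finset.sum_sub_distrib, Finset.sum_const, card_univ, Fintype.card_fun,
          Fintype.card_bool, Fintype.card_fin, nsmul_eq_mul]
        push_cast
        ring
      have h5 : (2 : ℝ) ^ k * ‖∑ n ∈ Icc 1 N, Ψ n‖ = ‖(2 : ℂ) ^ k * ∑ n ∈ Icc 1 N, Ψ n‖ := by
        rw [norm_mul, norm_pow, Complex.norm_ofNat]
      rw [h5, h4]
      refine (norm_add_le _ _).trans (add_le_add le_rfl ((norm_sum_le _ _).trans ?_))
      have h6 : ∀ x ∈ (univ : Finset (Fin k → Bool)),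
          ‖∑ n ∈ Icc 1 N, Ψ n - ∑ n ∈ Icc 1 N, Ψ (n + dx q T a x)‖ ≤ 2 * D := by
        intro x _
        refine (shift_diff Ψ hΨ1 N (dx q T a x)).trans ?_
        have : ((dx q T a x : ℕ) : ℝ) ≤ (D : ℕ) := by exact_mod_cast hdx x
        linarith
      refine (Finset.sum_le_card_nsmul _ _ _ h6).trans ?_
      rw [card_univ, Fintype.card_fun, Fintype.card_bool, Fintype.card_fin, nsmul_eq_mul]
      push_cast
      exact le_rfl
    calc _ ≤ _ := h3
      _ ≤ _ := add_le_add h1 le_rfl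
      _ = _ := by ring
  have h7 := le_of_mul_le_mul_left hmain (by positivity)
  refine h7.trans (le_of_eq ?_)
  rw [hD]
  push_cast
  ring

/-- **twisted correlations of a family with many very bad positions are small** -/
theorem corr_twF {κ' : Type} [Fintype κ'] {q d T M : ℕ} (B : ℕ) [NeZero M] (hq : 2 ≤ q)
    {p : κ' → ℕ} (hp : ∀ i, (p i).Coprime q) {c δ : ℝ} (hc : 0 < c) (hδ : 0 < δ) :
    ∃ B1 : ℕ, ∀ h K1 : ℕ, q ^ K1 ≤ q * h → ∀ γ : ℝ,
      B1 ≤ ((range K1).filter fun i => c ≤ |(M ^ d : ℕ) * (γ * T * q ^ i) -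
        round ((M ^ d : ℕ) * (γ * T * q ^ i))|).card →
      ∀ (L : κ' → ℕ) (F : κ' → ℕ → ℂ), (∀ i, Cls q d T M B (L i) (F i)) →
        ∀ (s : κ' → ℕ) (N : ℕ), N ≤ h →
          ‖∑ n ∈ Icc 1 N, (∏ i, F i (p i * n + s i)) * ev (γ * n)‖ ≤ δ * h := by
  classical
  have hq0 : 0 < q := by omega
  have hqr : (1 : ℝ) < q := by exact_mod_cast (by omega : 1 < q)
  have hqp : (0 : ℝ) < q := by linarith
  obtain ⟨c', hc', hc'2, hcc⟩ : ∃ c' : ℝ, 0 < c' ∧ c' ≤ 1 / 2 ∧ c' ≤ c :=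
    ⟨min c (1 / 2), lt_min hc (by norm_num), min_le_right _ _, min_le_left _ _⟩
  obtain ⟨hκ0, hκ1⟩ := cos_lt hc' hc'2
  obtain ⟨ρ, hρ0, hρ1, H⟩ := bg M hκ0 hκ1 d
  obtain ⟨k, hk⟩ := exists_pow_lt_of_lt_one (show 0 < δ / 3 by positivity) hρ1
  set Pt : ℝ := ∑ i, (p i : ℝ) with hPt
  have hPt0 : 0 ≤ Pt := Finset.sum_nonneg fun i _ => Nat.cast_nonneg _
  obtain ⟨l0, hl0⟩ := pow_unbounded_of_one_lt (3 * (k * (Pt * T)) / δ : ℝ) hqr
  obtain ⟨W1, hW1⟩ := pow_unbounded_of_one_lt (3 * (k * ((Pt + 2) * T * q)) / δ : ℝ) hqr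
  set l := l0 + 1 with hl
  have hl1 : 3 * (k * (Pt * T)) ≤ δ * (q : ℝ) ^ l := by
    have h1 : (q : ℝ) ^ l0 ≤ (q : ℝ) ^ l := pow_le_pow_right₀ hqr.le (Nat.le_succ l0)
    rw [div_lt_iff₀ hδ] at hl0
    nlinarith
  have hW2 : 3 * (k * ((Pt + 2) * T * q)) ≤ δ * (q : ℝ) ^ W1 := by
    rw [div_lt_iff₀ hδ] at hW1
    linarith
  refine ⟨W1 + (Fintype.card κ' * B) * l + k * l, fun h K1 hK γ hB1 L F hF s N hN => ?_⟩
  choose I β f hI hβ1 hβ hf hFe using hF
  have hII : ((univ : Finset κ').biUnion I).card ≤ Fintype.card κ' * B :=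
    card_biUnion_le_card_mul _ _ _ fun i _ => hI i
  have hIl : ((univ : Finset κ').biUnion I).card * l ≤ Fintype.card κ' * B * l :=
    Nat.mul_le_mul_right _ hII
  obtain ⟨a, ha1, ha2, ha3, ha4⟩ := cells_exist (V := (range K1).filter fun i =>
    c ≤ |(M ^ d : ℕ) * (γ * T * q ^ i) - round ((M ^ d : ℕ) * (γ * T * q ^ i))|)
    (I := (univ : Finset κ').biUnion I)
    (K1 := K1) (W1 := W1) (l := l) (k := k) (Nat.succ_pos _)
    (fun i hi => mem_range.1 (mem_filter.1 hi).1) (by omega)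
  have hγ : ∀ b, ‖ev (γ * T * q ^ a b) ^ M ^ d + 1‖ ≤ 2 * Real.cos (Real.pi * c') := by
    intro b
    rw [ev_pow]
    exact ev_far hc'.le (hcc.trans (mem_filter.1 (ha1 b)).2)
  have hmain := corr_cellsF (k := k) (l := l) (T := T) hq hp hρ0 (fun φ w h1 h2 h3 => by
    have := H (Fin k) univ φ w h1 h2 fun b _ => h3 b
    rwa [Fintype.card_fin, card_univ, Fintype.card_fin] at this) a ha4 γ hγ hβ1 hβ
    (fun i u hu j => ha3 u (mem_biUnion.2 ⟨i, mem_univ _, hu⟩) j) hf s N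
  have e1 : ∀ n, (∏ i, F i (p i * n + s i)) * ev (γ * n) =
      (∏ i, (β i (p i * n + s i) * ee (f i (p i * n + s i)))) * ev (γ * n) := fun n => by
    rw [Finset.prod_congr rfl fun i _ => hFe i _]
  rw [Finset.sum_congr rfl fun n _ => e1 n]
  refine hmain.trans ?_
  have hNr : (N : ℝ) ≤ h := by exact_mod_cast hN
  have hh0 : (0 : ℝ) ≤ h := Nat.cast_nonneg h
  have hlp : (0 : ℝ) < (q : ℝ) ^ l := by positivity
  have hWp : (0 : ℝ) < (q : ℝ) ^ W1 := by positivity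
  have hqa : ∀ b, (q : ℝ) ^ a b ≤ q * h / (q : ℝ) ^ W1 := by
    intro b
    rw [le_div_iff₀ hWp, ← pow_add]
    have h1 : q ^ (a b + W1) ≤ q * h := (Nat.pow_le_pow_right hq0 (ha2 b)).trans hK
    exact_mod_cast h1
  have hb : ∀ b : Fin k, (((∑ i, (N / q ^ (a b + l) + 1) * (p i * T * q ^ a b) : ℕ) : ℝ) +
        2 * (T * q ^ a b : ℝ)) ≤
      Pt * T * h / (q : ℝ) ^ l + (Pt + 2) * T * (q * h / (q : ℝ) ^ W1) := by
    intro b
    have h1 : (((N / q ^ (a b + l) : ℕ)) : ℝ) * (q : ℝ) ^ a b ≤ h / (q : ℝ) ^ l := by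
      rw [le_div_iff₀ hlp, mul_assoc, ← pow_add]
      have h2 : N / q ^ (a b + l) * q ^ (a b + l) ≤ h := (Nat.div_mul_le_self _ _).trans hN
      exact_mod_cast h2
    have h3 := hqa b
    have hT0 : (0 : ℝ) ≤ T := Nat.cast_nonneg T
    obtain ⟨Z, hZ⟩ : ∃ Z : ℕ, Z = N / q ^ (a b + l) := ⟨_, rfl⟩
    rw [← hZ] at h1 ⊢
    calc ((∑ i, (Z + 1) * (p i * T * q ^ a b) : ℕ) : ℝ) + 2 * (T * q ^ a b : ℝ) =
          Pt * T * ((Z : ℝ) * (q : ℝ) ^ a b) + (Pt + 2) * T * (q : ℝ) ^ a b := by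
            push_cast
            rw [← Finset.mul_sum, ← Finset.sum_mul, ← Finset.sum_mul, ← hPt]
            ring
      _ ≤ Pt * T * (h / (q : ℝ) ^ l) + (Pt + 2) * T * (q * h / (q : ℝ) ^ W1) :=
          add_le_add (mul_le_mul_of_nonneg_left h1 (by positivity))
            (mul_le_mul_of_nonneg_left h3 (by positivity))
      _ = _ := by ring
  have hsum := Finset.sum_le_sum fun b (_ : b ∈ (univ : Finset (Fin k))) => hb b
  rw [Finset.sum_add_distrib, ← Finset.mul_sum, Finset.sum_const, card_univ, Fintype.card_fin,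
    nsmul_eq_mul] at hsum
  have h1 : ρ ^ k * N ≤ δ / 3 * h := by
    have : 0 ≤ ρ ^ k := by positivity
    nlinarith
  have h2 : (k : ℝ) * (Pt * T * h / (q : ℝ) ^ l) ≤ δ / 3 * h := by
    have e : (k : ℝ) * (Pt * T * h / (q : ℝ) ^ l) = (k * (Pt * T)) / (q : ℝ) ^ l * h := by ring
    rw [e]
    refine mul_le_mul_of_nonneg_right ?_ hh0
    rw [div_le_iff₀ hlp]
    linarith
  have h3 : (k : ℝ) * ((Pt + 2) * T * (q * h / (q : ℝ) ^ W1)) ≤ δ / 3 * h := by
    have e : (k : ℝ) * ((Pt + 2) * T * (q * h / (q : ℝ) ^ W1)) =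
        (k * ((Pt + 2) * T * q)) / (q : ℝ) ^ W1 * h := by ring
    rw [e]
    refine mul_le_mul_of_nonneg_right ?_ hh0
    rw [div_le_iff₀ hWp]
    linarith
  rw [mul_add] at hsum
  linarith

end Pool.Agent.Lib.MP_3e612f_nt.LORT
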