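import Pool.Agent.Lib.MP_3e612f_nt.LO.R.Corr

/-!
Pair correlations twisted by a linear phase: choice of the cells and of the parameters.
-/

set_option autoImplicit false

namespace Pool.Agent.Lib.MP_3e612f_nt.LORT

open Finset
open Pool.Agent.Lib.MP_3e612f_nt.PI (ee mc)
open Pool.Agent.Lib.MP_3e612f_nt.EM

/-- cells at elements of `V`, away from `I` and from the top -/
theorem cells_exist {V I : Finset ℕ} {K1 W1 l k : ℕ} (hl : 0 < l) (hV : ∀ i ∈ V, i < K1)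
    (hc : W1 + I.card * l + k * l ≤ V.card) : ∃ a : Fin k → ℕ, (∀ i, a i ∈ V) ∧
      (∀ i, a i + W1 ≤ K1) ∧ (∀ i ∈ I, ∀ j, ¬ (a j ≤ i ∧ i < a j + l)) ∧
      ∀ i j, i ≠ j → a i + l ≤ a j ∨ a j + l ≤ a i := by
  classical
  set V1 := V.filter fun v => v + W1 ≤ K1 ∧ ∀ i ∈ I, ¬ (v ≤ i ∧ i < v + l) with hV1
  have h1 : (V.filter fun v => ¬ (v + W1 ≤ K1 ∧ ∀ i ∈ I, ¬ (v ≤ i ∧ i < v + l))) ⊆
      Ico (K1 + 1 - W1) K1 ∪ I.biUnion fun i => Ico (i + 1 - l) (i + 1) := by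
    intro v hv
    obtain ⟨h2, h3⟩ := mem_filter.1 hv
    rw [not_and_or] at h3
    have h4 := hV v h2
    rcases h3 with h3 | h3
    · refine mem_union_left _ (mem_Ico.2 ⟨by omega, h4⟩)
    · push Not at h3
      obtain ⟨i, hi, h5, h6⟩ := h3
      exact mem_union_right _ (mem_biUnion.2 ⟨i, hi, mem_Ico.2 ⟨by omega, by omega⟩⟩)
  have h2 : (V.filter fun v => ¬ (v + W1 ≤ K1 ∧ ∀ i ∈ I, ¬ (v ≤ i ∧ i < v + l))).card ≤
      W1 + I.card * l := by
    refine (card_le_card h1).trans ((card_union_le _ _).trans (add_le_add ?_ ?_))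
    · rw [Nat.card_Ico]
      omega
    · refine card_biUnion_le_card_mul _ _ _ fun i _ => ?_
      rw [Nat.card_Ico]
      omega
  have h3 := Finset.card_filter_add_card_filter_not (s := V)
    (fun v => v + W1 ≤ K1 ∧ ∀ i ∈ I, ¬ (v ≤ i ∧ i < v + l))
  obtain ⟨a, h4, h5⟩ := space hl k V1 (by
    rw [hV1]
    omega)
  exact ⟨a, fun i => (mem_filter.1 (h4 i)).1, fun i => (mem_filter.1 (h4 i)).2.1,
    fun i hi j => (mem_filter.1 (h4 j)).2.2 i hi, h5⟩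

/-- **twisted correlations with many very bad positions are small** -/
theorem corr_tw {q d T M : ℕ} (B : ℕ) [NeZero M] (hq : 2 ≤ q) {p r : ℕ}
    (hp : p.Coprime q) (hr : r.Coprime q) {c δ : ℝ} (hc : 0 < c) (hδ : 0 < δ) :
    ∃ B1 : ℕ, ∀ h K1 : ℕ, q ^ K1 ≤ q * h → ∀ γ : ℝ,
      B1 ≤ ((range K1).filter fun i => c ≤ |(M ^ d : ℕ) * (γ * T * q ^ i) -
        round ((M ^ d : ℕ) * (γ * T * q ^ i))|).card →
      ∀ (L L' : ℕ) (F F' : ℕ → ℂ), Cls q d T M B L F → Cls q d T M B L' F' →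
        ∀ s s' N : ℕ, N ≤ h →
          ‖∑ n ∈ Icc 1 N, F (p * n + s) * F' (r * n + s') * ev (γ * n)‖ ≤ δ * h := by
  classical
  have hq0 : 0 < q := by omega
  have hqr : (1 : ℝ) < q := by exact_mod_cast (by omega : 1 < q)
  have hqp : (0 : ℝ) < q := by linarith
  obtain ⟨c', hc', hc'2, hcc⟩ : ∃ c' : ℝ, 0 < c' ∧ c' ≤ 1 / 2 ∧ c' ≤ c :=
    ⟨min c (1 / 2), lt_min hc (by norm_num), min_le_right _ _, min_le_left _ _⟩
  obtain ⟨hκ0, hκ1⟩ := cos_lt hc' hc'2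
  obtain ⟨ρ, hρ0, hρ1, H⟩ := bg M hκ0 hκ1 d
  obtain ⟨k, hk⟩ := exists_pow_lt_of_lt_one (show 0 < δ / 3 by positivity) hρ1
  obtain ⟨l0, hl0⟩ := pow_unbounded_of_one_lt (3 * (k * ((p + r) * T)) / δ : ℝ) hqr
  obtain ⟨W1, hW1⟩ := pow_unbounded_of_one_lt (3 * (k * ((p + r + 2) * T * q)) / δ : ℝ) hqr
  set l := l0 + 1 with hl
  have hl1 : 3 * (k * ((p + r) * T)) ≤ δ * (q : ℝ) ^ l := by
    have h1 : (q : ℝ) ^ l0 ≤ (q : ℝ) ^ l := pow_le_pow_right₀ hqr.le (Nat.le_succ l0)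
    rw [div_lt_iff₀ hδ] at hl0
    nlinarith
  have hW2 : 3 * (k * ((p + r + 2) * T * q)) ≤ δ * (q : ℝ) ^ W1 := by
    rw [div_lt_iff₀ hδ] at hW1
    linarith
  refine ⟨W1 + (2 * B) * l + k * l, fun h K1 hK γ hB1 L L' F F' hF hF' s s' N hN => ?_⟩
  obtain ⟨I, β, f, hI, hβ1, hβ, hf, hFe⟩ := hF
  obtain ⟨I', β', f', hI', hβ1', hβ', hf', hFe'⟩ := hF'
  have hII : (I ∪ I').card ≤ 2 * B := (card_union_le _ _).trans (by omega)
  have hIl : (I ∪ I').card * l ≤ 2 * B * l := Nat.mul_le_mul_right _ hII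
  obtain ⟨a, ha1, ha2, ha3, ha4⟩ := cells_exist (V := (range K1).filter fun i =>
    c ≤ |(M ^ d : ℕ) * (γ * T * q ^ i) - round ((M ^ d : ℕ) * (γ * T * q ^ i))|) (I := I ∪ I')
    (K1 := K1) (W1 := W1) (l := l) (k := k) (Nat.succ_pos _)
    (fun i hi => mem_range.1 (mem_filter.1 hi).1) (by omega)
  have hγ : ∀ b, ‖ev (γ * T * q ^ a b) ^ M ^ d + 1‖ ≤ 2 * Real.cos (Real.pi * c') := by
    intro b
    rw [ev_pow]
    exact ev_far hc'.le (hcc.trans (mem_filter.1 (ha1 b)).2)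
  have hmain := corr_cells (k := k) (l := l) (T := T) hq hp hr hρ0 (fun φ w h1 h2 h3 => by
    have := H (Fin k) univ φ w h1 h2 fun b _ => h3 b
    rwa [Fintype.card_fin, card_univ, Fintype.card_fin] at this) a ha4 γ hγ hβ1 hβ1' hβ hβ'
    (fun i hi j => ha3 i (mem_union_left _ hi) j) (fun i hi j => ha3 i (mem_union_right _ hi) j)
    hf hf' s s' N
  have e1 : ∀ n, F (p * n + s) * F' (r * n + s') * ev (γ * n) =
      β (p * n + s) * ee (f (p * n + s)) * (β' (r * n + s') * ee (f' (r * n + s'))) *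
        ev (γ * n) := fun n => by rw [hFe, hFe']
  rw [Finset.sum_congr rfl fun n _ => e1 n]
  refine hmain.trans ?_
  have hNr : (N : ℝ) ≤ h := by exact_mod_cast hN
  have hh0 : (0 : ℝ) ≤ h := Nat.cast_nonneg h
  have hlp : (0 : ℝ) < (q : ℝ) ^ l := by positivity
  have hWp : (0 : ℝ) < (q : ℝ) ^ W1 := by positivity
  have hqa : ∀ b, (q : ℝ) ^ a b ≤ q * h / (q : ℝ) ^ W1 := by
    intro b
    rw [le_div_iff₀ hWp, ← pow_add]
    have h1 : q ^ (a b + W1) ≤ q * h := (Nat.pow_le_pow_right hq0 (ha2 b)).trans hK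
    exact_mod_cast h1
  have hb : ∀ b : Fin k, ((((N / q ^ (a b + l) + 1) * (p * T * q ^ a b) +
        (N / q ^ (a b + l) + 1) * (r * T * q ^ a b) : ℕ) : ℝ) + 2 * (T * q ^ a b : ℝ)) ≤
      (p + r) * T * h / (q : ℝ) ^ l + (p + r + 2) * T * (q * h / (q : ℝ) ^ W1) := by
    intro b
    have h1 : (((N / q ^ (a b + l) : ℕ)) : ℝ) * (q : ℝ) ^ a b ≤ h / (q : ℝ) ^ l := by
      rw [le_div_iff₀ hlp, mul_assoc, ← pow_add]
      have h2 : N / q ^ (a b + l) * q ^ (a b + l) ≤ h := (Nat.div_mul_le_self _ _).trans hN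
      exact_mod_cast h2
    have h3 := hqa b
    have hT0 : (0 : ℝ) ≤ T := Nat.cast_nonneg T
    have hp0 : (0 : ℝ) ≤ p := Nat.cast_nonneg p
    have hr0 : (0 : ℝ) ≤ r := Nat.cast_nonneg r
    push_cast at h1 ⊢
    calc _ = (p + r) * T * ((((N / q ^ (a b + l) : ℕ)) : ℝ) * (q : ℝ) ^ a b) +
          (p + r + 2) * T * (q : ℝ) ^ a b := by
            ring
      _ ≤ (p + r) * T * (h / (q : ℝ) ^ l) + (p + r + 2) * T * (q * h / (q : ℝ) ^ W1) := by
          refine add_le_add (mul_le_mul_of_nonneg_left ?_ (by positivity))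
            (mul_le_mul_of_nonneg_left h3 (by positivity))
          exact h1
      _ = _ := by ring
  have hsum := Finset.sum_le_sum fun b (_ : b ∈ (univ : Finset (Fin k))) => hb b
  rw [Finset.sum_add_distrib, ← Finset.mul_sum, Finset.sum_const, card_univ, Fintype.card_fin,
    nsmul_eq_mul] at hsum
  have h1 : ρ ^ k * N ≤ δ / 3 * h := by
    have : 0 ≤ ρ ^ k := by positivity
    nlinarith
  have h2 : (k : ℝ) * ((p + r) * T * h / (q : ℝ) ^ l) ≤ δ / 3 * h := by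
    have e : (k : ℝ) * ((p + r) * T * h / (q : ℝ) ^ l) =
        (k * ((p + r) * T)) / (q : ℝ) ^ l * h := by ring
    rw [e]
    refine mul_le_mul_of_nonneg_right ?_ hh0
    rw [div_le_iff₀ hlp]
    linarith
  have h3 : (k : ℝ) * ((p + r + 2) * T * (q * h / (q : ℝ) ^ W1)) ≤ δ / 3 * h := by
    have e : (k : ℝ) * ((p + r + 2) * T * (q * h / (q : ℝ) ^ W1)) =
        (k * ((p + r + 2) * T * q)) / (q : ℝ) ^ W1 * h := by ring
    rw [e]
    refine mul_le_mul_of_nonneg_right ?_ hh0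
    rw [div_le_iff₀ hWp]
    linarith
  rw [mul_add] at hsum
  linarith

end Pool.Agent.Lib.MP_3e612f_nt.LORT
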