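import Pool.Agent.Lib.MP_3e612f_nt.LO.M.Cor
import Pool.Agent.Lib.MP_3e612f_nt.LO.R.Unif

/-!
Systems all of whose limit measures come from digit systems and rotations.
-/

set_option autoImplicit false

namespace Pool.Agent.Lib.MP_3e612f_nt.LORT

open Finset MeasureTheory Filter Topology
open Pool.Agent.Lib.MP_3e612f_nt.PI (mc)
open Pool.Agent.Lib.MP_3e612f_nt.EM
open Pool.Agent.Lib.MP_3e612f_nt.LOM (sh DigX digX_eq DLim)

/-- For every `ε` there is a joining of `ν` with an invariant measure of the product of a digit system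
and a rotation of the infinite torus such that `g` is `ε`-close in `L¹` to a continuous function on the
product. -/
def DigRot {Y : Type} [MeasurableSpace Y] (S : Y → Y) (ν : Measure Y) (g : Y → ℂ) : Prop :=
  ∀ ε : ℝ, 0 < ε → ∃ (q m d : ℕ) (A : Type) (_ : AddCommGroup A) (_ : Finite A)
    (_ : TopologicalSpace A) (_ : DiscreteTopology A) (_ : MeasurableSpace A) (_ : BorelSpace A)
    (a : ℕ → UnitAddCircle) (lam : Measure (((ℕ → A) × (ℕ → UnitAddCircle)) × Y))
    (f : (ℕ → A) × (ℕ → UnitAddCircle) → ℂ),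
    2 ≤ q ∧ 1 ≤ m ∧ 1 ≤ d ∧ IsProbabilityMeasure lam ∧
      MeasurePreserving (Prod.map (Prod.map sh fun z => z + a) S) lam lam ∧ lam.map Prod.snd = ν ∧
      (∀ᵐ p ∂lam, p.1.1 ∈ DigX q m d A) ∧ Continuous f ∧ ∫ p, ‖g p.2 - f p.1‖ ∂lam ≤ ε

/-- the characters of the torus -/
theorem sep_torus (a : ℕ → UnitAddCircle) : Sep fun z : ℕ → UnitAddCircle => z + a := by
  intro z z' hne
  obtain ⟨i, hi⟩ := Function.ne_iff.1 hne
  refine ⟨⟨fun w => fourier 1 (w i), (fourier 1).continuous.comp (continuous_apply i)⟩,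
    fourier 1 (a i), ?_, fun w => ?_, ?_⟩
  · rw [fourier_apply]
    exact Circle.norm_coe _
  · show fourier 1 (w i + a i) = fourier 1 (a i) * fourier 1 (w i)
    rw [fourier_one, fourier_one, fourier_one, AddCircle.toCircle_add, Circle.coe_mul, mul_comm]
  · show fourier 1 (z i) ≠ fourier 1 (z' i)
    rw [fourier_one, fourier_one]
    intro h
    exact hi (AddCircle.injective_toCircle one_ne_zero (Circle.ext h))

/-- digit systems times rotations are locally uniform -/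
theorem digrot_lus {q m d : ℕ} (hq : 2 ≤ q) (hm : 1 ≤ m) (hd : 1 ≤ d) (hMR : LOD.MRp) (A : Type)
    [AddCommGroup A] [Finite A] [TopologicalSpace A] [DiscreteTopology A]
    (a : ℕ → UnitAddCircle) :
    LUSW tw (Prod.map (sh : (ℕ → A) → ℕ → A) fun z : ℕ → UnitAddCircle => z + a)
      (UXM q m d A ×ˢ (Set.univ : Set (ℕ → UnitAddCircle))) :=
  lusw_prod (sep_torus a) (ux_lusw q m d hq hd tw_norm (lmw_tw hq hm hMR) A)

section
variable {Y : Type} [MetricSpace Y] [CompactSpace Y] [MeasurableSpace Y] [BorelSpace Y]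

/-- **the general form**: digit systems, rotations, uniformly over the linear phases -/
theorem digrot_unif (hMR : LOD.MRp) (S : Y → Y) (hS : Continuous S) (g : Y → ℂ)
    (hg : Continuous g) (F : Set (ℕ → Y))
    (H : ∀ ν : Measure Y, IsProbabilityMeasure ν → DLim S F ν → DigRot S ν g) :
    ∀ ε : ℝ, 0 < ε → ∃ h₀ : ℕ, ∀ h ≥ h₀, ∃ N₀ : ℕ, ∀ N ≥ N₀, ∀ α : ℝ, ∀ y ∈ F,
      ∑ x ∈ range N, ‖∑ n ∈ range h, mc (x + n) * ev (α * n) * g (S^[n] (y x))‖ ≤ ε * h * N := by
  intro ε hε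
  obtain ⟨h₀, H1⟩ := unif_modelsw tw_norm tw_shift S hS g hg F (fun ν hν hD ε hε => by
    obtain ⟨q, m, d, A, _, _, _, _, _, _, a, lam, f, h1, h2, h3, h4, h5, h6, h7, h8, h9⟩ :=
      H ν hν hD ε hε
    refine ⟨(ℕ → A) × (ℕ → UnitAddCircle), inferInstance, inferInstance, inferInstance,
      Prod.map sh fun z => z + a, UXM q m d A ×ˢ Set.univ, digrot_lus h1 h2 h3 hMR A a, lam, h4, h5,
      h6, ?_, f, h8, ?_, h9⟩
    · rw [← digX_eq]
      filter_upwards [h7] with p hp using ⟨hp, Set.mem_univ _⟩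
    · obtain ⟨C, hC⟩ := (isCompact_univ
        (X := (ℕ → A) × (ℕ → UnitAddCircle))).exists_bound_of_continuousOn h8.continuousOn
      exact ⟨C, fun x => hC x (Set.mem_univ _)⟩) ε hε
  refine ⟨h₀, fun h hh => ?_⟩
  obtain ⟨N₀, H2⟩ := H1 h hh
  exact ⟨N₀, fun N hN α y hy => H2 N hN (fun x n => mc (x + n) * ev (α * n)) ⟨α, rfl⟩ y hy⟩

end

end Pool.Agent.Lib.MP_3e612f_nt.LORT
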