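import Pool.Agent.Lib.MP_3e612f_nt.LO.R.Ev

/-!
Polynomial sequences in an additive commutative group, through their differences.
-/

set_option autoImplicit false

namespace Pool.Agent.Lib.MP_3e612f_nt.LORT

open Finset

section
variable {G : Type} [AddCommGroup G]

/-- `g` is polynomial of degree `≤ D`, its `D`-th difference is the constant `γ` -/
def PhD : ℕ → G → (ℕ → G) → Prop
  | 0, γ, g => ∀ n, g n = γ
  | D + 1, γ, g => PhD D γ fun n => g (n + 1) - g n

theorem phd_zero (D : ℕ) : PhD D (0 : G) fun _ => 0 := by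
  induction D with
  | zero => exact fun _ => rfl
  | succ D ih =>
    show PhD D (0 : G) fun _ => 0 - 0
    simpa using ih

theorem phd_add {D : ℕ} {γ γ' : G} {g g' : ℕ → G} (h : PhD D γ g) (h' : PhD D γ' g') :
    PhD D (γ + γ') fun n => g n + g' n := by
  induction D generalizing γ γ' g g' with
  | zero =>
    intro n
    show g n + g' n = γ + γ'
    rw [h n, h' n]
  | succ D ih =>
    have h1 := ih (g := fun n => g (n + 1) - g n) (g' := fun n => g' (n + 1) - g' n) h h'
    show PhD D (γ + γ') fun n => g (n + 1) + g' (n + 1) - (g n + g' n)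
    convert h1 using 2
    abel

theorem phd_neg {D : ℕ} {γ : G} {g : ℕ → G} (h : PhD D γ g) : PhD D (-γ) fun n => - g n := by
  induction D generalizing γ g with
  | zero =>
    intro n
    show - g n = -γ
    rw [h n]
  | succ D ih =>
    have h1 := ih (g := fun n => g (n + 1) - g n) h
    show PhD D (-γ) fun n => - g (n + 1) - - g n
    convert h1 using 2
    abel

theorem phd_sub {D : ℕ} {γ γ' : G} {g g' : ℕ → G} (h : PhD D γ g) (h' : PhD D γ' g') :
    PhD D (γ - γ') fun n => g n - g' n := by
  have := phd_add h (phd_neg h')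
  simpa only [sub_eq_add_neg] using this

theorem phd_shift {D : ℕ} {γ : G} {g : ℕ → G} (h : PhD D γ g) (t : ℕ) :
    PhD D γ fun n => g (n + t) := by
  induction D generalizing γ g with
  | zero => exact fun n => h (n + t)
  | succ D ih =>
    have h1 := ih (g := fun n => g (n + 1) - g n) h
    show PhD D γ fun n => g (n + 1 + t) - g (n + t)
    convert h1 using 3
    ring_nf

theorem phd_up {D : ℕ} {γ : G} {g : ℕ → G} (h : PhD D γ g) : PhD (D + 1) 0 g := by
  induction D generalizing γ g with
  | zero =>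
    intro n
    show g (n + 1) - g n = 0
    rw [h n, h (n + 1), sub_self]
  | succ D ih => exact ih (g := fun n => g (n + 1) - g n) h

theorem phd_step {D : ℕ} {γ : G} {g : ℕ → G} (h : PhD (D + 1) γ g) (t : ℕ) :
    PhD D (t • γ) fun n => g (n + t) - g n := by
  induction t with
  | zero =>
    have := phd_zero (G := G) D
    simpa using this
  | succ t ih =>
    have h1 := phd_add (phd_shift (g := fun n => g (n + 1) - g n) h t) ih
    rw [succ_nsmul, add_comm]
    convert h1 using 2 with n
    rw [show n + (t + 1) = n + t + 1 by ring]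
    abel

theorem phd_step2 {D : ℕ} {γ : G} {g : ℕ → G} (h : PhD (D + 1) γ g) (t t' : ℕ) :
    PhD D (((t : ℤ) - t') • γ) fun n => g (n + t) - g (n + t') := by
  have h1 := phd_sub (phd_step h t) (phd_step h t')
  rw [sub_smul, natCast_zsmul, natCast_zsmul]
  convert h1 using 2
  abel

theorem phd_mul {D : ℕ} {γ : G} {g : ℕ → G} (h : PhD D γ g) (p s : ℕ) :
    PhD D (p ^ D • γ) fun n => g (p * n + s) := by
  induction D generalizing γ g with
  | zero =>
    intro n
    show g (p * n + s) = p ^ 0 • γ
    rw [h (p * n + s), pow_zero, one_smul]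
  | succ D ih =>
    have h1 := ih (phd_step h p)
    rw [pow_succ, mul_smul]
    show PhD D (p ^ D • p • γ) fun n => g (p * (n + 1) + s) - g (p * n + s)
    convert h1 using 3
    ring_nf

theorem phd_ext {D : ℕ} {γ : G} {g : ℕ → G} (h : PhD D γ g) :
    ∃ g', PhD D γ g' ∧ ∀ n, g' (n + 1) = g n := by
  induction D generalizing γ g with
  | zero => exact ⟨fun _ => γ, fun _ => rfl, fun n => (h n).symm⟩
  | succ D ih =>
    obtain ⟨u, hu, hu'⟩ := ih (g := fun n => g (n + 1) - g n) h
    refine ⟨fun n => match n with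
      | 0 => g 0 - u 0
      | n + 1 => g n, ?_, fun _ => rfl⟩
    show PhD D γ _
    convert hu using 2 with n
    cases n with
    | zero =>
      show g 0 - (g 0 - u 0) = u 0
      abel
    | succ n =>
      rw [hu' n]

theorem phd_exts {D : ℕ} {γ : G} {g : ℕ → G} (h : PhD D γ g) (s : ℕ) :
    ∃ g', PhD D γ g' ∧ ∀ n, g' (n + s) = g n := by
  induction s with
  | zero => exact ⟨g, h, fun _ => rfl⟩
  | succ s ih =>
    obtain ⟨g1, h1, h2⟩ := ih
    obtain ⟨g2, h3, h4⟩ := phd_ext h1
    exact ⟨g2, h3, fun n => by rw [show n + (s + 1) = n + s + 1 by ring, h4, h2]⟩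

/-- linear sequences -/
theorem phd_one {γ : G} {g : ℕ → G} (h : PhD 1 γ g) (n : ℕ) : g n = g 0 + n • γ := by
  induction n with
  | zero => simp
  | succ n ih =>
    have h1 : g (n + 1) - g n = γ := h n
    rw [succ_nsmul, ← add_assoc, ← ih, ← h1]
    abel

theorem phd_lin (β : G) : PhD 1 β fun n => n • β := by
  intro n
  show (n + 1) • β - n • β = β
  rw [succ_nsmul]
  abel

theorem phd_lin2 (β : G) (D : ℕ) : PhD (D + 2) 0 fun n => n • β := by
  induction D with
  | zero => exact phd_up (phd_lin β)
  | succ D ih => exact phd_up ih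

theorem ord_zsmul {γ : G} (hγ : addOrderOf γ = 0) {k : ℤ} (hk : k ≠ 0) :
    addOrderOf (k • γ) = 0 := by
  rw [addOrderOf_eq_zero_iff'] at hγ ⊢
  intro n hn h1
  rw [← natCast_zsmul, ← mul_smul] at h1
  have h2 : (n : ℤ) * k ≠ 0 := mul_ne_zero (by omega) hk
  have h3 : ((n : ℤ) * k).natAbs • γ = 0 := by
    rcases Int.natAbs_eq ((n : ℤ) * k) with h4 | h4
    · rw [← natCast_zsmul, ← h4]
      exact h1
    · rw [← natCast_zsmul, ← neg_eq_zero, ← neg_smul, ← h4]
      exact h1
  exact hγ _ (Int.natAbs_pos.2 h2) h3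

end

/-- the character of the circle -/
noncomputable def tc (x : UnitAddCircle) : ℂ := (AddCircle.toCircle x : ℂ)

theorem tc_add (x y : UnitAddCircle) : tc (x + y) = tc x * tc y := by
  unfold tc
  rw [AddCircle.toCircle_add, Circle.coe_mul]

theorem tc_norm (x : UnitAddCircle) : ‖tc x‖ = 1 := Circle.norm_coe _

theorem tc_coe (x : ℝ) : tc (x : UnitAddCircle) = ev x := by
  unfold tc ev
  rw [AddCircle.toCircle_apply_mk, Circle.coe_exp]
  congr 1
  push_cast
  ring

theorem tc_zero : tc 0 = 1 := by
  unfold tc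
  rw [AddCircle.toCircle_zero]
  rfl

theorem tc_conj (x : UnitAddCircle) : (starRingEnd ℂ) (tc x) = tc (-x) := by
  induction x using QuotientAddGroup.induction_on with
  | H x =>
    have h1 := tc_coe x
    have h2 := tc_coe (-x)
    rw [AddCircle.coe_neg] at h2
    exact (congrArg (starRingEnd ℂ) h1).trans ((conj_ev x).trans h2.symm)

theorem tc_cont : Continuous tc :=
  continuous_subtype_val.comp AddCircle.continuous_toCircle

theorem tc_nsmul (n : ℕ) (x : UnitAddCircle) : tc (n • x) = tc x ^ n := by
  induction n with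
  | zero => rw [zero_smul, pow_zero, tc_zero]
  | succ n ih => rw [succ_nsmul, tc_add, ih, pow_succ]

end Pool.Agent.Lib.MP_3e612f_nt.LORT
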