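import Pool.Agent.Lib.MP_3e612f_nt.LO.R.CorrT
import Pool.Agent.Lib.MP_3e612f_nt.LO.R.Apx
import Pool.Agent.Lib.MP_3e612f_nt.LO.D.Tr

/-!
The local theorem for digit polynomials twisted by a linear phase, uniformly in the frequency.
-/

set_option autoImplicit false

namespace Pool.Agent.Lib.MP_3e612f_nt.LORT

open Finset
open Pool.Agent.Lib.MP_3e612f_nt.PI (ee mc)
open Pool.Agent.Lib.MP_3e612f_nt.EM
open Pool.Agent.Lib.MP_3e612f_nt.LOD

/-- the local theorem for phases of degree `≤ d` and frozen factors, twisted by a linear phase -/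
def LPT (q d : ℕ) : Prop :=
  ∀ (T M B : ℕ) [NeZero M], 0 < T → ∀ ε : ℝ, 0 < ε → ∃ h0 : ℕ, ∀ h ≥ h0, ∃ X0 : ℕ, ∀ X ≥ X0,
    ∀ (α : ℝ) (L s : ℕ → ℕ) (F : ℕ → ℕ → ℂ), (∀ x, Cls q d T M B (L x) (F x)) →
      ∑ x ∈ range X, ‖∑ n ∈ range h, mc (x + n) * (F x (n + s x) * ev (α * n))‖ ≤ ε * h * X

theorem cls_norm {q d T M B L : ℕ} [NeZero M] {F : ℕ → ℂ} (hF : Cls q d T M B L F) (n : ℕ) :
    ‖F n‖ ≤ 1 := by
  obtain ⟨I, β, f, -, hβ, -, -, hFe⟩ := hF
  rw [hFe n, norm_mul, bg_norm_ee, mul_one]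
  exact hβ n

theorem cls_conj {q d T M B L : ℕ} [NeZero M] {F : ℕ → ℂ} (hF : Cls q d T M B L F) :
    Cls q d T M B L (fun n => (starRingEnd ℂ) (F n)) := by
  obtain ⟨I, β, f, hI, hβ, hdep, hf, hFe⟩ := hF
  refine ⟨I, fun n => (starRingEnd ℂ) (β n), fun n => - f n, hI, fun n => ?_, fun n n' h => ?_,
    hf.neg, fun n => ?_⟩
  · rw [RCLike.norm_conj]
    exact hβ n
  · simp only
    rw [hdep n n' h]
  · simp only
    rw [hFe n, map_mul, ← PI.Kat_ee_neg]

/-- the distance to the integers of a multiple -/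
theorem di_nat_mul (k : ℤ) (y : ℝ) : di (k * y) ≤ |(k : ℝ)| * di y := by
  unfold di
  refine (round_le _ (k * round y)).trans (le_of_eq ?_)
  push_cast
  rw [← mul_sub, abs_mul]

/-- very bad positions for a multiple are bad positions -/
theorem vb_sub {q K1 : ℕ} {x γ : ℝ} {T : ℕ} {Md : ℕ} {Q : ℕ} (hQ : 0 < Q) {k : ℤ} (hk : |k| ≤ Q)
    (hx : x = k * (Md * (γ * T))) :
    (vb q K1 x).card ≤ ((range K1).filter fun i => 1 / (2 * (q : ℝ)) / Q ≤
      |(Md : ℝ) * (γ * T * q ^ i) - round ((Md : ℝ) * (γ * T * q ^ i))|).card := by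
  refine card_le_card fun i hi => ?_
  obtain ⟨h1, h2⟩ := mem_filter.1 hi
  refine mem_filter.2 ⟨h1, ?_⟩
  have hQr : (0 : ℝ) < Q := by exact_mod_cast hQ
  rw [div_le_iff₀ hQr]
  have e : x * q ^ i = k * ((Md : ℝ) * (γ * T * q ^ i)) := by
    rw [hx]
    ring
  rw [e] at h2
  refine h2.trans ((di_nat_mul k _).trans ?_)
  have h3 : |(k : ℝ)| ≤ Q := by exact_mod_cast hk
  rw [mul_comm]
  exact mul_le_mul_of_nonneg_left h3 (abs_nonneg _)

/-- the modulus: every `(p + r) T M ^ d` and `(r - p) T M ^ d` divides it -/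
def QQ (P : Finset ℕ) (T Md : ℕ) : ℕ :=
  T * Md * ∏ p ∈ P, ∏ r ∈ P, if p < r then (p + r) * (r - p) else 1

theorem QQ_pos {P : Finset ℕ} {T Md : ℕ} (hT : 0 < T) (hM : 0 < Md) : 0 < QQ P T Md := by
  unfold QQ
  refine Nat.mul_pos (Nat.mul_pos hT hM) (Finset.prod_pos fun p _ => Finset.prod_pos fun r _ => ?_)
  split_ifs with h
  · exact Nat.mul_pos (by omega) (by omega)
  · exact Nat.one_pos

theorem QQ_dvd {P : Finset ℕ} {T Md p r : ℕ} (hp : p ∈ P) (hr : r ∈ P) (hpr : p < r) :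
    (∃ k, QQ P T Md = k * (Md * T * (p + r))) ∧ ∃ k, QQ P T Md = k * (Md * T * (r - p)) := by
  have h1 : (p + r) * (r - p) ∣ ∏ p ∈ P, ∏ r ∈ P, if p < r then (p + r) * (r - p) else 1 := by
    refine dvd_trans ?_ (Finset.dvd_prod_of_mem _ hp)
    refine dvd_trans ?_ (Finset.dvd_prod_of_mem _ hr)
    rw [if_pos hpr]
  obtain ⟨k, hk⟩ := h1
  unfold QQ
  rw [hk]
  exact ⟨⟨(r - p) * k, by ring⟩, ⟨(p + r) * k, by ring⟩⟩

/-- **the twisted local theorem** -/
theorem lpt_all {q : ℕ} (hq : 2 ≤ q) (hMR : MRp) (d : ℕ) : LPT q d := by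
  classical
  intro T M B _ hT ε hε
  have hM0 : 0 < M := Nat.pos_of_ne_zero (NeZero.ne M)
  have hq0r : (0 : ℝ) < q := by exact_mod_cast (by omega : 0 < q)
  have hq1r : (1 : ℝ) < q := by exact_mod_cast (by omega : 1 < q)
  obtain ⟨P, δ, h1, hP, hδ, hk⟩ := lkat q hε
  have hcop : ∀ p ∈ P, p.Coprime q := by
    intro p hp
    obtain ⟨h2, h3⟩ := hP p hp
    exact (Nat.Prime.coprime_iff_not_dvd h2).2 fun h6 =>
      absurd (Nat.le_of_dvd (by omega) h6) (by omega)
  obtain ⟨Q, hQ⟩ : ∃ Q, Q = QQ P T (M ^ d) := ⟨_, rfl⟩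
  have hQ0 : 0 < Q := by
    rw [hQ]
    exact QQ_pos hT (Nat.pow_pos hM0)
  have hQr : (0 : ℝ) < Q := by exact_mod_cast hQ0
  have : NeZero Q := ⟨hQ0.ne'⟩
  have : NeZero (M * Q) := ⟨(Nat.mul_pos hM0 hQ0).ne'⟩
  have hc : 0 < 1 / (2 * (q : ℝ)) / Q := by positivity
  have hex : ∀ p r : ℕ, ∃ B1 : ℕ, p ∈ P → r ∈ P → ∀ h K1 : ℕ, q ^ K1 ≤ q * h → ∀ γ : ℝ,
      B1 ≤ ((range K1).filter fun i => 1 / (2 * (q : ℝ)) / Q ≤ |(M ^ d : ℕ) * (γ * T * q ^ i) -
        round ((M ^ d : ℕ) * (γ * T * q ^ i))|).card →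
      ∀ (L L' : ℕ) (F F' : ℕ → ℂ), Cls q d T M B L F → Cls q d T M B L' F' →
        ∀ s s' N : ℕ, N ≤ h →
          ‖∑ n ∈ Icc 1 N, F (p * n + s) * F' (r * n + s') * ev (γ * n)‖ ≤ δ * h := by
    intro p r
    by_cases hpr : p ∈ P ∧ r ∈ P
    · obtain ⟨B1, hB1⟩ := corr_tw (d := d) (T := T) (M := M) B hq (hcop p hpr.1) (hcop r hpr.2) hc hδ
      exact ⟨B1, fun _ _ => hB1⟩
    · exact ⟨0, fun h2 h3 => absurd ⟨h2, h3⟩ hpr⟩
  choose B2 hB2 using hex
  obtain ⟨B1, hB1⟩ : ∃ B1, B1 = P.sup fun p => P.sup fun r => B2 p r := ⟨_, rfl⟩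
  have hBle : ∀ p ∈ P, ∀ r ∈ P, B2 p r ≤ B1 := fun p hp r hr => by
    rw [hB1]
    exact (Finset.le_sup (f := fun r => B2 p r) hr).trans
      (Finset.le_sup (f := fun p => P.sup fun r => B2 p r) hp)
  obtain ⟨W, hW⟩ := pow_unbounded_of_one_lt (Real.pi * (q * ((B1 : ℝ) + 1)) / (ε / 2)) hq1r
  have hWε : Real.pi * (q * (((B1 : ℝ) + 1) * ((1 : ℝ) / q) ^ W)) ≤ ε / 2 := by
    rw [div_lt_iff₀ (by positivity)] at hW
    have h2 : Real.pi * (q * (((B1 : ℝ) + 1) * ((1 : ℝ) / q) ^ W)) =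
        Real.pi * (q * ((B1 : ℝ) + 1)) / (q : ℝ) ^ W := by
      rw [one_div_pow]
      ring
    rw [h2, div_le_iff₀ (by positivity)]
    linarith
  obtain ⟨h2, hh2⟩ := lpo_all hq hMR (max d 1) T (M * Q) (B + ((B1 + 1) * (W + 1) + 1)) hT (ε / 2)
    (by positivity)
  refine ⟨max 1 (max h1 h2), fun h hh => ?_⟩
  have hh1 : 1 ≤ h := (le_max_left _ _).trans hh
  obtain ⟨X1, hX1⟩ := hk h (((le_max_left _ _).trans (le_max_right _ _)).trans hh)
  obtain ⟨X2, hX2⟩ := hh2 h (((le_max_right _ _).trans (le_max_right _ _)).trans hh)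
  refine ⟨max X1 X2, fun X hX α L s F hF => ?_⟩
  obtain ⟨hK1, hK2⟩ := tr_clog hq hh1
  -- the twisted functions
  have htw : ∀ x, ‖∑ n ∈ range h, mc (x + n) * (F x (n + s x) * ev (α * n))‖ =
      ‖∑ n ∈ range h, mc (x + n) * (F x (n + s x) * ev (α * (n + s x : ℕ)))‖ := by
    intro x
    have e : ∑ n ∈ range h, mc (x + n) * (F x (n + s x) * ev (α * (n + s x : ℕ))) =
        ev (α * s x) * ∑ n ∈ range h, mc (x + n) * (F x (n + s x) * ev (α * n)) := by
      rw [Finset.mul_sum]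
      refine Finset.sum_congr rfl fun n _ => ?_
      push_cast
      rw [mul_add, ev_add]
      ring
    rw [e, norm_mul, norm_ev, one_mul]
  rw [Finset.sum_congr rfl fun x _ => htw x]
  by_cases hV : B1 ≤ (vb q (Nat.clog q h) (Q * α)).card
  · -- many very bad positions
    refine hX1 X ((le_max_left _ _).trans hX) s (fun x m => F x m * ev (α * m)) (fun x n => ?_) ?_
    · rw [norm_mul, norm_ev, mul_one]
      exact cls_norm (hF x) n
    · intro p hp r hr hpr x y s1 s2 N' hN'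
      obtain ⟨⟨k, hk1⟩, ⟨k', hk1'⟩⟩ := QQ_dvd (T := T) (Md := M ^ d) hp hr hpr
      rw [← hQ] at hk1 hk1'
      have hp0 : 0 < p := (hP p hp).1.pos
      have hM0' : 0 < M ^ d := Nat.pow_pos hM0
      have hkle : k ≤ Q := by
        rw [hk1]
        exact Nat.le_mul_of_pos_right _ (Nat.mul_pos (Nat.mul_pos hM0' hT) (by omega))
      have hkle' : k' ≤ Q := by
        rw [hk1']
        exact Nat.le_mul_of_pos_right _ (Nat.mul_pos (Nat.mul_pos hM0' hT) (by omega))
      constructor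
      · have h3 := hB2 p r hp hr h (Nat.clog q h) hK2 (α * (p + r))
          (((hBle p hp r hr).trans hV).trans (vb_sub (Md := M ^ d) hQ0 (k := (k : ℤ))
            (by rw [Nat.abs_cast]; exact_mod_cast hkle) (by
              rw [hk1]
              push_cast
              ring))) (L x) (L y) (F x) (F y) (hF x) (hF y) s1 s2 N' hN'
        have e : ∑ n ∈ Icc 1 N', F x (p * n + s1) * ev (α * (p * n + s1 : ℕ)) *
            (F y (r * n + s2) * ev (α * (r * n + s2 : ℕ))) = ev (α * (s1 + s2)) *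
            ∑ n ∈ Icc 1 N', F x (p * n + s1) * F y (r * n + s2) * ev (α * (p + r) * n) := by
          rw [Finset.mul_sum]
          refine Finset.sum_congr rfl fun n _ => ?_
          have e1 : ev (α * (p * n + s1 : ℕ)) * ev (α * (r * n + s2 : ℕ)) =
              ev (α * (s1 + s2)) * ev (α * (p + r) * n) := by
            rw [← ev_add, ← ev_add]
            congr 1
            push_cast
            ring
          linear_combination (F x (p * n + s1) * F y (r * n + s2)) * e1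
        rw [e, norm_mul, norm_ev, one_mul]
        exact h3
      · have h3 := hB2 p r hp hr h (Nat.clog q h) hK2 (α * (p - r))
          (((hBle p hp r hr).trans hV).trans (vb_sub (Md := M ^ d) hQ0 (k := -(k' : ℤ))
            (by rw [abs_neg, Nat.abs_cast]; exact_mod_cast hkle') (by
              rw [hk1']
              push_cast [Nat.cast_sub hpr.le]
              ring))) (L x) (L y) (F x) (fun n => (starRingEnd ℂ) (F y n)) (hF x)
              (cls_conj (hF y)) s1 s2 N' hN'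
        have e : ∑ n ∈ Icc 1 N', F x (p * n + s1) * ev (α * (p * n + s1 : ℕ)) *
            (starRingEnd ℂ) (F y (r * n + s2) * ev (α * (r * n + s2 : ℕ))) =
            ev (α * (s1 - s2)) * ∑ n ∈ Icc 1 N', F x (p * n + s1) *
              (starRingEnd ℂ) (F y (r * n + s2)) * ev (α * (p - r) * n) := by
          rw [Finset.mul_sum]
          refine Finset.sum_congr rfl fun n _ => ?_
          have e1 : ev (α * (p * n + s1 : ℕ)) * ev (-(α * (r * n + s2 : ℕ))) =
              ev (α * (s1 - s2)) * ev (α * (p - r) * n) := by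
            rw [← ev_add, ← ev_add]
            congr 1
            push_cast
            ring
          rw [map_mul, conj_ev]
          linear_combination (F x (p * n + s1) * (starRingEnd ℂ) (F y (r * n + s2))) * e1
        rw [e, norm_mul, norm_ev, one_mul]
        exact h3
  · -- few very bad positions
    rw [not_le] at hV
    choose G hG1 hG2 using fun x : ℕ => apx hq hT Q W (Nat.clog q h) α hV.le (s x)
    have h3 := hX2 X ((le_max_right _ _).trans hX) (fun x => max (L x) (Nat.clog q h)) s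
      (fun x n => F x n * G x n) fun x => cls_mul (hF x) (hG1 x)
    have h4 : ∀ x, ‖∑ n ∈ range h, mc (x + n) * (F x (n + s x) * ev (α * (n + s x : ℕ)))‖ ≤
        ‖∑ n ∈ range h, mc (x + n) * (F x (n + s x) * G x (n + s x))‖ + ε / 2 * h := by
      intro x
      have e : ∑ n ∈ range h, mc (x + n) * (F x (n + s x) * ev (α * (n + s x : ℕ))) =
          ∑ n ∈ range h, mc (x + n) * (F x (n + s x) * G x (n + s x)) +
          ∑ n ∈ range h, mc (x + n) * (F x (n + s x) *
            (ev (α * (n + s x : ℕ)) - G x (n + s x))) := by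
        rw [← Finset.sum_add_distrib]
        exact Finset.sum_congr rfl fun n _ => by ring
      rw [e]
      refine (norm_add_le _ _).trans (add_le_add le_rfl ((norm_sum_le _ _).trans
        ((Finset.sum_le_card_nsmul _ _ (ε / 2) fun n hn => ?_).trans ?_)))
      · rw [norm_mul, norm_mul]
        have hn1 := mem_range.1 hn
        have h5 := (hG2 x (n + s x) (by omega) (by omega)).trans hWε
        calc ‖mc (x + n)‖ * (‖F x (n + s x)‖ * ‖ev (α * (n + s x : ℕ)) - G x (n + s x)‖) ≤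
            1 * (1 * (ε / 2)) := by
              refine mul_le_mul (base_norm_mc _) (mul_le_mul (cls_norm (hF x) _) h5
                (norm_nonneg _) zero_le_one) (mul_nonneg (norm_nonneg _) (norm_nonneg _)) zero_le_one
          _ = ε / 2 := by ring
      · rw [card_range, nsmul_eq_mul]
        exact le_of_eq (mul_comm _ _)
    refine (Finset.sum_le_sum fun x _ => h4 x).trans ?_
    rw [Finset.sum_add_distrib, Finset.sum_const, card_range, nsmul_eq_mul]
    calc _ ≤ ε / 2 * h * X + X * (ε / 2 * h) := add_le_add h3 le_rfl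
      _ = ε * h * X := by ring

end Pool.Agent.Lib.MP_3e612f_nt.LORT
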