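import Pool.Agent.Lib.MP_3e612f_nt.LO.R.Vdc
import Pool.Agent.Lib.MP_3e612f_nt.LO.R.Words

/-!
The local theorem for digit functions twisted by polynomial phases: the leading coefficient is fixed and of
infinite order, the other coefficients depend on the interval.
-/

set_option autoImplicit false

namespace Pool.Agent.Lib.MP_3e612f_nt.LORT

open Finset
open Pool.Agent.Lib.MP_3e612f_nt.PI (ee mc)
open Pool.Agent.Lib.MP_3e612f_nt.EM
open Pool.Agent.Lib.MP_3e612f_nt.LOD

/-- **the local theorem with polynomial phases** -/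
theorem lpd {q : ℕ} (hq : 2 ≤ q) {d T M B : ℕ} [NeZero M] (hT : 0 < T) (D : ℕ) {γ : UnitAddCircle}
    (hγ : addOrderOf γ = 0) {ε : ℝ} (hε : 0 < ε) :
    ∃ h0 : ℕ, ∀ h ≥ h0, ∃ X0 : ℕ, ∀ X ≥ X0, ∀ g : ℕ → ℕ → UnitAddCircle,
      (∀ x, PhD (D + 1) γ (g x)) → ∀ (L s : ℕ → ℕ) (F : ℕ → ℕ → ℂ),
        (∀ x, Cls q d T M B (L x) (F x)) →
          ∑ x ∈ range X, ‖∑ n ∈ range h, mc (x + n) * (F x (n + s x) * tc (g x n))‖ ≤
            ε * h * X := by
  classical
  obtain ⟨P, δ, h1, hP, hδ, hk⟩ := lkat q hε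
  have hcop : ∀ p ∈ P, p.Coprime q := by
    intro p hp
    obtain ⟨h2, h3⟩ := hP p hp
    exact (Nat.Prime.coprime_iff_not_dvd h2).2 fun h6 =>
      absurd (Nat.le_of_dvd (by omega) h6) (by omega)
  have hex : ∀ p r : ℕ, ∃ h0 : ℕ, p ∈ P → r ∈ P → p < r → ∀ h ≥ h0, ∀ (L L' : ℕ) (F F' : ℕ → ℂ),
      Cls q d T M B L F → Cls q d T M B L' F' → ∀ g g' : ℕ → UnitAddCircle, PhD (D + 1) γ g →
        PhD (D + 1) γ g' → ∀ s s' N : ℕ, N ≤ h →
          ‖∑ n ∈ Icc 1 N, F (p * n + s) * F' (r * n + s') *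
            tc (g (p * n + s) + g' (r * n + s'))‖ ≤ δ * h ∧
          ‖∑ n ∈ Icc 1 N, F (p * n + s) * F' (r * n + s') *
            tc (g (p * n + s) - g' (r * n + s'))‖ ≤ δ * h := by
    intro p r
    by_cases hpr : p ∈ P ∧ r ∈ P ∧ p < r
    · have hp0 : 0 < p := (hP p hpr.1).1.pos
      have hpow : p ^ (D + 1) < r ^ (D + 1) := Nat.pow_lt_pow_left hpr.2.2 (Nat.succ_ne_zero D)
      have hc : ∀ b : Bool, (bif b then p else r).Coprime q := by
        intro b
        cases b with
        | true => exact hcop p hpr.1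
        | false => exact hcop r hpr.2.1
      obtain ⟨h2, hh2⟩ := corr_pol (q := q) (d := d) (T := T) (M := M) (B := B) hq hT D Bool
        (fun b => bif b then p else r) hc (((p ^ (D + 1) + r ^ (D + 1) : ℕ) : ℤ) • γ)
        (ord_zsmul hγ (by
          have : 0 < p ^ (D + 1) := Nat.pow_pos hp0
          omega)) δ hδ
      obtain ⟨h3, hh3⟩ := corr_pol (q := q) (d := d) (T := T) (M := M) (B := B) hq hT D Bool
        (fun b => bif b then p else r) hc
        ((((p ^ (D + 1) : ℕ) : ℤ) - ((r ^ (D + 1) : ℕ) : ℤ)) • γ)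
        (ord_zsmul hγ (by
          have : ((p ^ (D + 1) : ℕ) : ℤ) < ((r ^ (D + 1) : ℕ) : ℤ) := by exact_mod_cast hpow
          omega)) δ hδ
      refine ⟨max h2 h3, fun _ _ _ h hh L L' F F' hF hF' g g' hg hg' s s' N hN => ⟨?_, ?_⟩⟩
      · have h4 := hh2 h ((le_max_left _ _).trans hh) (fun b => bif b then L else L')
          (fun b => bif b then F else F') (fun b => by
            cases b with
            | true => exact hF
            | false => exact hF') (fun n => g (p * n + s) + g' (r * n + s')) (by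
            have := phd_add (phd_mul hg p s) (phd_mul hg' r s')
            rw [← add_smul, ← natCast_zsmul] at this
            exact this) (fun b => bif b then s else s') N hN
        simp only [Fintype.prod_bool, cond_true, cond_false] at h4
        exact h4
      · have h4 := hh3 h ((le_max_right _ _).trans hh) (fun b => bif b then L else L')
          (fun b => bif b then F else F') (fun b => by
            cases b with
            | true => exact hF
            | false => exact hF') (fun n => g (p * n + s) - g' (r * n + s')) (by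
            have := phd_sub (phd_mul hg p s) (phd_mul hg' r s')
            rw [sub_smul, natCast_zsmul, natCast_zsmul]
            exact this) (fun b => bif b then s else s') N hN
        simp only [Fintype.prod_bool, cond_true, cond_false] at h4
        exact h4
    · exact ⟨0, fun h4 h5 h6 => absurd ⟨h4, h5, h6⟩ hpr⟩
  choose h2 hh2 using hex
  refine ⟨max h1 (P.sup fun p => P.sup fun r => h2 p r), fun h hh => ?_⟩
  have hle : ∀ p ∈ P, ∀ r ∈ P, h2 p r ≤ h := fun p hp r hr =>
    ((Finset.le_sup (f := fun r => h2 p r) hr).trans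
      (Finset.le_sup (f := fun p => P.sup fun r => h2 p r) hp)).trans ((le_max_right _ _).trans hh)
  obtain ⟨X0, hX0⟩ := hk h ((le_max_left _ _).trans hh)
  refine ⟨X0, fun X hX g hg L s F hF => ?_⟩
  choose g' hg' hgg using fun x : ℕ => phd_exts (hg x) (s x)
  have h3 := hX0 X hX s (fun x m => F x m * tc (g' x m)) (fun x n => by
    rw [norm_mul, tc_norm, mul_one]
    exact cls_norm (hF x) n) (fun p hp r hr hpr x y s1 s2 N hN => ⟨by
      refine le_trans (le_of_eq ?_) (hh2 p r hp hr hpr h (hle p hp r hr) (L x) (L y) (F x) (F y)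
        (hF x) (hF y) (g' x) (g' y) (hg' x) (hg' y) s1 s2 N hN).1
      congr 1
      refine Finset.sum_congr rfl fun n _ => ?_
      rw [tc_add]
      ring, by
      refine le_trans (le_of_eq ?_) (hh2 p r hp hr hpr h (hle p hp r hr) (L x) (L y) (F x)
        (fun n => (starRingEnd ℂ) (F y n)) (hF x) (cls_conj (hF y)) (g' x) (g' y) (hg' x) (hg' y)
        s1 s2 N hN).2
      congr 1
      refine Finset.sum_congr rfl fun n _ => ?_
      rw [map_mul, tc_conj, sub_eq_add_neg, tc_add]
      ring⟩)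
  simp only [hgg] at h3
  exact h3

/-- the Moebius function times polynomial phases of degree `≤ D` with leading difference `γ` -/
def twD (D : ℕ) (γ : UnitAddCircle) : Set (ℕ → ℕ → ℂ) :=
  {c | ∃ g : ℕ → ℕ → UnitAddCircle, (∀ x, PhD D γ (g x)) ∧ c = fun x n => mc (x + n) * tc (g x n)}

theorem twD_norm {D : ℕ} {γ : UnitAddCircle} : ∀ c ∈ twD D γ, ∀ x n, ‖c x n‖ ≤ 1 := by
  rintro c ⟨g, -, rfl⟩ x n
  simp only
  rw [norm_mul, tc_norm, mul_one]
  exact LOD.base_norm_mc _

theorem lmw_twD {q m d : ℕ} (hq : 2 ≤ q) (hm : 1 ≤ m) (D : ℕ) {γ : UnitAddCircle}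
    (hγ : addOrderOf γ = 0) : LMW (twD (D + 1) γ) q (q * m) d := by
  intro M _ ε hε
  obtain ⟨h0, hh0⟩ := lpd (q := q) (d := d) (T := m) (M := M) (B := 0) hq (by omega) D hγ hε
  refine ⟨h0, fun h hh => ?_⟩
  obtain ⟨X0, hX0⟩ := hh0 h hh
  refine ⟨X0, fun X hX c hc L s F => ?_⟩
  obtain ⟨g, hg, rfl⟩ := hc
  have h1 := hX0 X hX g hg L s (fun x n => ee (phm q (q * m) d (L x) (F x) n)) fun x =>
    ⟨∅, fun _ => 1, phm q (q * m) d (L x) (F x), by simp, fun _ => by simp, fun _ _ _ => rfl,
      isPL_phm (Nat.mul_pos (by omega) hm) (F x), fun n => (one_mul _).symm⟩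
  refine le_trans (le_of_eq (Finset.sum_congr rfl fun x _ => ?_)) h1
  congr 1
  exact Finset.sum_congr rfl fun n _ => by ring

end Pool.Agent.Lib.MP_3e612f_nt.LORT
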