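import Pool.Agent.Lib.MP_3e612f_nt.LO.R.CorrF
import Pool.Agent.Lib.MP_3e612f_nt.LO.R.Tw
import Pool.Agent.Lib.MP_3e612f_nt.LO.R.Pol

/-!
Correlations of digit functions twisted by a polynomial phase with a fixed leading coefficient of infinite
order: reduction of the degree by the inequality of van der Corput; in degree one many positions of the
frequency are very bad.
-/

set_option autoImplicit false

namespace Pool.Agent.Lib.MP_3e612f_nt.LORT

open Finset
open Pool.Agent.Lib.MP_3e612f_nt.PI (ee mc)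
open Pool.Agent.Lib.MP_3e612f_nt.EM

/-- an irrational number has infinitely many very bad positions -/
theorem vb_many {q : ℕ} (hq : 2 ≤ q) {y : ℝ} (hy : ∀ i : ℕ, di (y * q ^ i) ≠ 0) (B : ℕ) :
    ∃ K0 : ℕ, ∀ K ≥ K0, B ≤ (vb q K y).card := by
  have hq1 : (1 : ℝ) < q := by exact_mod_cast (by omega : 1 < q)
  -- there is a very bad position after every `i`
  have hex : ∀ i : ℕ, ∃ j, i ≤ j ∧ 1 / (2 * (q : ℝ)) ≤ di (y * q ^ j) := by
    intro i
    by_contra hcon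
    push Not at hcon
    have h1 : ∀ k : ℕ, (q : ℝ) ^ k * di (y * q ^ i) ≤ 1 / 2 := by
      intro k
      rw [← di_run hq k fun j _ => ?_]
      · exact di_half _
      · have := hcon (i + j) (Nat.le_add_right _ _)
        rw [pow_add] at this
        rwa [show (q : ℝ) ^ j * (y * q ^ i) = y * (q ^ i * q ^ j) by ring]
    have h2 : 0 < di (y * q ^ i) := lt_of_le_of_ne (di_nonneg _) (Ne.symm (hy i))
    obtain ⟨k, hk⟩ := pow_unbounded_of_one_lt (1 / 2 / di (y * q ^ i)) hq1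
    rw [div_lt_iff₀ h2] at hk
    linarith [h1 k]
  induction B with
  | zero => exact ⟨0, fun _ _ => Nat.zero_le _⟩
  | succ B ih =>
    obtain ⟨K0, hK0⟩ := ih
    obtain ⟨j, hj1, hj2⟩ := hex K0
    refine ⟨j + 1, fun K hK => ?_⟩
    have h1 : vb q K0 y ∪ {j} ⊆ vb q K y := by
      intro i hi
      rcases mem_union.1 hi with h | h
      · obtain ⟨h2, h3⟩ := mem_filter.1 h
        have := mem_range.1 h2
        exact mem_filter.2 ⟨mem_range.2 (by omega), h3⟩
      · rw [mem_singleton] at h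
        rw [h]
        exact mem_filter.2 ⟨mem_range.2 (by omega), hj2⟩
    have h2 : Disjoint (vb q K0 y) {j} := by
      rw [disjoint_singleton_right]
      intro h
      have := mem_range.1 (mem_filter.1 h).1
      omega
    have h3 := card_le_card h1
    rw [card_union_of_disjoint h2, card_singleton] at h3
    exact (Nat.add_le_add_right (hK0 K0 le_rfl) 1).trans h3

/-- the inequality of van der Corput -/
theorem vdc {Ψ : ℕ → ℂ} (h1 : ∀ n, ‖Ψ n‖ ≤ 1) {N h U : ℕ} (hN : N ≤ h) (hU : 0 < U) {δ : ℝ}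
    (hδ : 0 ≤ δ) (H : ∀ t < U, ∀ t' < U, t ≠ t' →
      ‖∑ n ∈ Icc 1 N, Ψ (n + t) * (starRingEnd ℂ) (Ψ (n + t'))‖ ≤ δ * h) :
    ‖∑ n ∈ Icc 1 N, Ψ n‖ ≤ Real.sqrt (1 / U + δ) * h + 2 * U := by
  have hU0 : (0 : ℝ) < U := by exact_mod_cast hU
  have hNh : (N : ℝ) ≤ h := by exact_mod_cast hN
  have hh0 : (0 : ℝ) ≤ h := Nat.cast_nonneg h
  have hN0 : (0 : ℝ) ≤ N := Nat.cast_nonneg N
  set Z : ℕ → ℂ := fun n => ∑ t ∈ range U, Ψ (n + t) with hZ
  -- the square
  have hsq : ∑ n ∈ Icc 1 N, ‖Z n‖ ^ 2 ≤ U * h + U ^ 2 * (δ * h) := by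
    have e1 : ((∑ n ∈ Icc 1 N, ‖Z n‖ ^ 2 : ℝ) : ℂ) = ∑ t ∈ range U, ∑ t' ∈ range U,
        ∑ n ∈ Icc 1 N, Ψ (n + t) * (starRingEnd ℂ) (Ψ (n + t')) := by
      push_cast
      rw [Finset.sum_congr rfl fun n _ => (Complex.mul_conj' (Z n)).symm]
      rw [hZ]
      simp only [map_sum, Finset.sum_mul_sum]
      rw [Finset.sum_comm]
      exact Finset.sum_congr rfl fun t _ => Finset.sum_comm
    have e2 : ∑ n ∈ Icc 1 N, ‖Z n‖ ^ 2 ≤ ∑ t ∈ range U, ∑ t' ∈ range U,
        ‖∑ n ∈ Icc 1 N, Ψ (n + t) * (starRingEnd ℂ) (Ψ (n + t'))‖ := by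
      have h2 : ∑ n ∈ Icc 1 N, ‖Z n‖ ^ 2 = ‖((∑ n ∈ Icc 1 N, ‖Z n‖ ^ 2 : ℝ) : ℂ)‖ := by
        rw [Complex.norm_real, Real.norm_eq_abs, abs_of_nonneg]
        exact Finset.sum_nonneg fun _ _ => by positivity
      rw [h2, e1]
      exact (norm_sum_le _ _).trans (Finset.sum_le_sum fun t _ => norm_sum_le _ _)
    refine e2.trans ?_
    have h3 : ∀ t ∈ range U, ∀ t' ∈ range U,
        ‖∑ n ∈ Icc 1 N, Ψ (n + t) * (starRingEnd ℂ) (Ψ (n + t'))‖ ≤
        (if t = t' then (h : ℝ) else 0) + δ * h := by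
      intro t ht t' ht'
      by_cases htt : t = t'
      · rw [if_pos htt]
        have h4 : ∀ n ∈ Icc 1 N, ‖Ψ (n + t) * (starRingEnd ℂ) (Ψ (n + t'))‖ ≤ 1 := by
          intro n _
          rw [norm_mul, RCLike.norm_conj]
          exact mul_le_one₀ (h1 _) (norm_nonneg _) (h1 _)
        have h5 := (norm_sum_le _ _).trans (Finset.sum_le_card_nsmul _ _ 1 h4)
        rw [Nat.card_Icc, Nat.add_sub_cancel, nsmul_eq_mul, mul_one] at h5
        have : 0 ≤ δ * h := by positivity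
        linarith
      · rw [if_neg htt, zero_add]
        exact H t (mem_range.1 ht) t' (mem_range.1 ht') htt
    refine (Finset.sum_le_sum fun t ht => Finset.sum_le_sum fun t' ht' => h3 t ht t' ht').trans ?_
    simp only [Finset.sum_add_distrib, Finset.sum_ite_eq, Finset.sum_const, card_range,
      nsmul_eq_mul]
    have h6 : ∑ t ∈ range U, (if t ∈ range U then (h : ℝ) else 0) = U * h := by
      rw [Finset.sum_congr rfl fun t ht => if_pos ht, Finset.sum_const, card_range, nsmul_eq_mul]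
    rw [h6]
    exact le_of_eq (by ring)
  have hcs : ‖∑ n ∈ Icc 1 N, Z n‖ ≤ U * (Real.sqrt (1 / U + δ) * h) := by
    have h2 : ‖∑ n ∈ Icc 1 N, Z n‖ ^ 2 ≤ N * ∑ n ∈ Icc 1 N, ‖Z n‖ ^ 2 := by
      have h3 : ‖∑ n ∈ Icc 1 N, Z n‖ ^ 2 ≤ (∑ n ∈ Icc 1 N, ‖Z n‖) ^ 2 :=
        pow_le_pow_left₀ (norm_nonneg _) (norm_sum_le _ _) 2
      have h4 := sq_sum_le_card_mul_sum_sq (s := Icc 1 N) (f := fun n => ‖Z n‖)
      rw [Nat.card_Icc, Nat.add_sub_cancel] at h4
      exact h3.trans h4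
    have h3 : ‖∑ n ∈ Icc 1 N, Z n‖ ^ 2 ≤ (U * (Real.sqrt (1 / U + δ) * h)) ^ 2 := by
      have h5 : 0 ≤ ∑ n ∈ Icc 1 N, ‖Z n‖ ^ 2 := Finset.sum_nonneg fun _ _ => by positivity
      rw [mul_pow, mul_pow, Real.sq_sqrt (by positivity)]
      calc _ ≤ (N : ℝ) * ∑ n ∈ Icc 1 N, ‖Z n‖ ^ 2 := h2
        _ ≤ (h : ℝ) * (U * h + U ^ 2 * (δ * h)) := mul_le_mul hNh hsq h5 hh0
        _ = _ := by
            field_simp
    exact (pow_le_pow_iff_left₀ (norm_nonneg _) (by positivity) two_ne_zero).1 h3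
  -- the shifts
  have e3 : (U : ℂ) * ∑ n ∈ Icc 1 N, Ψ n = ∑ n ∈ Icc 1 N, Z n +
      ∑ t ∈ range U, (∑ n ∈ Icc 1 N, Ψ n - ∑ n ∈ Icc 1 N, Ψ (n + t)) := by
    rw [Finset.sum_sub_distrib, Finset.sum_const, card_range, nsmul_eq_mul, hZ, Finset.sum_comm]
    ring
  have h4 : (U : ℝ) * ‖∑ n ∈ Icc 1 N, Ψ n‖ ≤ U * (Real.sqrt (1 / U + δ) * h + 2 * U) := by
    have e4 : (U : ℝ) * ‖∑ n ∈ Icc 1 N, Ψ n‖ = ‖(U : ℂ) * ∑ n ∈ Icc 1 N, Ψ n‖ := by
      rw [norm_mul, Complex.norm_natCast]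
    rw [e4, e3, mul_add]
    refine (norm_add_le _ _).trans (add_le_add hcs ((norm_sum_le _ _).trans
      ((Finset.sum_le_card_nsmul _ _ (2 * (U : ℝ)) fun t ht => ?_).trans ?_)))
    · refine (shift_diff Ψ h1 N t).trans ?_
      have : (t : ℝ) ≤ U := by exact_mod_cast (mem_range.1 ht).le
      linarith
    · rw [card_range, nsmul_eq_mul]
  exact le_of_mul_le_mul_left h4 hU0

/-- an element of infinite order of the circle is irrational -/
theorem ord_di {x : ℝ} (hx : addOrderOf (x : UnitAddCircle) = 0) {a : ℕ} (ha : 0 < a) :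
    di (a * x) ≠ 0 := by
  intro h
  have h1 : (a : ℝ) * x = round ((a : ℝ) * x) := by
    have := abs_eq_zero.1 h
    linarith
  have h2 : a • (x : UnitAddCircle) = 0 := by
    rw [← AddCircle.coe_nsmul, nsmul_eq_mul, h1]
    have h3 := AddCircle.coe_eq_zero_iff (1 : ℝ) (x := ((round ((a : ℝ) * x) : ℤ) : ℝ))
    exact h3.2 ⟨round ((a : ℝ) * x), by simp⟩
  exact absurd (addOrderOf_dvd_of_nsmul_eq_zero h2) (by
    rw [hx]
    intro h3
    have := Nat.eq_zero_of_zero_dvd h3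
    omega)

/-- **correlations with a polynomial phase whose leading coefficient has infinite order** -/
theorem corr_pol {q d T M B : ℕ} [NeZero M] (hq : 2 ≤ q) (hT : 0 < T) (D : ℕ) :
    ∀ (κ' : Type) [Fintype κ'] (p : κ' → ℕ), (∀ i, (p i).Coprime q) → ∀ γ : UnitAddCircle,
      addOrderOf γ = 0 → ∀ δ : ℝ, 0 < δ → ∃ h0 : ℕ, ∀ h ≥ h0, ∀ (L : κ' → ℕ) (F : κ' → ℕ → ℂ),
        (∀ i, Cls q d T M B (L i) (F i)) → ∀ g : ℕ → UnitAddCircle, PhD (D + 1) γ g →
          ∀ (s : κ' → ℕ) (N : ℕ), N ≤ h →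
            ‖∑ n ∈ Icc 1 N, (∏ i, F i (p i * n + s i)) * tc (g n)‖ ≤ δ * h := by
  have hM0 : 0 < M := Nat.pos_of_ne_zero (NeZero.ne M)
  have hq0 : 0 < q := by omega
  induction D with
  | zero =>
    intro κ' _ p hp γ hγ δ hδ
    induction γ using QuotientAddGroup.induction_on with
    | H y =>
    have hγ' : addOrderOf (y : UnitAddCircle) = 0 := hγ
    obtain ⟨B1, hB1⟩ := corr_twF (κ' := κ') (q := q) (d := d) (T := T) (M := M) B hq hp
      (c := 1 / (2 * (q : ℝ))) (δ := δ) (by positivity) hδ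
    obtain ⟨K0, hK0⟩ := vb_many hq (y := ((M ^ d * T : ℕ) : ℝ) * y) (fun i => by
      have h1 := ord_di hγ' (a := M ^ d * T * q ^ i)
        (Nat.mul_pos (Nat.mul_pos (Nat.pow_pos hM0) hT) (Nat.pow_pos hq0))
      rw [show (((M ^ d * T : ℕ) : ℝ) * y) * (q : ℝ) ^ i =
        ((M ^ d * T * q ^ i : ℕ) : ℝ) * y by push_cast; ring]
      exact h1) B1
    refine ⟨q ^ K0, fun h hh L F hF g hg s N hN => ?_⟩
    have h1 : q ^ (K0 + 1) ≤ q * h := by
      rw [pow_succ']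
      exact Nat.mul_le_mul_left _ hh
    have h2 : B1 ≤ ((range (K0 + 1)).filter fun i => 1 / (2 * (q : ℝ)) ≤
        |((M ^ d : ℕ) : ℝ) * (y * T * q ^ i) - round (((M ^ d : ℕ) : ℝ) * (y * T * q ^ i))|).card := by
      refine (hK0 (K0 + 1) (Nat.le_succ _)).trans (card_le_card fun i hi => ?_)
      obtain ⟨h3, h4⟩ := mem_filter.1 hi
      refine mem_filter.2 ⟨h3, ?_⟩
      have e : (((M ^ d * T : ℕ) : ℝ) * y) * (q : ℝ) ^ i =
          ((M ^ d : ℕ) : ℝ) * (y * T * q ^ i) := by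
        push_cast
        ring
      rw [e] at h4
      exact h4
    have h3 := hB1 h (K0 + 1) h1 y h2 L F hF s N hN
    have e1 : ∀ n, tc (g n) = tc (g 0) * ev (y * n) := by
      intro n
      have h4 : g n = g 0 + n • (y : UnitAddCircle) := phd_one hg n
      rw [h4, tc_add, tc_nsmul, tc_coe, ev_pow, mul_comm (n : ℝ)]
    have e2 : ∑ n ∈ Icc 1 N, (∏ i, F i (p i * n + s i)) * tc (g n) =
        tc (g 0) * ∑ n ∈ Icc 1 N, (∏ i, F i (p i * n + s i)) * ev (y * n) := by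
      rw [Finset.mul_sum]
      refine Finset.sum_congr rfl fun n _ => ?_
      rw [e1 n]
      ring
    rw [e2, norm_mul, tc_norm, one_mul]
    exact h3
  | succ D ih =>
    intro κ' _ p hp γ hγ δ hδ
    obtain ⟨U, hU⟩ := exists_nat_gt (8 / δ ^ 2)
    have hδ2 : 0 < δ ^ 2 / 8 := by positivity
    have hU0r : (0 : ℝ) < U := lt_of_le_of_lt (by positivity) hU
    have hU0 : 0 < U := by exact_mod_cast hU0r
    -- the family of twice the size
    have hex : ∀ t t' : ℕ, ∃ h0 : ℕ, t ≠ t' → ∀ h ≥ h0, ∀ (L : κ' ⊕ κ' → ℕ)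
        (F : κ' ⊕ κ' → ℕ → ℂ), (∀ i, Cls q d T M B (L i) (F i)) → ∀ g : ℕ → UnitAddCircle,
          PhD (D + 1) (((t : ℤ) - t') • γ) g → ∀ (s : κ' ⊕ κ' → ℕ) (N : ℕ), N ≤ h →
            ‖∑ n ∈ Icc 1 N, (∏ i, F i (Sum.elim p p i * n + s i)) * tc (g n)‖ ≤
              δ ^ 2 / 8 * h := by
      intro t t'
      by_cases htt : t = t'
      · exact ⟨0, fun h => absurd htt h⟩
      · obtain ⟨h0, hh0⟩ := ih (κ' ⊕ κ') (Sum.elim p p) (fun i => by
          rcases i with i | i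
          · exact hp i
          · exact hp i) (((t : ℤ) - t') • γ) (ord_zsmul hγ (by omega)) (δ ^ 2 / 8) hδ2
        exact ⟨h0, fun _ => hh0⟩
    choose h0 hh0 using hex
    obtain ⟨h1, hh1⟩ := exists_nat_gt (4 * U / δ)
    refine ⟨max h1 ((range U).sup fun t => (range U).sup fun t' => h0 t t'),
      fun h hh L F hF g hg s N hN => ?_⟩
    have hle : ∀ t < U, ∀ t' < U, h0 t t' ≤ h := fun t ht t' ht' =>
      ((Finset.le_sup (f := fun t' => h0 t t') (mem_range.2 ht')).trans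
        (Finset.le_sup (f := fun t => (range U).sup fun t' => h0 t t') (mem_range.2 ht))).trans
        ((le_max_right _ _).trans hh)
    have hΨ1 : ∀ n, ‖(∏ i, F i (p i * n + s i)) * tc (g n)‖ ≤ 1 := by
      intro n
      rw [norm_mul, tc_norm, mul_one]
      exact prod_le_one' _ fun i => cls_norm (hF i) _
    refine (vdc hΨ1 hN hU0 hδ2.le fun t ht t' ht' htt => ?_).trans ?_
    · have h3 := hh0 t t' htt h (hle t ht t' ht') (Sum.elim L L)
        (Sum.elim F fun i n => (starRingEnd ℂ) (F i n)) (fun i => by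
          rcases i with i | i
          · exact hF i
          · exact cls_conj (hF i)) (fun n => g (n + t) - g (n + t')) (phd_step2 hg t t')
        (Sum.elim (fun i => p i * t + s i) fun i => p i * t' + s i) N hN
      refine le_trans (le_of_eq ?_) h3
      congr 1
      refine Finset.sum_congr rfl fun n _ => ?_
      rw [Fintype.prod_sum_type]
      simp only [Sum.elim_inl, Sum.elim_inr]
      rw [map_mul, map_prod, tc_conj, sub_eq_add_neg, tc_add]
      have e1 : ∀ i, p i * (n + t) + s i = p i * n + (p i * t + s i) := fun i => by ring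
      have e2 : ∀ i, p i * (n + t') + s i = p i * n + (p i * t' + s i) := fun i => by ring
      simp only [e1, e2]
      ring
    · have h3 : 1 / (U : ℝ) ≤ δ ^ 2 / 8 := by
        rw [div_le_iff₀ hU0r]
        rw [div_lt_iff₀ (by positivity)] at hU
        linarith
      have h4 : Real.sqrt (1 / U + δ ^ 2 / 8) ≤ δ / 2 := by
        refine Real.sqrt_le_iff.2 ⟨by positivity, ?_⟩
        nlinarith
      have h5 : 2 * (U : ℝ) ≤ δ / 2 * h := by
        have h6 : (h1 : ℝ) ≤ h := by exact_mod_cast (le_max_left _ _).trans hh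
        rw [div_lt_iff₀ hδ] at hh1
        nlinarith
      have h6 : Real.sqrt (1 / U + δ ^ 2 / 8) * h ≤ δ / 2 * h :=
        mul_le_mul_of_nonneg_right h4 (Nat.cast_nonneg _)
      linarith

end Pool.Agent.Lib.MP_3e612f_nt.LORT
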